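import Mathlib

/-! Stable range lemmas over the integers. -/

open Matrix

namespace Pool.Agent.Lib.MP_755cca_al

theorem sr_int {p q J : ℤ} (hp : p ≠ 0) (h : ∃ u v w : ℤ, u * p + v * q + w * J = 1) :
    ∃ n : ℤ, IsCoprime p (q + n * J) := by
  classical
  obtain ⟨u, v, w, h⟩ := h
  refine ⟨∏ l ∈ p.natAbs.primeFactors.filter (fun l : ℕ => ¬ (l : ℤ) ∣ q), (l : ℤ), ?_⟩
  refine isCoprime_of_prime_dvd (fun h => hp h.1) fun z hz hzp hzq => ?_
  have hl : (z.natAbs).Prime := Int.prime_iff_natAbs_prime.1 hz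
  by_cases hq : z ∣ q
  · have h1 := (dvd_add_right hq).1 hzq
    rcases hz.dvd_or_dvd h1 with h2 | h2
    · obtain ⟨l, hl1, hl2⟩ := (Prime.dvd_finset_prod_iff hz _).1 h2
      rw [Finset.mem_filter] at hl1
      have h3 : z.natAbs = l := (Nat.prime_dvd_prime_iff_eq hl
        (Nat.prime_of_mem_primeFactors hl1.1)).1 (by simpa using Int.natAbs_dvd_natAbs.2 hl2)
      apply hl1.2
      rw [← h3]
      exact Int.natAbs_dvd.2 hq
    · have : z ∣ 1 := by
        rw [← h]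
        exact dvd_add (dvd_add (hzp.mul_left _) (hq.mul_left _)) (h2.mul_left _)
      exact hz.not_unit (isUnit_of_dvd_one this)
  · apply hq
    refine (dvd_add_left (Dvd.dvd.mul_right ?_ J)).1 hzq
    refine (Int.natAbs_dvd.1 (dvd_refl _)).trans (Finset.dvd_prod_of_mem
      (fun l : ℕ => (l : ℤ)) (a := z.natAbs) ?_)
    rw [Finset.mem_filter]
    refine ⟨Nat.mem_primeFactors.2 ⟨hl, Int.natAbs_dvd_natAbs.2 hzp, by simpa using hp⟩, ?_⟩
    rwa [Int.natAbs_dvd]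

variable {κ ρ : Type} [Fintype κ] [DecidableEq κ] [Fintype ρ]

theorem sr_sub {i j : κ} (hij : i ≠ j) (a : κ → ℤ) (L : Submodule ℤ (κ → ℤ))
    (h : ∀ z, ∃ t : ℤ, ∃ l ∈ L, t • a + l = z) : ∃ l ∈ L, ∃ w, (a + l) ⬝ᵥ w = 1 := by
  have key : ∀ a : κ → ℤ, a i ≠ 0 → (∀ z, ∃ t : ℤ, ∃ l ∈ L, t • a + l = z) →
      ∃ l ∈ L, ∃ w, (a + l) ⬝ᵥ w = 1 := by
    intro a ha h
    obtain ⟨s, l, hl, e1⟩ := h (Pi.single i 1)
    obtain ⟨t, l', hl', e2⟩ := h (Pi.single j 1)
    have f1 := congrFun e1 i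
    have f2 := congrFun e1 j
    have f3 := congrFun e2 i
    have f4 := congrFun e2 j
    simp only [Pi.add_apply, Pi.smul_apply, smul_eq_mul, Pi.single_eq_same,
      Pi.single_eq_of_ne hij, Pi.single_eq_of_ne hij.symm] at f1 f2 f3 f4
    obtain ⟨n, x, y, hxy⟩ := sr_int (q := a j) (J := 1 - s * a i - t * a j) ha ⟨s, t, 1, by ring⟩
    refine ⟨n • ((1 - s * a i) • l' + (t * a i) • l),
      L.smul_mem _ (L.add_mem (L.smul_mem _ hl') (L.smul_mem _ hl)),
      Pi.single i x + Pi.single j y, ?_⟩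
    rw [dotProduct_add, dotProduct_single, dotProduct_single]
    simp only [Pi.add_apply, Pi.smul_apply, smul_eq_mul]
    have g1 : l i = 1 - s * a i := by linarith
    have g2 : l j = - s * a j := by linarith
    have g3 : l' i = - t * a i := by linarith
    have g4 : l' j = 1 - t * a j := by linarith
    rw [g1, g2, g3, g4]
    linear_combination hxy
  by_cases ha : a i = 0
  · obtain ⟨s, l, hl, e1⟩ := h (Pi.single i 1)
    have f1 := congrFun e1 i
    simp only [Pi.add_apply, Pi.smul_apply, smul_eq_mul, Pi.single_eq_same, ha] at f1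
    obtain ⟨l', hl', w, hw⟩ := key (a + l) (by simp only [Pi.add_apply, ha]; omega) (by
      intro z
      obtain ⟨t, m, hm, e⟩ := h z
      refine ⟨t, m - t • l, L.sub_mem hm (L.smul_mem _ hl), ?_⟩
      rw [← e, smul_add]; abel)
    exact ⟨l + l', L.add_mem hl hl', w, by rwa [← add_assoc]⟩
  · exact key a ha h

theorem sr_mat {i j : κ} (hij : i ≠ j) (a : κ → ℤ) (B : Matrix ρ κ ℤ)
    (h : ∀ z, ∃ (t : ℤ) (x : ρ → ℤ), t • a + x ᵥ* B = z) :
    ∃ x w, (a + x ᵥ* B) ⬝ᵥ w = 1 := by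
  obtain ⟨_, ⟨x, rfl⟩, w, hw⟩ := sr_sub hij a (LinearMap.range B.vecMulLinear) fun z => by
    obtain ⟨t, x, e⟩ := h z
    exact ⟨t, _, ⟨x, rfl⟩, e⟩
  exact ⟨x, w, hw⟩

theorem sr_scalar {i j : κ} (hij : i ≠ j) (p u : κ → ℤ) (D v : ℤ) (h : p ⬝ᵥ u + v * D = 1) :
    ∃ t w : κ → ℤ, (p + D • t) ⬝ᵥ w = 1 := by
  have key : ∀ p u : κ → ℤ, ∀ v, p i ≠ 0 → p ⬝ᵥ u + v * D = 1 →
      ∃ t w : κ → ℤ, (p + D • t) ⬝ᵥ w = 1 := by
    intro p u v hp h
    let q := p ⬝ᵥ u - p j * u j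
    have hg : (Int.gcd (p i) q : ℤ) ≠ 0 := by
      simp only [ne_eq, Int.natCast_eq_zero, Int.gcd_eq_zero_iff, not_and]
      exact fun h => absurd h hp
    obtain ⟨q', hq'⟩ : (Int.gcd (p i) q : ℤ) ∣ q := Int.gcd_dvd_right _ _
    obtain ⟨n, x, y, hxy⟩ := sr_int (q := p j) (J := D) hg ⟨q', u j, v, by
      rw [mul_comm q', ← hq']; simp only [q]; linear_combination h⟩
    have hb := Int.gcd_eq_gcd_ab (p i) q
    refine ⟨Pi.single j n, Pi.single i (x * Int.gcdA (p i) q) + Pi.single j y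
      + (x * Int.gcdB (p i) q) • (u - Pi.single j (u j)), ?_⟩
    simp only [dotProduct_add, add_dotProduct, dotProduct_smul, smul_dotProduct, dotProduct_sub,
      dotProduct_single, single_dotProduct, Pi.add_apply, Pi.smul_apply, Pi.sub_apply,
      smul_eq_mul, Pi.single_eq_same, Pi.single_eq_of_ne hij, Pi.single_eq_of_ne hij.symm]
    simp only [q] at hb hxy ⊢
    linear_combination hxy - x * hb
  by_cases hp : p i = 0
  · by_cases hD : D = 0
    · exact ⟨0, u, by simpa [hD] using h⟩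
    · obtain ⟨t, w, hw⟩ := key (p + D • Pi.single i 1) u (v - u i) (by simpa [hp] using hD) (by
        simp only [add_dotProduct, smul_dotProduct, single_dotProduct, smul_eq_mul]
        linear_combination h)
      exact ⟨Pi.single i 1 + t, w, by rwa [smul_add, ← add_assoc]⟩
  · exact key p u v hp h

theorem complete_row (s w : κ → ℤ) (h : s ⬝ᵥ w = 1) (i₀ : κ) :
    ∃ P P' : Matrix κ κ ℤ, P * P' = 1 ∧ P' * P = 1 ∧ P i₀ = s := by
  let φ : (κ → ℤ) →ₗ[ℤ] ℤ := dotProductBilin ℤ ℤ w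
  have hφ : ∀ x, φ x = w ⬝ᵥ x := fun _ => rfl
  have hs : φ s = 1 := by rw [hφ, dotProduct_comm, h]
  obtain ⟨n, b⟩ := Submodule.basisOfPid (Pi.basisFun ℤ κ) (LinearMap.ker φ)
  let B : Module.Basis (Fin (n + 1)) ℤ (κ → ℤ) := Module.Basis.mkFinCons s b (by
      intro c x hx hcx
      have := congrArg φ hcx
      rw [map_add, map_smul, hs, LinearMap.mem_ker.1 hx, map_zero] at this
      simpa using this) (by
      intro z
      refine ⟨-φ z, ?_⟩
      rw [LinearMap.mem_ker, map_add, map_smul, hs]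
      simp)
  have hB : B 0 = s := by simp [B]
  let e0 : Fin (n + 1) ≃ κ := B.indexEquiv (Pi.basisFun ℤ κ)
  let e : Fin (n + 1) ≃ κ := e0.trans (Equiv.swap (e0 0) i₀)
  let B' := B.reindex e
  have hB' : B' i₀ = s := by
    have : e.symm i₀ = 0 := by
      rw [Equiv.symm_apply_eq]; simp [e]
    rw [Module.Basis.reindex_apply, this, hB]
  refine ⟨((Pi.basisFun ℤ κ).toMatrix B')ᵀ, (B'.toMatrix (Pi.basisFun ℤ κ))ᵀ, ?_, ?_, ?_⟩
  · rw [← transpose_mul, Module.Basis.toMatrix_mul_toMatrix_flip, transpose_one]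
  · rw [← transpose_mul, Module.Basis.toMatrix_mul_toMatrix_flip, transpose_one]
  · ext j
    simp [Module.Basis.toMatrix_apply, hB']

theorem common_complement_fin (k : ℕ) : ∀ (a : Matrix (Fin (k + 1)) (Fin (k + 1)) ℤ)
    (L : Submodule ℤ (Fin (k + 1) → ℤ)), (∀ z, ∃ t, ∃ l ∈ L, t ᵥ* a + l = z) →
    (∃ l₀ ∈ L, ∃ w, l₀ ⬝ᵥ w = 1) →
    ∃ l : Matrix (Fin (k + 1)) (Fin (k + 1)) ℤ, (∀ i, l i ∈ L) ∧ ∀ z, ∃ t, t ᵥ* (a + l) = z := by
  induction k with
  | zero =>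
    rintro a L - ⟨l₀, hl₀, w, hw⟩
    have hw' : l₀ 0 * w 0 = 1 := by simpa [dotProduct] using hw
    refine ⟨fun _ => ((1 - a 0 0) * w 0) • l₀, fun _ => L.smul_mem _ hl₀, fun z => ⟨z, ?_⟩⟩
    ext j
    fin_cases j
    simp only [vecMul, dotProduct, Matrix.add_apply, Fin.sum_univ_succ, Fin.sum_univ_zero,
      Pi.smul_apply, smul_eq_mul, Fin.zero_eta]
    linear_combination z 0 * (1 - a 0 0) * hw'
  | succ k ih =>
    rintro a L hgen ⟨l₀, hl₀, w, hw⟩
    obtain ⟨P, P', -, hP', hP⟩ := complete_row l₀ w hw 1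
    obtain ⟨-, hPP⟩ : True ∧ P * P' = 1 := ⟨trivial, mul_eq_one_comm.1 hP'⟩
    -- the functional
    let φ : (Fin (k + 2) → ℤ) →ₗ[ℤ] ℤ := (LinearMap.proj 0).comp P'.vecMulLinear
    have hφ : ∀ x, φ x = (x ᵥ* P') 0 := fun _ => rfl
    have hrow : ∀ i, P i ᵥ* P' = Pi.single i 1 := by
      intro i
      have := congrFun hPP i
      rw [show (P * P') i = P i ᵥ* P' from rfl] at this
      rw [this]; ext j; simp [one_apply, Pi.single_apply, eq_comm]
    obtain ⟨u, m, hm, hum⟩ := hgen (P 0)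
    have hφvm : ∀ (t : Fin (k + 2) → ℤ) (A : Matrix (Fin (k + 2)) (Fin (k + 2)) ℤ),
        φ (t ᵥ* A) = (fun i => φ (A i)) ⬝ᵥ t := by
      intro t A
      rw [vecMul_eq_sum, map_sum]
      simp only [map_smul, dotProduct, smul_eq_mul, mul_comm]
    have h1 : (fun i => φ (a i)) ⬝ᵥ u + 1 * φ m = 1 := by
      rw [one_mul, ← hφvm, ← map_add, hum, hφ, hrow]; simp
    obtain ⟨t, s, hs⟩ := sr_scalar (i := 0) (j := 1) Fin.zero_ne_one _ u _ 1 h1
    let l₁ : Matrix (Fin (k + 2)) (Fin (k + 2)) ℤ := fun i => t i • m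
    have hs' : φ (s ᵥ* (a + l₁)) = 1 := by
      rw [hφvm, ← hs]
      congr 1
      funext i
      have : (a + l₁) i = a i + t i • m := rfl
      rw [this, map_add, map_smul]
      simp [mul_comm]
    obtain ⟨Q, Q', hQ1, hQ2, hQ⟩ := complete_row s (fun i => φ ((a + l₁) i))
      (by rw [dotProduct_comm, ← hφvm, hs']) 0
    let a₂ := Q * (a + l₁)
    have ha₂ : φ (a₂ 0) = 1 := by
      rw [show a₂ 0 = Q 0 ᵥ* (a + l₁) from rfl, hQ, hs']
    let τ : (Fin (k + 2) → ℤ) →ₗ[ℤ] (Fin (k + 1) → ℤ) :=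
      (LinearMap.funLeft ℤ ℤ Fin.succ).comp (P'.vecMulLinear.comp
        (LinearMap.id - φ.smulRight (a₂ 0)))
    have hτ : ∀ x j, τ x j = ((x - φ x • a₂ 0) ᵥ* P') j.succ := fun _ _ => rfl
    have hker : ∀ x, τ x = 0 → x = φ x • a₂ 0 := by
      intro x hx
      have h0 : (x - φ x • a₂ 0) ᵥ* P' = 0 := by
        ext j
        refine Fin.cases ?_ (fun j => ?_) j
        · rw [← hφ, map_sub, map_smul, ha₂]; simp
        · rw [← hτ, hx]; rfl
      have := congrArg (· ᵥ* P) h0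
      simp only [vecMul_vecMul, hP', vecMul_one, zero_vecMul] at this
      exact sub_eq_zero.1 this
    have hτ0 : τ (a₂ 0) = 0 := by
      ext j; rw [hτ, ha₂]; simp
    have hτP : ∀ z : Fin (k + 1) → ℤ, τ (Fin.cons 0 z ᵥ* P) = z := by
      intro z
      have e1 : (Fin.cons 0 z ᵥ* P) ᵥ* P' = Fin.cons 0 z := by
        rw [vecMul_vecMul, hPP, vecMul_one]
      have e2 : φ (Fin.cons 0 z ᵥ* P) = 0 := by rw [hφ, e1]; rfl
      ext j
      rw [hτ, e2, zero_smul, sub_zero, e1]; rfl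
    have hτvm : ∀ (t : Fin (k + 2) → ℤ) (A : Matrix (Fin (k + 2)) (Fin (k + 2)) ℤ), τ (A 0) = 0 →
        τ (t ᵥ* A) = (fun i => t i.succ) ᵥ* (Matrix.of fun i : Fin (k + 1) => τ (A i.succ)) := by
      intro t A hA
      rw [vecMul_eq_sum, map_sum, Fin.sum_univ_succ, vecMul_eq_sum]
      simp only [map_smul]
      rw [hA, smul_zero, zero_add]
      rfl
    have hl₁ : ∀ x : Fin (k + 2) → ℤ, x ᵥ* l₁ ∈ L := by
      intro x
      rw [vecMul_eq_sum]
      exact L.sum_mem fun i _ => L.smul_mem _ (L.smul_mem _ hm)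
    obtain ⟨l', hl', hgen'⟩ := ih (Matrix.of fun i : Fin (k + 1) => τ (a₂ i.succ)) (L.map τ) (by
        intro z
        obtain ⟨x, l, hl, e⟩ := hgen (Fin.cons 0 z ᵥ* P)
        refine ⟨fun i => (x ᵥ* Q') i.succ, τ (l - x ᵥ* l₁),
          Submodule.mem_map_of_mem (L.sub_mem hl (hl₁ x)), ?_⟩
        rw [← hτvm _ _ hτ0, ← map_add, vecMul_vecMul, ← Matrix.mul_assoc, hQ2, Matrix.one_mul,
          vecMul_add]
        conv_rhs => rw [← hτP z, ← e]
        congr 1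
        abel)
      ⟨τ l₀, Submodule.mem_map_of_mem hl₀, Pi.single 0 1, by
        have e2 : φ l₀ = 0 := by rw [hφ, ← hP, hrow]; simp
        rw [dotProduct_single, mul_one, hτ, e2, zero_smul, sub_zero, ← hP, hrow]
        simp⟩
    choose lam hlam hlam' using fun i => Submodule.mem_map.1 (hl' i)
    let l₂ : Matrix (Fin (k + 2)) (Fin (k + 2)) ℤ := Fin.cons 0 lam
    have hl₂ : ∀ i, l₂ i ∈ L := fun i => Fin.cases L.zero_mem hlam i
    refine ⟨l₁ + Q' * l₂, fun i => L.add_mem (L.smul_mem _ hm) ?_, fun z => ?_⟩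
    · rw [show (Q' * l₂) i = Q' i ᵥ* l₂ from rfl, vecMul_eq_sum]
      exact L.sum_mem fun j _ => L.smul_mem _ (hl₂ j)
    · obtain ⟨x, hx⟩ := hgen' (τ z)
      have e0 : (a₂ + l₂) 0 = a₂ 0 := by
        rw [show (a₂ + l₂) 0 = a₂ 0 + 0 from rfl, add_zero]
      have e1 : τ (Fin.cons 0 x ᵥ* (a₂ + l₂)) = τ z := by
        rw [hτvm _ _ (by rw [e0, hτ0]), ← hx]
        congr 1
        ext i j
        rw [Matrix.of_apply, show (a₂ + l₂) i.succ = a₂ i.succ + lam i from rfl, map_add, hlam']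
        rfl
      have e2 := hker (z - Fin.cons 0 x ᵥ* (a₂ + l₂)) (by rw [map_sub, e1, sub_self])
      refine ⟨(Fin.cons 0 x + Pi.single 0 (φ (z - Fin.cons 0 x ᵥ* (a₂ + l₂)))) ᵥ* Q, ?_⟩
      have e3 : Q * (a + (l₁ + Q' * l₂)) = a₂ + l₂ := by
        rw [← add_assoc, Matrix.mul_add, ← Matrix.mul_assoc, hQ1, Matrix.one_mul]
      rw [vecMul_vecMul, e3, add_vecMul, single_vecMul]
      rw [show (a₂ + l₂).row 0 = a₂ 0 from e0, ← e2]
      abel

theorem common_complement (b d : Matrix κ κ ℤ)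
    (hgen : ∀ z, ∃ t x, t ᵥ* b + x ᵥ* d = z) (hprim : ∃ x w, (x ᵥ* d) ⬝ᵥ w = 1) :
    ∃ X E : Matrix κ κ ℤ, E * (b + X * d) = 1 := by
  obtain ⟨x₀, w, hw⟩ := hprim
  rcases isEmpty_or_nonempty κ with hκ | hκ
  · exact ⟨0, 0, Subsingleton.elim _ _⟩
  obtain ⟨k, hk⟩ : ∃ k, Fintype.card κ = k + 1 :=
    Nat.exists_eq_succ_of_ne_zero Fintype.card_ne_zero
  let e : κ ≃ Fin (k + 1) := Fintype.equivFinOfCardEq hk
  have hsub : ∀ (A : Matrix κ κ ℤ) (t : κ → ℤ),
      (t ∘ e.symm) ᵥ* A.submatrix e.symm e.symm = (t ᵥ* A) ∘ e.symm := by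
    intro A t
    rw [submatrix_vecMul_equiv]
    congr 2
    ext i; simp
  obtain ⟨l, hl, hgen'⟩ := common_complement_fin k (b.submatrix e.symm e.symm)
    (LinearMap.range (d.submatrix e.symm e.symm).vecMulLinear) (by
      intro z
      obtain ⟨t, x, h⟩ := hgen (z ∘ e)
      refine ⟨t ∘ e.symm, _, ⟨x ∘ e.symm, rfl⟩, ?_⟩
      rw [vecMulLinear_apply, hsub, hsub, ← Pi.add_comp, h]
      ext i; simp)
    ⟨_, ⟨x₀ ∘ e.symm, rfl⟩, w ∘ e.symm, by
      rw [vecMulLinear_apply, hsub, comp_equiv_dotProduct_comp_equiv, hw]⟩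
  choose X hX using hl
  choose E hE using fun i => hgen' (Pi.single i 1)
  have h1 : (Matrix.of E) * (b.submatrix e.symm e.symm + Matrix.of X * d.submatrix e.symm e.symm)
      = 1 := by
    have : Matrix.of X * d.submatrix e.symm e.symm = l := by
      ext i j
      exact congrFun (hX i) j
    rw [this]
    ext i j
    have := congrFun (hE i) j
    rw [show (Matrix.of E * (b.submatrix e.symm e.symm + l)) i j
      = (E i ᵥ* (b.submatrix e.symm e.symm + l)) j from rfl, this]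
    simp [one_apply, Pi.single_apply, eq_comm]
  refine ⟨(Matrix.of X).submatrix e e, (Matrix.of E).submatrix e e, ?_⟩
  have := congrArg (fun A => A.submatrix e e) h1
  simp only [submatrix_one_equiv] at this
  rw [← this, ← submatrix_mul_equiv _ _ _ e, submatrix_add, Pi.add_apply, Pi.add_apply,
    ← submatrix_mul_equiv _ _ _ e]
  simp

end Pool.Agent.Lib.MP_755cca_al
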