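import Mathlib

/-! Bounded generation: every element of `SL(2, ℤ)` is a product of 31 transvections of
`SL(3, ℤ)` (after Carter-Keller and Nica). -/

open Matrix
open scoped Pointwise

namespace Pool.Agent.Lib.MP_755cca_al

/-- transvections -/
def Tv (ι : Type) [Fintype ι] [DecidableEq ι] : Set (Matrix ι ι ℤ) :=
  {A | ∃ y z : ι → ℤ, z ⬝ᵥ y = 0 ∧ A = 1 + vecMulVec y z}

section general

variable {ι : Type} [Fintype ι] [DecidableEq ι]

theorem one_mem_Tv : (1 : Matrix ι ι ℤ) ∈ Tv ι := ⟨0, 0, by simp, by simp⟩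

theorem W_mul {m n : ℕ} {g h : Matrix ι ι ℤ} (hg : g ∈ Tv ι ^ m) (hh : h ∈ Tv ι ^ n) :
    g * h ∈ Tv ι ^ (m + n) := by
  rw [pow_add]; exact Set.mul_mem_mul hg hh

theorem W_left {n : ℕ} {g h : Matrix ι ι ℤ} (hg : g ∈ Tv ι) (hh : h ∈ Tv ι ^ n) :
    g * h ∈ Tv ι ^ (n + 1) := by
  rw [pow_succ']; exact Set.mul_mem_mul hg hh

theorem W_right {n : ℕ} {g h : Matrix ι ι ℤ} (hg : g ∈ Tv ι ^ n) (hh : h ∈ Tv ι) :
    g * h ∈ Tv ι ^ (n + 1) := by
  rw [pow_succ]; exact Set.mul_mem_mul hg hh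

theorem W_one (n : ℕ) : (1 : Matrix ι ι ℤ) ∈ Tv ι ^ n := Set.one_mem_pow one_mem_Tv

theorem Tv_conj {P P' g : Matrix ι ι ℤ} (h1 : P * P' = 1) (h2 : P' * P = 1) (hg : g ∈ Tv ι) :
    P * g * P' ∈ Tv ι := by
  obtain ⟨y, z, hz, rfl⟩ := hg
  refine ⟨P *ᵥ y, z ᵥ* P', ?_, ?_⟩
  · rw [dotProduct_mulVec, vecMul_vecMul, h2, vecMul_one, hz]
  · rw [Matrix.mul_add, Matrix.add_mul, Matrix.mul_one, h1, mul_vecMulVec, vecMulVec_mul]

theorem W_conj {P P' : Matrix ι ι ℤ} (h1 : P * P' = 1) (h2 : P' * P = 1) {n : ℕ} :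
    ∀ {g : Matrix ι ι ℤ}, g ∈ Tv ι ^ n → P * g * P' ∈ Tv ι ^ n := by
  induction n with
  | zero =>
    intro g hg
    rw [pow_zero, Set.mem_one] at hg ⊢
    rw [hg, Matrix.mul_one, h1]
  | succ n ih =>
    intro g hg
    rw [pow_succ] at hg
    obtain ⟨a, ha, b, hb, rfl⟩ := hg
    have : P * (a * b) * P' = (P * a * P') * (P * b * P') := by
      calc P * (a * b) * P' = P * a * (P' * P) * b * P' := by rw [h2]; noncomm_ring
        _ = _ := by noncomm_ring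
    show P * (a * b) * P' ∈ _
    rw [this]
    exact W_right (ih ha) (Tv_conj h1 h2 hb)

theorem Tv_inv {g : Matrix ι ι ℤ} (hg : g ∈ Tv ι) : ∃ g' ∈ Tv ι, g' * g = 1 := by
  obtain ⟨y, z, hz, rfl⟩ := hg
  refine ⟨1 + vecMulVec (-y) z, ⟨-y, z, by simp [hz], rfl⟩, ?_⟩
  simp [Matrix.mul_add, Matrix.add_mul, vecMulVec_mul_vecMulVec, hz]

theorem W_inv {n : ℕ} : ∀ {g : Matrix ι ι ℤ}, g ∈ Tv ι ^ n → ∃ g' ∈ Tv ι ^ n, g' * g = 1 := by
  induction n with
  | zero =>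
    intro g hg
    rw [pow_zero, Set.mem_one] at hg
    exact ⟨1, W_one _, by simp [hg]⟩
  | succ n ih =>
    intro g hg
    rw [pow_succ] at hg
    obtain ⟨a, ha, b, hb, rfl⟩ := hg
    obtain ⟨a', h1, h2⟩ := ih ha
    obtain ⟨b', h3, h4⟩ := Tv_inv hb
    refine ⟨b' * a', W_left h3 h1, ?_⟩
    calc b' * a' * (a * b) = b' * (a' * a) * b := by noncomm_ring
      _ = 1 := by rw [h2, Matrix.mul_one, h4]

theorem conj_pow' {P X : Matrix ι ι ℤ} (h : P * P = 1) (m : ℕ) :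
    (P * X * P) ^ m = P * X ^ m * P := by
  induction m with
  | zero => simp [h]
  | succ m ih =>
    rw [pow_succ, ih, pow_succ]
    calc P * X ^ m * P * (P * X * P) = P * X ^ m * (P * P) * X * P := by noncomm_ring
      _ = _ := by rw [h]; noncomm_ring

end general

/-- block matrices of type `1 + 2` -/
def emb (η a b c d : ℤ) : Matrix (Fin 3) (Fin 3) ℤ := !![η, 0, 0; 0, a, b; 0, c, d]

theorem tv3 (y0 y1 y2 z0 z1 z2 : ℤ) (h : z0 * y0 + z1 * y1 + z2 * y2 = 0) :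
    !![1 + y0 * z0, y0 * z1, y0 * z2; y1 * z0, 1 + y1 * z1, y1 * z2;
      y2 * z0, y2 * z1, 1 + y2 * z2] ∈ Tv (Fin 3) := by
  refine ⟨![y0, y1, y2], ![z0, z1, z2], by simpa [dotProduct, Fin.sum_univ_three] using h, ?_⟩
  ext i j
  fin_cases i <;> fin_cases j <;> simp [vecMulVec_apply]

theorem up_mem (t : ℤ) : emb 1 1 t 0 1 ∈ Tv (Fin 3) := by
  simpa [emb] using tv3 0 1 0 0 0 t (by simp)

theorem low_mem (t : ℤ) : emb 1 1 0 t 1 ∈ Tv (Fin 3) := by
  simpa [emb] using tv3 0 0 1 0 t 0 (by simp)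

theorem emb_mul (η a b c d η' a' b' c' d' : ℤ) : emb η a b c d * emb η' a' b' c' d'
    = emb (η * η') (a * a' + b * c') (a * b' + b * d') (c * a' + d * c') (c * b' + d * d') := by
  simp [emb, Matrix.mul_fin_three]

theorem mat3_ext {a b c d e f g h i a' b' c' d' e' f' g' h' i' : ℤ} (h1 : a = a') (h2 : b = b')
    (h3 : c = c') (h4 : d = d') (h5 : e = e') (h6 : f = f') (h7 : g = g') (h8 : h = h')
    (h9 : i = i') :
    !![a, b, c; d, e, f; g, h, i] = !![a', b', c'; d', e', f'; g', h', i'] := by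
  subst_vars; rfl

theorem swindle {η ε a b c d s k : ℤ} (hη : η = 1 ∨ η = -1) (hε : ε = 1 ∨ ε = -1)
    (ha : a = ε + s * k) {n : ℕ}
    (h : emb ε (η * ε * a) (η * ε * s * b) c d ∈ Tv (Fin 3) ^ n) :
    emb η a b (s * c) d ∈ Tv (Fin 3) ^ (n + 4) := by
  have hP : !![0, 1, 0; 1, 0, 0; 0, 0, -η] * !![0, 1, 0; 1, 0, 0; 0, 0, -η]
      = (1 : Matrix (Fin 3) (Fin 3) ℤ) := by
    rcases hη with rfl | rfl <;> simp [Matrix.mul_fin_three, one_fin_three]
  have h1 := W_left (tv3 0 k c 1 0 0 (by simp)) (W_left (tv3 1 0 0 0 (ε * s) 0 (by simp))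
    (W_right (W_right (W_conj hP hP h) (tv3 0 1 0 (-(ε * k * η)) 0 (ε * b) (by simp)))
      (tv3 1 0 0 0 (-(η * s)) 0 (by simp))))
  refine (congrArg (· ∈ Tv (Fin 3) ^ (n + 4)) ?_).mp h1
  subst ha
  rcases hη with rfl | rfl <;> rcases hε with rfl | rfl <;>
    simp only [emb, Matrix.mul_fin_three] <;> refine mat3_ext ?_ ?_ ?_ ?_ ?_ ?_ ?_ ?_ ?_ <;> ring

theorem neg_mem : emb 1 (-1) 0 0 (-1) ∈ Tv (Fin 3) ^ 3 := by
  have h1 := W_right (W_right (W_right (W_one 0) (up_mem 2)) (low_mem (-2)))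
    (tv3 0 1 1 0 (-2) 2 (by simp))
  refine (congrArg (· ∈ Tv (Fin 3) ^ 3) ?_).mp h1
  simp [emb, Matrix.mul_fin_three]

theorem diag_mem {η κ : ℤ} (hη : η = 1 ∨ η = -1) (hκ : κ = 1 ∨ κ = -1) :
    emb η κ 0 0 (η * κ) ∈ Tv (Fin 3) ^ 3 := by
  rcases hη with rfl | rfl <;> rcases hκ with rfl | rfl
  · have : emb 1 1 0 0 (1 * 1) = 1 := by simp [emb, one_fin_three]
    rw [this]; exact W_one _
  · simpa using neg_mem
  · have hP : !![0, 1, 0; 1, 0, 0; 0, 0, 1] * !![0, 1, 0; 1, 0, 0; 0, 0, 1]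
        = (1 : Matrix (Fin 3) (Fin 3) ℤ) := by simp [Matrix.mul_fin_three, one_fin_three]
    refine (congrArg (· ∈ Tv (Fin 3) ^ 3) ?_).mp (W_conj hP hP neg_mem)
    simp [emb, Matrix.mul_fin_three]
  · have hP : !![0, 0, 1; 0, 1, 0; 1, 0, 0] * !![0, 0, 1; 0, 1, 0; 1, 0, 0]
        = (1 : Matrix (Fin 3) (Fin 3) ℤ) := by simp [Matrix.mul_fin_three, one_fin_three]
    refine (congrArg (· ∈ Tv (Fin 3) ^ 3) ?_).mp (W_conj hP hP neg_mem)
    simp [emb, Matrix.mul_fin_three]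

theorem final_mem {η κ α β c d t : ℤ} (hη : η = 1 ∨ η = -1) (hκ : κ = 1 ∨ κ = -1)
    (hα : α = κ + t * c) (hdet : η * (α * d - β * c) = 1) :
    emb η α β c d ∈ Tv (Fin 3) ^ 6 := by
  have h1 := W_left (up_mem t) (W_left (low_mem (κ * c))
    (W_right (diag_mem hη hκ) (up_mem (κ * (β - t * d)))))
  refine (congrArg (· ∈ Tv (Fin 3) ^ 6) ?_).mp h1
  subst hα
  simp only [emb_mul]
  rcases hη with rfl | rfl <;> rcases hκ with rfl | rfl <;> congr 1 <;>
    first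
    | ring1
    | linear_combination hdet
    | linear_combination -hdet
    | linear_combination t * hdet
    | linear_combination -t * hdet

theorem emb_pow {a b c d : ℤ} (h : a * d - b * c = 1) (m : ℕ) : ∃ e f : ℤ,
    emb 1 a b c d ^ m = emb 1 (e + f * a) (f * b) (f * c) (e + f * d) ∧
      c ∣ e + f * a - a ^ m ∧ e ^ 2 + e * f * (a + d) + f ^ 2 = 1 := by
  induction m with
  | zero => exact ⟨1, 0, by simp [emb, one_fin_three], by simp, by simp⟩
  | succ m ih =>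
    obtain ⟨e, f, h1, ⟨x, h2⟩, h3⟩ := ih
    refine ⟨-f, e + f * (a + d), ?_, ⟨a * x + f * b, ?_⟩, by linear_combination h3⟩
    · rw [pow_succ, h1, emb_mul]
      congr 1 <;> first | ring1 | linear_combination -f * h
    · linear_combination a * h2 + f * h

theorem pow_mem_c {a b c d κ : ℤ} (h : a * d - b * c = 1) {m : ℕ} (hκ : κ = 1 ∨ κ = -1)
    (hc : c ∣ a ^ m - κ) : emb 1 a b c d ^ m ∈ Tv (Fin 3) ^ 14 := by
  obtain ⟨e, f, h1, ⟨x, h2⟩, h3⟩ := emb_pow h m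
  obtain ⟨y, hy⟩ := hc
  have hdet : (e + f * a) * (e + f * d) - f * b * (f * c) = 1 := by
    linear_combination h3 + f ^ 2 * h
  have hf : f ∣ (e + f * a - 1) * (e + f * a + 1) :=
    ⟨(e + f * a) * (a - d) + b * (f * c), by linear_combination hdet⟩
  obtain ⟨s₁, s₂, ⟨k₁, hk₁⟩, ⟨k₂, hk₂⟩, hs⟩ := exists_dvd_and_dvd_of_dvd_mul hf
  rw [h1]
  have e1 : f * c = s₁ * (s₂ * c) := by rw [hs]; ring
  rw [e1]
  refine swindle (n := 10) (ε := 1) (k := k₁) (Or.inl rfl) (Or.inl rfl)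
    (by linear_combination hk₁) ?_
  refine swindle (n := 6) (ε := -1) (k := k₂) (Or.inl rfl) (Or.inr rfl)
    (by linear_combination hk₂) ?_
  refine final_mem (κ := -κ) (t := -(x + y)) (Or.inr rfl)
    (by rcases hκ with rfl | rfl <;> simp) (by linear_combination -h2 - hy) ?_
  linear_combination hdet + f * b * c * hs

theorem pow_mem_b {a b c d κ : ℤ} (h : a * d - b * c = 1) {m : ℕ} (hκ : κ = 1 ∨ κ = -1)
    (hb : b ∣ d ^ m - κ) : emb 1 a b c d ^ m ∈ Tv (Fin 3) ^ 14 := by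
  have hP : !![1, 0, 0; 0, 0, 1; 0, 1, 0] * !![1, 0, 0; 0, 0, 1; 0, 1, 0]
      = (1 : Matrix (Fin 3) (Fin 3) ℤ) := by simp [Matrix.mul_fin_three, one_fin_three]
  have e : emb 1 a b c d = !![1, 0, 0; 0, 0, 1; 0, 1, 0] * emb 1 d c b a *
      !![1, 0, 0; 0, 0, 1; 0, 1, 0] := by simp [emb, Matrix.mul_fin_three]
  rw [e, conj_pow' hP]
  exact W_conj hP hP (pow_mem_c (by linear_combination h) hκ hb)

theorem primes_mem {a d : ℤ} {p q : ℕ} (hp : p.Prime) (hq : q.Prime) (hq2 : 2 < q)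
    (h : a * d - p * q = 1) (hcop : (p / 2).Coprime (q - 1)) :
    emb 1 a p q d ∈ Tv (Fin 3) ^ 28 := by
  have := Fact.mk hp
  obtain ⟨i, -, hi⟩ := Nat.exists_mul_mod_eq_one_of_coprime hcop (by omega)
  have hij : p / 2 * i = (q - 1) * (p / 2 * i / (q - 1)) + 1 := by
    have := Nat.div_add_mod (p / 2 * i) (q - 1)
    rw [hi] at this
    exact this.symm
  set j := p / 2 * i / (q - 1)
  have hd : ((d : ℤ) : ZMod p) ≠ 0 := by
    intro h0
    have := congrArg (Int.cast : ℤ → ZMod p) h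
    simp [h0] at this
  obtain ⟨κ, hκ, hκd⟩ : ∃ κ : ℤ, (κ = 1 ∨ κ = -1) ∧ (p : ℤ) ∣ d ^ (p / 2 * i) - κ := by
    rcases ZMod.pow_div_two_eq_neg_one_or_one p hd with h1 | h1
    · refine ⟨1, Or.inl rfl, (ZMod.intCast_zmod_eq_zero_iff_dvd _ _).1 ?_⟩
      push_cast
      rw [pow_mul, h1]; simp
    · refine ⟨(-1) ^ i, neg_one_pow_eq_or ℤ i, (ZMod.intCast_zmod_eq_zero_iff_dvd _ _).1 ?_⟩
      push_cast
      rw [pow_mul, h1]; simp
  have h1 := pow_mem_b h hκ hκd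
  have hqa : (q : ℤ) ∣ a ^ ((q - 1) * j) - 1 := by
    have := Fact.mk hq
    have ha : ((a : ℤ) : ZMod q) ≠ 0 := by
      intro h0
      have := congrArg (Int.cast : ℤ → ZMod q) h
      simp [h0] at this
    refine (ZMod.intCast_zmod_eq_zero_iff_dvd _ _).1 ?_
    push_cast
    rw [pow_mul, ZMod.pow_card_sub_one_eq_one ha]; simp
  obtain ⟨g', h2, h3⟩ := W_inv (pow_mem_c h (Or.inl rfl) hqa)
  have h4 := W_mul h2 h1
  rwa [hij, pow_succ (emb 1 a p q d), ← Matrix.mul_assoc, h3, Matrix.one_mul] at h4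

theorem odd_mem {a b c d : ℤ} (h : a * d - b * c = 1) (ha : Odd a) :
    emb 1 a b c d ∈ Tv (Fin 3) ^ 30 := by
  classical
  have ha0 : a ≠ 0 := by rintro rfl; simp at ha
  obtain ⟨a', ha'⟩ := ha
  have c1 : IsCoprime (b + a ^ 2 * (3 - b)) ((4 * a.natAbs : ℕ) : ℤ) := by
    push_cast
    refine IsCoprime.mul_right ?_ (IsCoprime.abs_right ?_)
    · exact ⟨-1, 1 + (a' ^ 2 + a') * (3 - b), by rw [ha']; ring⟩
    · exact ⟨-c, d + c * a * (3 - b), by linear_combination h⟩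
  obtain ⟨p, -, hp, hpm⟩ := Nat.forall_exists_prime_gt_and_zmodEq 0
    (q := 4 * a.natAbs) (by simpa using ha0) c1
  have hp4 : (4 : ℤ) ∣ (b + a ^ 2 * (3 - b)) - p :=
    (Dvd.intro _ (by push_cast; rfl)).trans hpm.dvd
  have hpa : a ∣ (b + a ^ 2 * (3 - b)) - p :=
    (Int.natAbs_dvd.1 (Dvd.intro_left 4 (by push_cast; rfl))).trans hpm.dvd
  obtain ⟨t₁, ht₁⟩ : ∃ t₁, (p : ℤ) = b + a * t₁ := by
    obtain ⟨x, hx⟩ := hpa
    exact ⟨a * (3 - b) - x, by linear_combination -hx⟩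
  have hp3 : p % 4 = 3 := by
    obtain ⟨x, hx⟩ := hp4
    have : (p : ℤ) = 3 + 4 * ((a' ^ 2 + a') * (3 - b) - x) := by
      rw [ha'] at hx; linear_combination -hx
    omega
  let m' : ℕ := ∏ r ∈ (p / 2).primeFactors.filter (fun r : ℕ => ¬ (r : ℤ) ∣ a), r
  have hm'0 : m' ≠ 0 := Finset.prod_ne_zero_iff.2 fun r hr =>
    (Nat.prime_of_mem_primeFactors (Finset.mem_filter.1 hr).1).ne_zero
  have hm'a : IsCoprime (m' : ℤ) a := by
    simp only [m']
    push_cast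
    refine IsCoprime.prod_left fun r hr => ?_
    rw [Finset.mem_filter] at hr
    exact (Nat.prime_iff_prime_int.1 (Nat.prime_of_mem_primeFactors hr.1)).irreducible
      |>.coprime_iff_not_dvd.2 hr.2
  obtain ⟨u, v, huv⟩ := hm'a
  have c2 : IsCoprime (c * u * m' - v * a) ((a.natAbs * m' : ℕ) : ℤ) := by
    push_cast
    refine IsCoprime.mul_right (IsCoprime.abs_right ?_) ?_
    · exact ⟨-b, d - b * v * (c + 1), by linear_combination h - b * c * huv⟩
    · exact ⟨-1, u * (c + 1), by linear_combination huv⟩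
  obtain ⟨q, hq2, hq, hqm⟩ := Nat.forall_exists_prime_gt_and_zmodEq 2
    (q := a.natAbs * m') (mul_ne_zero (by simpa using ha0) hm'0) c2
  have hqa : a ∣ (c * u * m' - v * a) - q :=
    (Int.natAbs_dvd.1 (Dvd.intro m' (by push_cast; rfl))).trans hqm.dvd
  have hqm' : (m' : ℤ) ∣ (c * u * m' - v * a) - q :=
    (Dvd.intro_left (a.natAbs : ℤ) (by push_cast; rfl)).trans hqm.dvd
  obtain ⟨t₂, ht₂⟩ : ∃ t₂, (q : ℤ) = c + a * t₂ := by
    obtain ⟨x, hx⟩ := hqa
    exact ⟨-v * (c + 1) - x, by linear_combination -hx + c * huv⟩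
  have hq1 : (m' : ℤ) ∣ q + 1 := by
    obtain ⟨x, hx⟩ := hqm'
    exact ⟨u * (c + 1) - x, by linear_combination -hx - huv⟩
  have hcop : (p / 2).Coprime (q - 1) := by
    refine Nat.coprime_of_dvd fun r hr h1 h2 => ?_
    have h1' : (r : ℤ) ∣ p - 1 := by
      obtain ⟨x, hx⟩ := h1
      exact ⟨2 * x, by
        have : p = 2 * (r * x) + 1 := by omega
        rw [this]; push_cast; ring⟩
    have h2' : (r : ℤ) ∣ q - 1 := by
      have := Int.natCast_dvd_natCast.2 h2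
      rwa [Nat.cast_sub hq.one_le] at this
    have h3 : (r : ℤ) ∣ 2 := by
      by_cases hra : (r : ℤ) ∣ a
      · obtain ⟨x, hx⟩ := h1'
        obtain ⟨y, hy⟩ := h2'
        obtain ⟨z, hz⟩ := hra
        have hb : b = 1 + r * (x - z * t₁) := by rw [ht₁, hz] at hx; linear_combination hx
        have hc : c = 1 + r * (y - z * t₂) := by rw [ht₂, hz] at hy; linear_combination hy
        refine ⟨z * d - (x - z * t₁) - (y - z * t₂) - r * (x - z * t₁) * (y - z * t₂), ?_⟩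
        rw [hb, hc, hz] at h
        linear_combination -h
      · have : r ∣ m' := Finset.dvd_prod_of_mem (fun r : ℕ => r) (Finset.mem_filter.2
          ⟨Nat.mem_primeFactors.2 ⟨hr, h1, by omega⟩, hra⟩)
        have h4 := (Int.natCast_dvd_natCast.2 this).trans hq1
        have := dvd_sub h4 h2'
        simpa using this
    have h4 : r = 2 := (Nat.prime_dvd_prime_iff_eq hr Nat.prime_two).1 (by exact_mod_cast h3)
    subst h4
    omega
  have h5 := primes_mem (a := a) (d := d + c * t₁ + p * t₂) hp hq hq2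
    (by rw [ht₂, ht₁]; linear_combination h) hcop
  have h6 := W_left (low_mem (-t₂)) (W_right h5 (up_mem (-t₁)))
  refine (congrArg (· ∈ Tv (Fin 3) ^ 30) ?_).mp h6
  simp only [emb_mul, ht₁, ht₂]
  congr 1 <;> ring

theorem bounded_generation {a b c d : ℤ} (h : a * d - b * c = 1) :
    emb 1 a b c d ∈ Tv (Fin 3) ^ 31 := by
  rcases Int.even_or_odd a with ha | ha
  · have hc : Odd c := by
      rcases Int.even_or_odd c with hc | hc
      · have : Even (a * d - b * c) := (ha.mul_right _).sub (hc.mul_left _)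
        rw [h] at this
        exact absurd this (by decide)
      · exact hc
    have h1 := W_left (up_mem (-1)) (odd_mem (a := a + c) (b := b + d) (c := c) (d := d)
      (by linear_combination h) (ha.add_odd hc))
    refine (congrArg (· ∈ Tv (Fin 3) ^ 31) ?_).mp h1
    simp only [emb_mul]
    congr 1 <;> ring
  · simpa using W_left one_mem_Tv (odd_mem h ha)

end Pool.Agent.Lib.MP_755cca_al
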