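import Mathlib

/-! Unitriangular monoids, the relation `g ∈ U V g' U V`, and block reduction. -/

open Matrix

namespace Pool.Agent.Lib.MP_755cca_al

variable {ι κ : Type} [Fintype ι] [DecidableEq ι] [Fintype κ] [DecidableEq κ]

/-- the monoid generated by the elementary matrices at the positions allowed by `r` -/
def Um (r : ι → ι → Prop) : Submonoid (Matrix ι ι ℤ) :=
  Submonoid.closure {A | ∃ i j c, i ≠ j ∧ r i j ∧ A = transvection i j c}

theorem Um.inv {r : ι → ι → Prop} {u : Matrix ι ι ℤ} (hu : u ∈ Um r) :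
    ∃ w ∈ Um r, u * w = 1 ∧ w * u = 1 := by
  induction hu using Submonoid.closure_induction with
  | mem A hA =>
    obtain ⟨i, j, c, hij, hr, rfl⟩ := hA
    refine ⟨transvection i j (-c), Submonoid.subset_closure ⟨i, j, -c, hij, hr, rfl⟩, ?_, ?_⟩ <;>
      simp [transvection_mul_transvection_same _ _ hij]
  | one => exact ⟨1, one_mem _, by simp, by simp⟩
  | mul A B _ _ hA hB =>
    obtain ⟨A', h1, h2, h3⟩ := hA
    obtain ⟨B', h4, h5, h6⟩ := hB
    refine ⟨B' * A', mul_mem h4 h1, ?_, ?_⟩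
    · calc A * B * (B' * A') = A * (B * B') * A' := by noncomm_ring
        _ = 1 := by rw [h5, mul_one, h2]
    · calc B' * A' * (A * B) = B' * (A' * A) * B := by noncomm_ring
        _ = 1 := by rw [h3, mul_one, h6]

theorem Um.det {r : ι → ι → Prop} {u : Matrix ι ι ℤ} (hu : u ∈ Um r) : u.det = 1 := by
  induction hu using Submonoid.closure_induction with
  | mem A hA =>
    obtain ⟨i, j, c, hij, -, rfl⟩ := hA
    exact det_transvection_of_ne i j hij c
  | one => exact det_one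
  | mul A B _ _ hA hB => rw [det_mul, hA, hB, one_mul]

theorem Um.map {M : Type*} [Monoid M] {r : ι → ι → Prop} (φ : Matrix ι ι ℤ →* M)
    (N : Submonoid M) (h : ∀ i j c, i ≠ j → r i j → φ (transvection i j c) ∈ N)
    {u : Matrix ι ι ℤ} (hu : u ∈ Um r) : φ u ∈ N := by
  induction hu using Submonoid.closure_induction with
  | mem A hA =>
    obtain ⟨i, j, c, hij, hr, rfl⟩ := hA
    exact h i j c hij hr
  | one => rw [map_one]; exact one_mem _
  | mul A B _ _ hA hB => rw [map_mul]; exact mul_mem hA hB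

/-- the upper left corner -/
def inlHom (ι κ : Type) [Fintype ι] [DecidableEq ι] [Fintype κ] [DecidableEq κ] :
    Matrix ι ι ℤ →* Matrix (ι ⊕ κ) (ι ⊕ κ) ℤ where
  toFun A := fromBlocks A 0 0 1
  map_one' := fromBlocks_one
  map_mul' A B := by simp [fromBlocks_multiply]

/-- the lower right corner -/
def inrHom (ι κ : Type) [Fintype ι] [DecidableEq ι] [Fintype κ] [DecidableEq κ] :
    Matrix κ κ ℤ →* Matrix (ι ⊕ κ) (ι ⊕ κ) ℤ where
  toFun A := fromBlocks 1 0 0 A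
  map_one' := fromBlocks_one
  map_mul' A B := by simp [fromBlocks_multiply]

theorem Um.diag {r : ι → ι → Prop} {s : κ → κ → Prop} {R : ι ⊕ κ → ι ⊕ κ → Prop}
    (h1 : ∀ i j, r i j → R (.inl i) (.inl j)) (h2 : ∀ i j, s i j → R (.inr i) (.inr j))
    {u : Matrix ι ι ℤ} (hu : u ∈ Um r) {u' : Matrix κ κ ℤ} (hu' : u' ∈ Um s) :
    fromBlocks u 0 0 u' ∈ Um R := by
  have e : fromBlocks u 0 0 u' = inlHom ι κ u * inrHom ι κ u' := by
    simp [inlHom, inrHom, fromBlocks_multiply]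
  rw [e]
  refine mul_mem (Um.map _ _ (fun i j c hij hr => ?_) hu) (Um.map _ _ (fun i j c hij hr => ?_) hu')
  · refine Submonoid.subset_closure ⟨.inl i, .inl j, c, by simpa using hij, h1 i j hr, ?_⟩
    ext (a | a) (b | b) <;> simp [inlHom, transvection, one_apply, single_apply]
  · refine Submonoid.subset_closure ⟨.inr i, .inr j, c, by simpa using hij, h2 i j hr, ?_⟩
    ext (a | a) (b | b) <;> simp [inrHom, transvection, one_apply, single_apply]

theorem Um.upper {R : ι ⊕ κ → ι ⊕ κ → Prop} (h : ∀ i j, R (.inl i) (.inr j))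
    (X : Matrix ι κ ℤ) : fromBlocks 1 X 0 1 ∈ Um R := by
  induction X using Matrix.induction_on' with
  | h_zero => rw [fromBlocks_one]; exact one_mem _
  | h_add X Y hX hY =>
    have : fromBlocks (1 : Matrix ι ι ℤ) (X + Y) 0 (1 : Matrix κ κ ℤ)
        = fromBlocks 1 X 0 1 * fromBlocks 1 Y 0 1 := by
      simp [fromBlocks_multiply, add_comm]
    rw [this]; exact mul_mem hX hY
  | h_std_basis i j c =>
    refine Submonoid.subset_closure ⟨.inl i, .inr j, c, by simp, h i j, ?_⟩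
    ext (a | a) (b | b) <;> simp [transvection, one_apply, single_apply]

theorem Um.lower {R : ι ⊕ κ → ι ⊕ κ → Prop} (h : ∀ i j, R (.inr j) (.inl i))
    (Y : Matrix κ ι ℤ) : fromBlocks 1 0 Y 1 ∈ Um R := by
  induction Y using Matrix.induction_on' with
  | h_zero => rw [fromBlocks_one]; exact one_mem _
  | h_add X Y hX hY =>
    have : fromBlocks (1 : Matrix ι ι ℤ) 0 (X + Y) (1 : Matrix κ κ ℤ)
        = fromBlocks 1 0 X 1 * fromBlocks 1 0 Y 1 := by
      simp [fromBlocks_multiply]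
    rw [this]; exact mul_mem hX hY
  | h_std_basis i j c =>
    refine Submonoid.subset_closure ⟨.inr i, .inl j, c, by simp, h j i, ?_⟩
    ext (a | a) (b | b) <;> simp [transvection, one_apply, single_apply]

/-- `g ∈ U V g' U V` -/
def Leads (r : ι → ι → Prop) (g g' : Matrix ι ι ℤ) : Prop :=
  ∃ u₁ ∈ Um r, ∃ v₁ ∈ Um (flip r), ∃ u₂ ∈ Um r, ∃ v₂ ∈ Um (flip r),
    g = u₁ * v₁ * g' * u₂ * v₂

theorem Leads.refl (r : ι → ι → Prop) (g : Matrix ι ι ℤ) : Leads r g g :=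
  ⟨1, one_mem _, 1, one_mem _, 1, one_mem _, 1, one_mem _, by simp⟩

theorem Leads.det {r : ι → ι → Prop} {g g' : Matrix ι ι ℤ} (h : Leads r g g') :
    g.det = g'.det := by
  obtain ⟨u₁, h1, v₁, h2, u₂, h3, v₂, h4, rfl⟩ := h
  simp [det_mul, Um.det h1, Um.det h2, Um.det h3, Um.det h4]

theorem Um.reindex {r : ι → ι → Prop} {s : κ → κ → Prop} (e : ι ≃ κ)
    (h : ∀ i j, r i j → s (e i) (e j)) {u : Matrix ι ι ℤ} (hu : u ∈ Um r) :
    reindex e e u ∈ Um s := by
  refine Um.map (reindexAlgEquiv ℤ ℤ e).toMulEquiv.toMonoidHom _ (fun i j c hij hr => ?_) hu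
  refine Submonoid.subset_closure ⟨e i, e j, c, by simpa using hij, h i j hr, ?_⟩
  ext a b
  simp [transvection, one_apply, single_apply, Equiv.eq_symm_apply]

theorem reindex_mul (e : ι ≃ κ) (A B : Matrix ι ι ℤ) :
    reindex e e (A * B) = reindex e e A * reindex e e B :=
  (reindexAlgEquiv ℤ ℤ e).map_mul A B

theorem Leads.reindex {r : ι → ι → Prop} {s : κ → κ → Prop} (e : ι ≃ κ)
    (h : ∀ i j, r i j → s (e i) (e j)) {g g' : Matrix ι ι ℤ} (hg : Leads r g g') :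
    Leads s (Matrix.reindex e e g) (Matrix.reindex e e g') := by
  obtain ⟨u₁, h1, v₁, h2, u₂, h3, v₂, h4, rfl⟩ := hg
  exact ⟨_, Um.reindex e h h1, _, Um.reindex e (fun i j a => h j i a) h2, _, Um.reindex e h h3,
    _, Um.reindex e (fun i j a => h j i a) h4, by simp only [reindex_mul]⟩

theorem schur_identity (a : Matrix ι ι ℤ) (b : Matrix ι κ ℤ) (c : Matrix κ ι ℤ)
    (d : Matrix κ κ ℤ) (X : Matrix ι κ ℤ) (Y : Matrix κ ι ℤ) (T Ti : Matrix ι ι ℤ)
    (hT : T = a + X * c + (b + X * d) * Y) (h1 : T * Ti = 1) (h2 : Ti * T = 1) :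
    fromBlocks a b c d = fromBlocks 1 (-X) 0 1 * fromBlocks 1 0 ((c + d * Y) * Ti) 1 *
      fromBlocks T 0 0 (d - (c + d * Y) * Ti * (b + X * d)) *
      fromBlocks 1 (Ti * (b + X * d)) 0 1 * fromBlocks 1 0 (-Y) 1 := by
  have e1 : fromBlocks 1 0 ((c + d * Y) * Ti) 1 *
      fromBlocks T 0 0 (d - (c + d * Y) * Ti * (b + X * d)) *
      fromBlocks 1 (Ti * (b + X * d)) 0 1 = fromBlocks T (b + X * d) (c + d * Y) d := by
    simp only [fromBlocks_multiply, Matrix.one_mul, Matrix.mul_one, Matrix.zero_mul,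
      Matrix.mul_zero, add_zero, zero_add]
    rw [← Matrix.mul_assoc T, h1, Matrix.one_mul, Matrix.mul_assoc _ Ti T, h2, Matrix.mul_one,
      ← Matrix.mul_assoc]
    congr 1
    abel
  calc fromBlocks a b c d = fromBlocks 1 (-X) 0 1 * fromBlocks T (b + X * d) (c + d * Y) d *
        fromBlocks 1 0 (-Y) 1 := by
        simp only [fromBlocks_multiply, Matrix.one_mul, Matrix.mul_one, Matrix.zero_mul,
          Matrix.mul_zero, add_zero, zero_add, hT, Matrix.neg_mul, Matrix.mul_neg, Matrix.mul_add,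
          Matrix.add_mul, Matrix.mul_assoc]
        congr 1 <;> abel
    _ = _ := by rw [← e1]; simp only [Matrix.mul_assoc]

theorem schur_det (a : Matrix ι ι ℤ) (b : Matrix ι κ ℤ) (c : Matrix κ ι ℤ)
    (d : Matrix κ κ ℤ) (X : Matrix ι κ ℤ) (Y : Matrix κ ι ℤ) (T Ti : Matrix ι ι ℤ)
    (hT : T = a + X * c + (b + X * d) * Y) (h1 : T * Ti = 1) (h2 : Ti * T = 1) :
    (fromBlocks a b c d).det = T.det * (d - (c + d * Y) * Ti * (b + X * d)).det := by
  rw [schur_identity a b c d X Y T Ti hT h1 h2]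
  simp [det_mul, det_fromBlocks_zero₂₁, det_fromBlocks_zero₁₂]

theorem schur_leads {r : ι → ι → Prop} {s : κ → κ → Prop}
    (a : Matrix ι ι ℤ) (b : Matrix ι κ ℤ) (c : Matrix κ ι ℤ)
    (d : Matrix κ κ ℤ) (X : Matrix ι κ ℤ) (Y : Matrix κ ι ℤ) (T Ti : Matrix ι ι ℤ)
    (hT : T = a + X * c + (b + X * d) * Y) (h1 : T * Ti = 1) (h2 : Ti * T = 1)
    {T' : Matrix ι ι ℤ} {S' : Matrix κ κ ℤ} (hT' : Leads r T T')
    (hS' : Leads s (d - (c + d * Y) * Ti * (b + X * d)) S') :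
    Leads (Sum.Lex r s) (fromBlocks a b c d) (fromBlocks T' 0 0 S') := by
  rw [schur_identity a b c d X Y T Ti hT h1 h2]
  generalize (d - (c + d * Y) * Ti * (b + X * d)) = S at hS' ⊢
  generalize (c + d * Y) * Ti = C
  generalize Ti * (b + X * d) = B
  obtain ⟨u₁, a1, v₁, a2, u₂, a3, v₂, a4, rfl⟩ := hT'
  obtain ⟨u₁', b1, v₁', b2, u₂', b3, v₂', b4, rfl⟩ := hS'
  obtain ⟨w, -, hw, -⟩ := Um.inv b1
  obtain ⟨w', -, -, hw'⟩ := Um.inv b4
  have l1 : ∀ i j, r i j → Sum.Lex r s (.inl i) (.inl j) := fun _ _ h => Sum.Lex.inl h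
  have l2 : ∀ i j, s i j → Sum.Lex r s (.inr i) (.inr j) := fun _ _ h => Sum.Lex.inr h
  have l3 : ∀ i j, Sum.Lex r s (.inl i) (.inr j) := fun _ _ => Sum.Lex.sep _ _
  refine ⟨fromBlocks 1 (-X) 0 1 * fromBlocks u₁ 0 0 u₁',
    mul_mem (Um.upper l3 _) (Um.diag l1 l2 a1 b1),
    fromBlocks 1 0 (w * C * u₁) 1 * fromBlocks v₁ 0 0 v₁',
    mul_mem (Um.lower l3 _) (Um.diag (fun i j h => l1 j i h) (fun i j h => l2 j i h) a2 b2),
    fromBlocks u₂ 0 0 u₂' * fromBlocks 1 (v₂ * B * w') 0 1,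
    mul_mem (Um.diag l1 l2 a3 b3) (Um.upper l3 _),
    fromBlocks v₂ 0 0 v₂' * fromBlocks 1 0 (-Y) 1,
    mul_mem (Um.diag (fun i j h => l1 j i h) (fun i j h => l2 j i h) a4 b4) (Um.lower l3 _), ?_⟩
  have e1 : fromBlocks 1 0 C 1 * fromBlocks u₁ 0 0 u₁'
      = fromBlocks u₁ 0 0 u₁' * fromBlocks 1 0 (w * C * u₁) 1 := by
    simp only [fromBlocks_multiply, Matrix.one_mul, Matrix.mul_one, Matrix.zero_mul,
      Matrix.mul_zero, add_zero, zero_add]
    rw [← Matrix.mul_assoc, ← Matrix.mul_assoc, hw, Matrix.one_mul]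
  have e2 : fromBlocks v₂ 0 0 v₂' * fromBlocks 1 B 0 1
      = fromBlocks 1 (v₂ * B * w') 0 1 * fromBlocks v₂ 0 0 v₂' := by
    simp only [fromBlocks_multiply, Matrix.one_mul, Matrix.mul_one, Matrix.zero_mul,
      Matrix.mul_zero, add_zero, zero_add]
    rw [Matrix.mul_assoc _ w', hw', Matrix.mul_one]
  have e3 : fromBlocks (u₁ * v₁ * T' * u₂ * v₂) 0 0 (u₁' * v₁' * S' * u₂' * v₂')
      = fromBlocks u₁ 0 0 u₁' * fromBlocks v₁ 0 0 v₁' * fromBlocks T' 0 0 S' *
        fromBlocks u₂ 0 0 u₂' * fromBlocks v₂ 0 0 v₂' := by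
    simp only [fromBlocks_multiply, Matrix.zero_mul, Matrix.mul_zero, add_zero, zero_add]
  rw [e3]
  calc _ = fromBlocks 1 (-X) 0 1 * (fromBlocks 1 0 C 1 * fromBlocks u₁ 0 0 u₁') *
        fromBlocks v₁ 0 0 v₁' * fromBlocks T' 0 0 S' * fromBlocks u₂ 0 0 u₂' *
        (fromBlocks v₂ 0 0 v₂' * fromBlocks 1 B 0 1) * fromBlocks 1 0 (-Y) 1 := by
        simp only [Matrix.mul_assoc]
    _ = _ := by rw [e1, e2]; simp only [Matrix.mul_assoc]

end Pool.Agent.Lib.MP_755cca_al
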