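import Pool.Agent.Lib.MP_755cca_al.TypeA

/-! Chains of Lagrangians: the arithmetic input for the symplectic groups. -/

open Matrix

namespace Pool.Agent.Lib.MP_755cca_al

theorem prime_square {α γ : ℤ} (h : IsCoprime α γ) :
    ∃ x₁ x₂ x e : ℤ, e * e = 1 ∧ x₁ * (α + x₂ * γ) - γ * x ^ 2 = e := by
  by_cases hγ : γ = 0
  · subst hγ
    rw [isCoprime_zero_right, Int.isUnit_iff] at h
    exact ⟨1, 0, 0, α, by rcases h with rfl | rfl <;> simp, by simp⟩
  obtain ⟨σ, ρ, hσ, ⟨k, hk⟩, hρ⟩ : ∃ σ ρ : ℤ, σ * σ = 1 ∧ γ ∣ ρ - σ * α ∧ ρ % 4 = 3 := by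
    rcases Int.even_or_odd γ with he | ⟨g, hg⟩
    · have hα : α % 2 = 1 := by
        by_contra h2
        have : (2 : ℤ) ∣ α := by omega
        have := h.isUnit_of_dvd' this he.two_dvd
        rw [Int.isUnit_iff] at this
        omega
      by_cases h4 : α % 4 = 3
      · exact ⟨1, α, by simp, by simp, h4⟩
      · exact ⟨-1, -α, by simp, by simp, by omega⟩
    · refine ⟨1, α + γ ^ 2 * (3 - α), by simp, ⟨γ * (3 - α), by ring⟩, ?_⟩
      have : α + γ ^ 2 * (3 - α) = 3 + 4 * ((g ^ 2 + g) * (3 - α)) := by rw [hg]; ring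
      omega
  obtain ⟨u, v, huv⟩ := h
  have c1 : IsCoprime ρ ((4 * γ.natAbs : ℕ) : ℤ) := by
    push_cast
    refine IsCoprime.mul_right ?_ (IsCoprime.abs_right ?_)
    · exact ⟨-1, ρ / 4 + 1, by omega⟩
    · exact ⟨σ * u, v - σ * u * k, by linear_combination huv + σ * u * hk + u * α * hσ⟩
  obtain ⟨p, -, hp, hpm⟩ := Nat.forall_exists_prime_gt_and_zmodEq 0
    (q := 4 * γ.natAbs) (by simpa using hγ) c1
  have hp4 : (4 : ℤ) ∣ ρ - p := (Dvd.intro _ (by push_cast; rfl)).trans hpm.dvd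
  obtain ⟨m, hm⟩ : γ ∣ ρ - p :=
    (Int.natAbs_dvd.1 (Dvd.intro_left 4 (by push_cast; rfl))).trans hpm.dvd
  have hp3 : p % 4 = 3 := by omega
  have hαp : α + σ * (k - m) * γ = σ * p := by
    linear_combination σ * hm - σ * hk - α * hσ
  have := Fact.mk hp
  have hγp : (γ : ZMod p) ≠ 0 := by
    intro h0
    have e1 := congrArg (Int.cast : ℤ → ZMod p) hαp
    have e2 := congrArg (Int.cast : ℤ → ZMod p) huv
    push_cast at e1 e2
    rw [h0] at e1 e2
    simp only [mul_zero, add_zero, CharP.cast_eq_zero] at e1 e2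
    rw [e1] at e2
    simp at e2
  obtain ⟨τ, hτ, s, hs⟩ : ∃ τ : ℤ, τ * τ = 1 ∧ IsSquare ((τ : ZMod p) * γ) := by
    rcases ZMod.pow_div_two_eq_neg_one_or_one p hγp with h1 | h1
    · exact ⟨1, by simp, by simpa using (ZMod.euler_criterion p hγp).2 h1⟩
    · refine ⟨-1, by simp, ?_⟩
      have : (-(γ : ZMod p)) ^ (p / 2) = 1 := by
        rw [neg_pow, h1, Odd.neg_one_pow (Nat.odd_iff.2 (by omega))]; simp
      simpa using (ZMod.euler_criterion p (neg_ne_zero.2 hγp)).2 this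
  have hτ' : (τ : ZMod p) * τ = 1 := by exact_mod_cast congrArg (Int.cast : ℤ → ZMod p) hτ
  have hs0 : s ≠ 0 := by
    rintro rfl
    apply hγp
    linear_combination (τ : ZMod p) * hs - (γ : ZMod p) * hτ'
  obtain ⟨x, hx⟩ := ZMod.intCast_surjective s⁻¹
  obtain ⟨n, hn⟩ : (p : ℤ) ∣ γ * x ^ 2 - τ := by
    refine (ZMod.intCast_zmod_eq_zero_iff_dvd _ _).1 ?_
    push_cast
    rw [hx]
    have : (γ : ZMod p) = τ * (s * s) := by
      linear_combination (τ : ZMod p) * hs - (γ : ZMod p) * hτ'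
    rw [this]
    field_simp
    ring
  refine ⟨σ * n, σ * (k - m), x, -τ, by simpa using hτ, ?_⟩
  rw [hαp]
  linear_combination -hn + n * p * hσ

variable {μ : Type} [Fintype μ] [DecidableEq μ]

/-- bottom row of a symplectic matrix -/
def Hyp (c d : Matrix μ μ ℤ) : Prop :=
  c * dᵀ = d * cᵀ ∧ ∀ z, ∃ x y, c *ᵥ x + d *ᵥ y = z

/-- cyclic cokernel after a symmetric column operation -/
def Good (n : μ) (c d : Matrix μ μ ℤ) : Prop :=
  ∃ (Y P Q : Matrix μ μ ℤ) (γ : ℤ), Yᵀ = Y ∧ IsUnit P.det ∧ IsUnit Q.det ∧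
    P * (c + d * Y) * Q = diagonal fun i => if i = n then γ else 1

theorem Hyp.move {c d Y P Q : Matrix μ μ ℤ} (h : Hyp c d) (hY : Yᵀ = Y) (hP : IsUnit P.det)
    (hQ : IsUnit Q.det) : Hyp (P * (c + d * Y) * Q) (P * d * Q⁻¹ᵀ) := by
  have e1 : Q * Q⁻¹ = 1 := mul_nonsing_inv _ hQ
  have e2 : Q⁻¹ᵀ * Qᵀ = 1 := by rw [← transpose_mul, e1, transpose_one]
  constructor
  · simp only [transpose_mul, transpose_transpose, transpose_add, hY]
    calc P * (c + d * Y) * Q * (Q⁻¹ * (dᵀ * Pᵀ))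
        = P * (c + d * Y) * (Q * Q⁻¹) * (dᵀ * Pᵀ) := by noncomm_ring
      _ = P * (c * dᵀ + d * Y * dᵀ) * Pᵀ := by rw [e1]; noncomm_ring
      _ = P * d * (Q⁻¹ᵀ * Qᵀ) * ((cᵀ + Y * dᵀ) * Pᵀ) := by rw [e2, h.1]; noncomm_ring
      _ = _ := by noncomm_ring
  · intro z
    obtain ⟨x, y, hxy⟩ := h.2 (P⁻¹ *ᵥ z)
    refine ⟨Q⁻¹ *ᵥ x, Qᵀ *ᵥ (y - Y *ᵥ x), ?_⟩
    rw [mulVec_mulVec, mulVec_mulVec, Matrix.mul_assoc _ Q, e1, Matrix.mul_one,
      Matrix.mul_assoc _ _ Qᵀ, e2, Matrix.mul_one, ← mulVec_mulVec, ← mulVec_mulVec,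
      ← mulVec_add, add_mulVec, mulVec_sub, mulVec_mulVec]
    have : c *ᵥ x + (d * Y) *ᵥ x + (d *ᵥ y - (d * Y) *ᵥ x) = P⁻¹ *ᵥ z := by rw [← hxy]; abel
    rw [this, mulVec_mulVec, mul_nonsing_inv _ hP, one_mulVec]

theorem Good.move {n : μ} {c d Y P Q : Matrix μ μ ℤ} (hY : Yᵀ = Y) (hP : IsUnit P.det)
    (hQ : IsUnit Q.det) (h : Good n (P * (c + d * Y) * Q) (P * d * Q⁻¹ᵀ)) : Good n c d := by
  obtain ⟨Y', P', Q', γ, h1, h2, h3, h4⟩ := h
  refine ⟨Y + Q⁻¹ᵀ * Y' * Q⁻¹, P' * P, Q * Q', γ, ?_, by rw [det_mul]; exact h2.mul hP,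
    by rw [det_mul]; exact hQ.mul h3, ?_⟩
  · simp only [transpose_add, transpose_mul, transpose_transpose, hY, h1, Matrix.mul_assoc]
  · rw [← h4]
    calc P' * P * (c + d * (Y + Q⁻¹ᵀ * Y' * Q⁻¹)) * (Q * Q')
        = P' * (P * (c + d * Y) * Q + P * d * Q⁻¹ᵀ * Y' * (Q⁻¹ * Q)) * Q' := by noncomm_ring
      _ = _ := by rw [nonsing_inv_mul _ hQ, Matrix.mul_one]

theorem good_step (n : μ) (ih : ∀ c d : Matrix μ μ ℤ, Hyp c d → Good n c d)
    (c d : Matrix (Unit ⊕ μ) (Unit ⊕ μ) ℤ) (h : Hyp c d) : Good (.inr n) c d := by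
  let o : Unit ⊕ μ := .inl ()
  obtain ⟨x, w₀, hw₀⟩ := sr_mat (i := o) (j := .inr n) (by simp [o]) (cᵀ o)
    (fromRows (cᵀ.submatrix Sum.inr id) dᵀ) fun z => by
      obtain ⟨x, y, hxy⟩ := h.2 z
      refine ⟨x o, Sum.elim (x ∘ Sum.inr) y, ?_⟩
      rw [← hxy, sumElim_vecMul_fromRows, vecMul_transpose]
      ext i
      simp [mulVec, vecMul, dotProduct, o, mul_comm, add_assoc]
  let w : Unit ⊕ μ → ℤ := Sum.elim (fun _ => 1) (x ∘ Sum.inl)
  let y : Unit ⊕ μ → ℤ := x ∘ Sum.inr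
  let e₀ : Unit ⊕ μ → ℤ := Pi.single o 1
  have hv : cᵀ o + x ᵥ* fromRows (cᵀ.submatrix Sum.inr id) dᵀ = c *ᵥ w + d *ᵥ y := by
    rw [vecMul_fromRows, vecMul_transpose]
    ext i
    simp [mulVec, vecMul, dotProduct, o, w, y, mul_comm, add_assoc]
  rw [hv] at hw₀
  let Y := vecMulVec y e₀ + vecMulVec e₀ y - (y ⬝ᵥ w) • vecMulVec e₀ e₀
  have hY : Yᵀ = Y := by
    simp only [Y, transpose_sub, transpose_add, transpose_smul, transpose_vecMulVec]
    abel
  have hYw : Y *ᵥ w = y := by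
    have : e₀ ⬝ᵥ w = 1 := by simp [e₀, w, o]
    simp only [Y, sub_mulVec, add_mulVec, smul_mulVec, vecMulVec_mulVec, this]
    simp
  obtain ⟨P₀, P₀', hP1, hP2, hP3⟩ := complete_row _ _ hw₀ o
  have hPv : P₀'ᵀ *ᵥ (c *ᵥ w + d *ᵥ y) = e₀ := by
    rw [mulVec_transpose, ← hP3, show P₀ o ᵥ* P₀' = (P₀ * P₀') o from rfl, hP1]
    ext j; simp [e₀, one_apply, Pi.single_apply, eq_comm]
  have hPu : IsUnit (P₀'ᵀ).det := by
    rw [det_transpose]; exact isUnit_det_of_left_inverse hP1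
  let Q₁ : Matrix (Unit ⊕ μ) (Unit ⊕ μ) ℤ := fromBlocks 1 0 (colM (x ∘ Sum.inl)) 1
  have hQ₁ : Q₁ *ᵥ e₀ = w := by
    ext (i | i) <;> simp [Q₁, e₀, o, w, colM]
  obtain ⟨a₁, r, c₁, c₀, hc⟩ := exists_blk (P₀'ᵀ * (c + d * Y) * Q₁)
  have hcol : blk a₁ r c₁ c₀ *ᵥ e₀ = e₀ := by
    rw [← hc, ← mulVec_mulVec, hQ₁, ← mulVec_mulVec, add_mulVec, ← mulVec_mulVec, hYw, hPv]
  have ha₁ : a₁ = 1 := by simpa [blk, e₀, o] using congrFun hcol o
  have hc₁ : c₁ = 0 := by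
    ext i
    simpa [blk, e₀, o, colM] using congrFun hcol (.inr i)
  let Q₂ : Matrix (Unit ⊕ μ) (Unit ⊕ μ) ℤ := fromBlocks 1 (-rowM r) 0 1
  have hQ : IsUnit (Q₁ * Q₂).det := by
    simp [Q₁, Q₂, det_mul, det_fromBlocks_zero₂₁, det_fromBlocks_zero₁₂]
  have hc' : P₀'ᵀ * (c + d * Y) * (Q₁ * Q₂) = fromBlocks 1 0 0 c₀ := by
    rw [← Matrix.mul_assoc, hc, ha₁, hc₁]
    have e1 : (of fun _ _ => (1 : ℤ) : Matrix Unit Unit ℤ) = 1 := by ext; simp
    have e2 : colM (0 : μ → ℤ) = 0 := rfl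
    simp [blk, Q₂, fromBlocks_multiply, e1, e2]
  have h' := h.move hY hPu hQ
  refine Good.move hY hPu hQ ?_
  rw [hc'] at h' ⊢
  generalize P₀'ᵀ * d * (Q₁ * Q₂)⁻¹ᵀ = d' at h' ⊢
  rw [← fromBlocks_toBlocks d'] at h' ⊢
  generalize d'.toBlocks₁₁ = d₁ at h' ⊢
  generalize d'.toBlocks₁₂ = d₂ at h' ⊢
  generalize d'.toBlocks₂₁ = d₃ at h' ⊢
  generalize d'.toBlocks₂₂ = d₀ at h' ⊢
  obtain ⟨h1, h2⟩ := h'
  simp only [fromBlocks_transpose, fromBlocks_multiply, Matrix.one_mul, Matrix.zero_mul,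
    Matrix.mul_one, Matrix.mul_zero, add_zero, zero_add, transpose_one, transpose_zero,
    fromBlocks_inj] at h1
  obtain ⟨Y', P', Q', γ, k1, k2, k3, k4⟩ := ih c₀ d₀ ⟨h1.2.2.2, fun z => by
    obtain ⟨x, y, hxy⟩ := h2 (Sum.elim 0 z)
    rw [fromBlocks_mulVec, fromBlocks_mulVec] at hxy
    refine ⟨x ∘ Sum.inr + d₂ᵀ *ᵥ (y ∘ Sum.inl), y ∘ Sum.inr, ?_⟩
    rw [mulVec_add, mulVec_mulVec, h1.2.2.1]
    ext j
    have := congrFun hxy (.inr j)
    simp only [Pi.add_apply, Sum.elim_inr, zero_mulVec, Pi.zero_apply, zero_add] at this ⊢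
    linear_combination this⟩
  refine ⟨fromBlocks 0 0 0 Y', fromBlocks 1 0 0 P', fromBlocks 1 (-(d₂ * Y' * Q')) 0 Q', γ,
    by simp [fromBlocks_transpose, k1], by simpa [det_fromBlocks_zero₂₁] using k2,
    by simpa [det_fromBlocks_zero₂₁] using k3, ?_⟩
  simp only [fromBlocks_multiply, fromBlocks_add, Matrix.one_mul, Matrix.zero_mul,
    Matrix.mul_one, Matrix.mul_zero, add_zero, zero_add, neg_add_cancel, k4]
  ext (i | i) (j | j) <;> simp [diagonal_apply]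

theorem good_fin (k : ℕ) : ∀ c d : Matrix (Fin (k + 1)) (Fin (k + 1)) ℤ, Hyp c d →
    Good (Fin.last k) c d := by
  induction k with
  | zero =>
    intro c d _
    refine ⟨0, 1, 1, c 0 0, by simp, by simp, by simp, ?_⟩
    ext i j
    fin_cases i; fin_cases j; simp
  | succ k ih =>
    intro c d h
    let e := stepE (k + 1)
    obtain ⟨Y, P, Q, γ, k1, k2, k3, k4⟩ := good_step (Fin.last k) ih (c.submatrix e e)
      (d.submatrix e e) ⟨by
        simp only [transpose_submatrix, submatrix_mul_equiv, h.1], fun z => by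
        obtain ⟨x, y, hxy⟩ := h.2 (z ∘ e.symm)
        refine ⟨x ∘ e, y ∘ e, ?_⟩
        rw [submatrix_mulVec_equiv, submatrix_mulVec_equiv, ← Pi.add_comp]
        simp only [Function.comp_assoc, Equiv.self_comp_symm, Function.comp_id, hxy,
          Equiv.symm_comp_self]⟩
    refine ⟨Y.submatrix e.symm e.symm, P.submatrix e.symm e.symm, Q.submatrix e.symm e.symm, γ,
      by rw [transpose_submatrix, k1], by rwa [det_submatrix_equiv_self],
      by rwa [det_submatrix_equiv_self], ?_⟩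
    have := congrArg (fun A => A.submatrix e.symm e.symm) k4
    simp only [← submatrix_mul_equiv _ _ _ e.symm, submatrix_add, Pi.add_apply,
      submatrix_submatrix, Equiv.self_comp_symm, submatrix_id_id,
      submatrix_diagonal_equiv] at this
    rw [this]
    congr 1
    funext i
    have : e.symm i = Sum.inr (Fin.last k) ↔ i = Fin.last (k + 1) := by
      rw [Equiv.symm_apply_eq]; rfl
    simp only [Function.comp, this]

theorem normal_case (f : Fin 3 → μ) (hf : Function.Injective f) (a : Matrix μ μ ℤ) (γ s : ℤ)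
    (hs : s * s = 1)
    (hsym : aᵀ * (diagonal fun i => if i = f 2 then γ else 1)
      = (diagonal fun i => if i = f 2 then γ else 1) * a)
    (hgen : ∀ z, ∃ t t', t ᵥ* a + t' ᵥ* (diagonal fun i => if i = f 2 then γ else 1) = z) :
    ∃ X : Matrix μ μ ℤ, Xᵀ = X ∧
      (a + X * diagonal fun i => if i = f 2 then γ else 1).det = s := by
  set n := f 2
  set D : Matrix μ μ ℤ := diagonal fun i => if i = n then γ else 1 with hD
  have hs1 : ∀ i j, a j i * (if j = n then γ else 1) = (if i = n then γ else 1) * a i j := by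
    intro i j
    have := congrFun (congrFun hsym i) j
    rwa [hD, mul_diagonal, diagonal_mul, transpose_apply] at this
  let X₀ : Matrix μ μ ℤ := of fun i j => if j = n then (if i = n then 0 else -a n i) else -a i j
  have hX₀ : X₀ᵀ = X₀ := by
    ext i j
    have := hs1 i j
    by_cases hi : i = n <;> by_cases hj : j = n <;> simp_all [X₀]
  let F : Matrix μ (Fin 3) ℤ := of fun i k => if i = f k then 1 else 0
  have hF : Fᵀ * F = 1 := by
    ext k k'
    simp [F, mul_apply, one_apply, hf.eq_iff, eq_comm]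
  have hE : ∀ t : ℤ, F * !![0, 0, 0; 0, 0, 0; 0, 0, t] * Fᵀ = single n n t := by
    intro t
    ext i j
    simp only [F, mul_apply, Fin.sum_univ_three, single_apply, of_apply, transpose_apply]
    have e1 : (i = f 2) = (n = i) := propext eq_comm
    have e2 : (j = f 2) = (n = j) := propext eq_comm
    simp only [e1, e2]
    by_cases hi : n = i <;> by_cases hj : n = j <;> simp [hi, hj]
  have h0 : a + X₀ * D = single n n (a n n) := by
    ext i j
    have := hs1 i j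
    rw [Matrix.add_apply, hD, mul_diagonal, single_apply]
    simp only [X₀, of_apply]
    by_cases hi : i = n <;> by_cases hj : j = n
    · simp [hi, hj]
    · simp [hj, Ne.symm hj]
    · simp only [hi, hj, if_true, if_false, one_mul] at this
      simp only [hj, hi, Ne.symm hi, if_true, if_false, false_and]
      linear_combination -this
    · simp [hj, Ne.symm hj]
  have hD' : D = 1 + single n n (γ - 1) := by
    ext i j
    rw [hD, Matrix.add_apply, single_apply, diagonal_apply, one_apply]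
    by_cases hij : i = j
    · subst hij
      by_cases hi : i = n
      · simp [hi]
      · simp [hi, Ne.symm hi]
    · have : ¬ (n = i ∧ n = j) := fun h => hij (h.1.symm.trans h.2)
      simp [hij, this]
  have hcop : IsCoprime (a n n) γ := by
    obtain ⟨t, t', ht⟩ := hgen (Pi.single n 1)
    have e : a = single n n (a n n) - X₀ * D := by rw [← h0]; abel
    rw [e, vecMul_sub, ← vecMul_vecMul] at ht
    have := congrFun ht n
    have e' : (t ᵥ* single n n (a n n)) n = t n * a n n := by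
      simp [vecMul, dotProduct, single_apply]
    simp only [Pi.add_apply, Pi.sub_apply, hD, vecMul_diagonal, if_true, Pi.single_eq_same,
      e'] at this
    exact ⟨t n, t' n - (t ᵥ* X₀) n, by linear_combination this⟩
  obtain ⟨x₁, x₂, x, e, he, hx⟩ := prime_square hcop
  let A : Matrix (Fin 3) (Fin 3) ℤ := !![s * e, 0, 0; 0, x₁, x; 0, x, x₂]
  refine ⟨X₀ + (1 + F * (A - 1) * Fᵀ), ?_, ?_⟩
  · have : Aᵀ = A := by ext i j; fin_cases i <;> fin_cases j <;> rfl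
    simp only [transpose_add, hX₀, transpose_mul, transpose_transpose, transpose_one,
      transpose_sub, this, Matrix.mul_assoc]
  · let B : Matrix (Fin 3) (Fin 3) ℤ := !![0, 0, 0; 0, 0, 0; 0, 0, γ - 1]
    let C : Matrix (Fin 3) (Fin 3) ℤ := !![0, 0, 0; 0, 0, 0; 0, 0, a n n]
    have e1 : a + (X₀ + (1 + F * (A - 1) * Fᵀ)) * D = 1 + F * ((C + A * B + A - 1) * Fᵀ) := by
      rw [Matrix.add_mul, ← add_assoc, h0, hD', ← hE, ← hE]
      have : F * (A - 1) * Fᵀ * (F * B * Fᵀ) = F * ((A - 1) * B) * Fᵀ := by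
        calc F * (A - 1) * Fᵀ * (F * B * Fᵀ) = F * (A - 1) * (Fᵀ * F) * B * Fᵀ := by
              simp only [Matrix.mul_assoc]
          _ = _ := by rw [hF, Matrix.mul_one]; simp only [Matrix.mul_assoc]
      rw [Matrix.mul_add, Matrix.mul_one, Matrix.add_mul, Matrix.one_mul, this]
      simp only [Matrix.mul_add, Matrix.add_mul, Matrix.mul_sub, Matrix.sub_mul, Matrix.mul_assoc,
        Matrix.one_mul, Matrix.mul_one]
      abel
    rw [e1, det_one_add_mul_comm, Matrix.mul_assoc, hF, Matrix.mul_one, add_sub_cancel,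
      det_fin_three]
    simp [A, B, C, Matrix.mul_fin_three]
    linear_combination s * e * hx + s * he

theorem symplectic_chain {k : ℕ} (a b c d : Matrix (Fin (k + 3)) (Fin (k + 3)) ℤ)
    (h : fromBlocks a b c d ∈ symplecticGroup (Fin (k + 3)) ℤ) :
    ∃ X Y : Matrix (Fin (k + 3)) (Fin (k + 3)) ℤ, Xᵀ = X ∧ Yᵀ = Y ∧
      (a + X * c + (b + X * d) * Y).det = 1 := by
  obtain ⟨h1, h2, h3⟩ := SymplecticGroup.fromBlocks_mem_iff.1 h
  have ht := SymplecticGroup.transpose_mem h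
  rw [fromBlocks_transpose] at ht
  obtain ⟨h4, h5, h6⟩ := SymplecticGroup.fromBlocks_mem_iff.1 ht
  simp only [transpose_transpose] at h4 h5 h6
  have h3' : dᵀ * a - bᵀ * c = 1 := by simpa using congrArg transpose h3
  have h6' : d * aᵀ - c * bᵀ = 1 := by simpa using congrArg transpose h6
  obtain ⟨Y, P, Q, γ, hY, hP, hQ, hD⟩ := good_fin (k + 2) c d ⟨h5, fun z =>
    ⟨-(bᵀ *ᵥ z), aᵀ *ᵥ z, by
      rw [mulVec_neg, mulVec_mulVec, mulVec_mulVec, neg_add_eq_sub, ← sub_mulVec, h6',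
        one_mulVec]⟩⟩
  let f : Fin 3 → Fin (k + 3) := fun i => ⟨k + i, by omega⟩
  have hf : Function.Injective f := fun i j hij => by
    simp only [f, Fin.mk.injEq] at hij; omega
  have hn : Fin.last (k + 2) = f 2 := rfl
  rw [hn] at hD
  have eP : Pᵀ * P⁻¹ᵀ = 1 := by rw [← transpose_mul, nonsing_inv_mul _ hP, transpose_one]
  have hsq : ∀ z : ℤ, IsUnit z → z * z = 1 := fun z hz => by
    rcases Int.isUnit_iff.1 hz with rfl | rfl <;> simp
  have hsym : (a + b * Y)ᵀ * (c + d * Y) = (c + d * Y)ᵀ * (a + b * Y) := by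
    simp only [transpose_add, transpose_mul, hY]
    have e1 : aᵀ * d = 1 + cᵀ * b := by rw [← h3]; abel
    have e2 : dᵀ * a = 1 + bᵀ * c := by rw [← h3']; abel
    calc (aᵀ + Y * bᵀ) * (c + d * Y)
        = aᵀ * c + (aᵀ * d) * Y + Y * (bᵀ * c) + Y * (bᵀ * d) * Y := by noncomm_ring
      _ = cᵀ * a + cᵀ * b * Y + Y * (dᵀ * a) + Y * (dᵀ * b) * Y := by
          rw [h1, h2, e1, e2]; noncomm_ring
      _ = _ := by noncomm_ring
  obtain ⟨X, hX, hdet⟩ := normal_case f hf (P⁻¹ᵀ * (a + b * Y) * Q) γ (P.det * Q.det)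
    (hsq _ (hP.mul hQ)) (by
      nth_rewrite 2 [← diagonal_transpose]
      rw [← hD]
      simp only [transpose_mul, transpose_transpose]
      calc Qᵀ * ((a + b * Y)ᵀ * P⁻¹) * (P * (c + d * Y) * Q)
          = Qᵀ * (a + b * Y)ᵀ * (P⁻¹ * P) * (c + d * Y) * Q := by noncomm_ring
        _ = Qᵀ * ((a + b * Y)ᵀ * (c + d * Y)) * Q := by
            rw [nonsing_inv_mul _ hP]; noncomm_ring
        _ = Qᵀ * (c + d * Y)ᵀ * (Pᵀ * P⁻¹ᵀ) * (a + b * Y) * Q := by rw [hsym, eP]; noncomm_ring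
        _ = _ := by noncomm_ring) (fun z => by
      refine ⟨z ᵥ* (Q⁻¹ * dᵀ * Pᵀ), -(z ᵥ* (Q⁻¹ * bᵀ * P⁻¹)), ?_⟩
      rw [← hD, neg_vecMul, vecMul_vecMul, vecMul_vecMul, ← sub_eq_add_neg, ← vecMul_sub]
      have : Q⁻¹ * dᵀ * Pᵀ * (P⁻¹ᵀ * (a + b * Y) * Q) - Q⁻¹ * bᵀ * P⁻¹ * (P * (c + d * Y) * Q)
          = 1 := by
        calc _ = Q⁻¹ * dᵀ * (Pᵀ * P⁻¹ᵀ) * (a + b * Y) * Q
              - Q⁻¹ * bᵀ * (P⁻¹ * P) * (c + d * Y) * Q := by noncomm_ring
          _ = Q⁻¹ * ((dᵀ * a - bᵀ * c) + (dᵀ * b - bᵀ * d) * Y) * Q := by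
              rw [eP, nonsing_inv_mul _ hP]; noncomm_ring
          _ = 1 := by rw [h3', h2, sub_self, Matrix.zero_mul, add_zero, Matrix.mul_one,
              nonsing_inv_mul _ hQ]
      rw [this, vecMul_one])
  refine ⟨Pᵀ * X * P, Y, by simp [transpose_mul, hX, Matrix.mul_assoc], hY, ?_⟩
  rw [← hD] at hdet
  have e : (a + Pᵀ * X * P * c + (b + Pᵀ * X * P * d) * Y) * Q
      = Pᵀ * (P⁻¹ᵀ * (a + b * Y) * Q + X * (P * (c + d * Y) * Q)) := by
    calc _ = (Pᵀ * P⁻¹ᵀ) * (a + b * Y) * Q + Pᵀ * X * (P * (c + d * Y) * Q) := by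
          rw [eP]; noncomm_ring
      _ = _ := by noncomm_ring
  have e2 := congrArg det e
  rw [det_mul, det_mul, hdet, det_transpose] at e2
  have q2 := hsq _ hQ
  have p2 := hsq _ hP
  linear_combination Q.det * e2 - (a + Pᵀ * X * P * c + (b + Pᵀ * X * P * d) * Y).det * q2
    + Q.det * Q.det * p2 + q2

end Pool.Agent.Lib.MP_755cca_al
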