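import Mathlib

/-! Root elements of the classical simply connected Chevalley groups over the integers. -/

open Matrix
open scoped Pointwise

namespace Pool.Agent.Lib.MP_755cca_al

/-- `L` is the least positive `m` with `(U U⁻) ^ m = G`, where `U` and `U⁻` are generated by
`pos` and `neg` -/
def HasLength {M : Type} [Monoid M] (G pos neg : Set M) (L : ℕ) : Prop :=
  IsLeast {m : ℕ | 0 < m ∧
    ((Submonoid.closure pos : Set M) * (Submonoid.closure neg : Set M)) ^ m = G} L

/-- positive root elements of `SL(n, ℤ)` -/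
def posA (n : ℕ) : Set (Matrix (Fin n) (Fin n) ℤ) :=
  {g | ∃ (i j : Fin n) (t : ℤ), i < j ∧ g = 1 + single i j t}

/-- positive root elements of `Sp(2 l, ℤ)` -/
def posC (l : ℕ) : Set (Matrix (Fin l ⊕ Fin l) (Fin l ⊕ Fin l) ℤ) :=
  {g | ∃ (i j : Fin l) (t : ℤ),
    (i < j ∧ g = fromBlocks (1 + single i j t) 0 0 (1 - single j i t)) ∨
    (i < j ∧ g = fromBlocks 1 (single i j t + single j i t) 0 1) ∨
    g = fromBlocks 1 (single i i t) 0 1}

/-- endomorphisms of the exterior algebra -/
abbrev ExtEnd (K V : Type) [CommRing K] [AddCommGroup V] [Module K V] : Type :=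
  Module.End K (ExteriorAlgebra K V)

/-- exterior multiplication by a vector -/
def wedge {K V : Type} [CommRing K] [AddCommGroup V] [Module K V] (v : V) : ExtEnd K V :=
  LinearMap.mulLeft K (ExteriorAlgebra.ι K v)

/-- contraction with a linear form; the exterior algebra is the case `Q = 0` -/
def contr {K V : Type} [CommRing K] [AddCommGroup V] [Module K V] (Q : QuadraticForm K V)
    (φ : Module.Dual K V) : Module.End K (CliffordAlgebra Q) :=
  CliffordAlgebra.contractLeft φ

/-- endomorphisms of the spin module -/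
abbrev Spin (l : ℕ) : Type := ExtEnd ℤ (Fin l → ℤ)

/-- exterior multiplication by the `i`-th basis vector -/
def cre (l : ℕ) (i : Fin l) : Spin l := wedge (Pi.single i 1)

/-- contraction with the `i`-th coordinate -/
def ann (l : ℕ) (i : Fin l) : Spin l := contr 0 (LinearMap.proj i)

/-- root elements for the roots `e_i - e_j`, `e_i + e_j`, `i < j` -/
def rootsD {R : Type} [Ring R] {l : ℕ} (e f : Fin l → R) : Set R :=
  {g | ∃ (i j : Fin l) (t : ℤ), i < j ∧ (g = 1 + t • (e i * f j) ∨ g = 1 + t • (e i * e j))}

/-- the same, and root elements for the short roots `e_i` -/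
def rootsB {R : Type} [Ring R] {l : ℕ} (e f : Fin l → R) : Set R :=
  rootsD e f ∪ {g | ∃ (i : Fin l) (t : ℤ), g = 1 + t • e i}

/-- `L(A_l) = L` -/
def LenA (l L : ℕ) : Prop :=
  HasLength {g | g.det = 1} (posA (l + 1)) (transpose '' posA (l + 1)) L

/-- `L(C_l) = L` -/
def LenC (l L : ℕ) : Prop :=
  HasLength (symplecticGroup (Fin l) ℤ : Set (Matrix (Fin l ⊕ Fin l) (Fin l ⊕ Fin l) ℤ))
    (posC l) (transpose '' posC l) L

/-- length of the group generated by all root elements, type B -/
def GenB {R : Type} [Ring R] {l : ℕ} (e f : Fin l → R) (L : ℕ) : Prop :=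
  HasLength (Submonoid.closure (rootsB e f ∪ rootsB f e) : Set R) (rootsB e f) (rootsB f e) L

/-- length of the group generated by all root elements, type D -/
def GenD {R : Type} [Ring R] {l : ℕ} (e f : Fin l → R) (L : ℕ) : Prop :=
  HasLength (Submonoid.closure (rootsD e f ∪ rootsD f e) : Set R) (rootsD e f) (rootsD f e) L

/-- the classical types -/
inductive Ty : Type
  | A | B | C | D

/-- `L(Φ) = L` for the root system `Φ` of type `X` and rank `l` -/
def LengthIs (X : Ty) (l L : ℕ) : Prop :=
  Ty.rec (LenA l L) (GenB (cre l) (ann l) L) (LenC l L) (GenD (cre l) (ann l) L) X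

end Pool.Agent.Lib.MP_755cca_al
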