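import Pool.Agent.Lib.MP_755cca_al.Siegel

/-! Type D, and the spin module. -/

open scoped Pointwise

namespace Pool.Agent.Lib.MP_755cca_al

variable {R : Type} [Ring R] {l : ℕ} {e f : Fin l → R}

theorem sigma_sq (h : CAR e f) (n : Fin l) : (e n + f n) * (e n + f n) = 1 := by
  have := h.ef n n
  rw [if_pos rfl, Int.cast_one] at this
  rw [add_mul, mul_add, mul_add, h.e0, h.f0, zero_add, add_zero, this]

theorem sigma_en (h : CAR e f) (n : Fin l) : (e n + f n) * e n * (e n + f n) = f n := by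
  have := h.ef n n
  rw [if_pos rfl, Int.cast_one] at this
  calc (e n + f n) * e n * (e n + f n)
      = (e n * e n) * (e n + f n) + f n * (e n * e n) + f n * (e n * f n + f n * e n)
        - (f n * f n) * e n := by noncomm_ring
    _ = _ := by rw [h.e0, h.f0, this]; simp

theorem sigma_e (h : CAR e f) {n i : Fin l} (hi : i ≠ n) :
    (e n + f n) * e i * (e n + f n) = -e i := by
  have : (e n + f n) * e i = -(e i * (e n + f n)) := by
    rw [add_mul, mul_add, h.ee n i, h.fe hi, neg_add]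
  rw [this, neg_mul, mul_assoc, sigma_sq h, mul_one]

theorem sigma_roots (h : CAR e f) {n : Fin l} (hn : ∀ i, i ≤ n) {g : R}
    (hg : g ∈ Submonoid.closure (rootsD e f)) :
    (e n + f n) * g * (e n + f n) ∈ Submonoid.closure (rootsD e f) := by
  have s := sigma_sq h n
  have s1 := sigma_en h n
  have s2 := sigma_en h.symm n
  have s3 : ∀ i, i ≠ n → _ := fun i hi => sigma_e h (n := n) (i := i) hi
  have s4 : ∀ i, i ≠ n → _ := fun i hi => sigma_e h.symm (n := n) (i := i) hi
  rw [add_comm (f n)] at s2 s4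
  generalize e n + f n = σ at *
  induction hg using Submonoid.closure_induction with
  | mem g hg =>
    obtain ⟨i, j, t, hij, hg⟩ := hg
    have hi : i ≠ n := (lt_of_lt_of_le hij (hn j)).ne
    refine Submonoid.subset_closure ?_
    rcases hg with rfl | rfl <;>
      rw [conj_one_add s, mul_smul_comm, smul_mul_assoc, conj_mul' s, s3 i hi]
    · by_cases hj : j = n
      · subst hj
        exact ⟨i, j, -t, hij, Or.inr (by rw [s2]; simp)⟩
      · exact ⟨i, j, t, hij, Or.inl (by rw [s4 j hj]; simp)⟩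
    · by_cases hj : j = n
      · subst hj
        exact ⟨i, j, -t, hij, Or.inl (by rw [s1]; simp)⟩
      · exact ⟨i, j, t, hij, Or.inr (by rw [s3 j hj]; simp)⟩
  | one => rw [mul_one, s]; exact one_mem _
  | mul a b _ _ ha hb => rw [conj_mul' s]; exact mul_mem ha hb

theorem conj_Stab {U V : Submonoid R} {σ : R} (s : σ * σ = 1)
    (hU : ∀ g ∈ U, σ * g * σ ∈ U) (hV : ∀ g ∈ V, σ * g * σ ∈ V) {x : R}
    (hx : x ∈ Stab (Om U V)) : σ * x * σ ∈ Stab (Om U V) := by
  have key : ∀ y ∈ Om U V, σ * y * σ ∈ Om U V := by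
    rintro _ ⟨a, ha, _, ⟨b, hb, _, ⟨_, rfl, _, ⟨c, hc, d, hd, rfl⟩, rfl⟩, rfl⟩, rfl⟩
    refine ⟨_, hU a ha, _, ⟨_, hV b hb, _, ⟨_, rfl, _, ⟨_, hU c hc, _, hV d hd, rfl⟩, rfl⟩, rfl⟩,
      ?_⟩
    simp only [one_mul, conj_mul' s]
  intro y hy
  have := key _ (hx _ (key y hy))
  rw [conj_mul' s] at this
  have e1 : σ * (σ * y * σ) * σ = y := by
    calc σ * (σ * y * σ) * σ = (σ * σ) * y * (σ * σ) := by noncomm_ring
      _ = y := by rw [s]; simp
  rwa [e1] at this

theorem typeD_stab (h : CAR e f) (hL : Lev e f) {n : Fin l} (hn : ∀ i, i ≤ n) :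
    Submonoid.closure (rootsD e f ∪ rootsD f e) ≤
      Stab (Om (Submonoid.closure (rootsD e f)) (Submonoid.closure (rootsD f e))) := by
  have hS := le_Stab_of (siegel_D h hL)
  refine Submonoid.closure_le.2 ?_
  rintro g (hg | ⟨i, j, t, hij, rfl | rfl⟩)
  · exact le_Stab_Om _ _ (Submonoid.subset_closure hg)
  · exact hS (Lv_le h (mem_Lv hij.ne t))
  · have hi : i ≠ n := (lt_of_lt_of_le hij (hn j)).ne
    have key : ∀ t : ℤ, 1 + t • (f i * f n) ∈
        Stab (Om (Submonoid.closure (rootsD e f)) (Submonoid.closure (rootsD f e))) := by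
      intro t
      have s := sigma_sq h n
      have := conj_Stab s (fun g hg => sigma_roots h hn hg)
        (fun g hg => add_comm (f n) (e n) ▸ sigma_roots h.symm hn hg)
        (hS (Lv_le h (mem_Lv hi (-t))))
      rw [conj_one_add s, mul_smul_comm, smul_mul_assoc, conj_mul' s, sigma_en h,
        add_comm (e n), sigma_e h.symm hi] at this
      simpa using this
    by_cases hj : j = n
    · subst hj; exact key t
    · exact move_pair h hS (Ne.symm hj) hi hij.ne key t

open ExteriorAlgebra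

theorem ann_ι_mul (i : Fin l) (v : Fin l → ℤ) (x : ExteriorAlgebra ℤ (Fin l → ℤ)) :
    ann l i (ι ℤ v * x) = v i • x - ι ℤ v * ann l i x :=
  CliffordAlgebra.contractLeft_ι_mul _ _ _

theorem ann_algebraMap (i : Fin l) (r : ℤ) :
    ann l i (algebraMap ℤ (ExteriorAlgebra ℤ (Fin l → ℤ)) r) = 0 :=
  CliffordAlgebra.contractLeft_algebraMap _ _ _

theorem cre_apply (i : Fin l) (x : ExteriorAlgebra ℤ (Fin l → ℤ)) :
    cre l i x = ι ℤ (Pi.single i 1) * x := rfl

theorem ι_anti (a b : Fin l → ℤ) : ι ℤ a * ι ℤ b = -(ι ℤ b * ι ℤ a) :=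
  eq_neg_of_add_eq_zero_left (ι_add_mul_swap a b)

theorem car_spin (l : ℕ) : CAR (cre l) (ann l) where
  ee i j := by
    refine LinearMap.ext fun x => ?_
    simp only [Module.End.mul_apply, cre_apply, LinearMap.neg_apply]
    rw [← mul_assoc, ι_anti, neg_mul, mul_assoc]
  e0 i := by
    refine LinearMap.ext fun x => ?_
    simp only [Module.End.mul_apply, cre_apply, LinearMap.zero_apply]
    rw [← mul_assoc, ι_sq_zero, zero_mul]
  ff i j := LinearMap.ext fun x => CliffordAlgebra.contractLeft_comm _ _ _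
  f0 i := LinearMap.ext fun x => CliffordAlgebra.contractLeft_contractLeft _ _
  ef i j := by
    refine LinearMap.ext fun x => ?_
    simp only [Module.End.mul_apply, cre_apply, LinearMap.add_apply, ann_ι_mul]
    by_cases h : i = j
    · simp [h]
    · simp [h, Ne.symm h]

/-- the action of matrices on the exterior algebra -/
noncomputable def Psi (l : ℕ) : Matrix (Fin l) (Fin l) ℤ →* Spin l where
  toFun g := (ExteriorAlgebra.map (Matrix.toLin' g)).toLinearMap
  map_one' := by rw [Matrix.toLin'_one, ExteriorAlgebra.map_id]; rfl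
  map_mul' a b := by rw [Matrix.toLin'_mul, ← ExteriorAlgebra.map_comp_map]; rfl

theorem Psi_transvection {i j : Fin l} (t : ℤ) :
    Psi l (Matrix.transvection i j t) = 1 + t • (cre l i * ann l j) := by
  refine LinearMap.ext fun x => ?_
  change ExteriorAlgebra.map (Matrix.toLin' (Matrix.transvection i j t)) x
    = x + t • (ι ℤ (Pi.single i 1) * ann l j x)
  have c := car_spin l
  induction x using CliffordAlgebra.left_induction with
  | algebraMap r => rw [AlgHom.commutes, ann_algebraMap, mul_zero, smul_zero, add_zero]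
  | add x y hx hy => rw [map_add, hx, hy, map_add, mul_add, smul_add]; abel
  | ι_mul x v hx =>
    change ExteriorAlgebra.map (Matrix.toLin' (Matrix.transvection i j t)) (ι ℤ v * x)
      = ι ℤ v * x + t • (ι ℤ (Pi.single i 1) * ann l j (ι ℤ v * x))
    have hv : Matrix.toLin' (Matrix.transvection i j t) v = v + (t * v j) • Pi.single i 1 := by
      ext k
      simp [Matrix.transvection, Matrix.add_mulVec, Matrix.single_mulVec, Function.update_apply,
        Pi.single_apply]
    rw [map_mul, hx, map_apply_ι, hv, map_add, map_smul, ann_ι_mul]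
    have e1 : ι ℤ (Pi.single i (1 : ℤ) : Fin l → ℤ) * (ι ℤ (Pi.single i (1 : ℤ) : Fin l → ℤ) *
        ann l j x) = 0 := by rw [← mul_assoc, ι_sq_zero, zero_mul]
    have e2 : ι ℤ (Pi.single i (1 : ℤ) : Fin l → ℤ) * (ι ℤ v * ann l j x)
        = -(ι ℤ v * (ι ℤ (Pi.single i (1 : ℤ) : Fin l → ℤ) * ann l j x)) := by
      rw [← mul_assoc, ι_anti, neg_mul, mul_assoc]
    simp only [mul_add, add_mul, mul_sub, smul_mul_assoc, mul_smul_comm, e1, e2, smul_zero,
      smul_sub, mul_smul, smul_neg]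
    abel

theorem mem_UL {p q : Fin l} (hpq : p < q) (t : ℤ) : 1 + t • (e p * f q) ∈ UL e f :=
  Submonoid.subset_closure ⟨p, q, t, hpq, rfl⟩

theorem lev_spin (hl : 69 ≤ l) : Lev (cre l) (ann l) := by
  intro x hx
  have c := car_spin l
  have : ∃ g : Matrix (Fin l) (Fin l) ℤ, g.det = 1 ∧ Psi l g = x := by
    induction hx using Submonoid.closure_induction with
    | mem x hx =>
      obtain ⟨p, q, t, hpq, rfl⟩ := hx
      exact ⟨_, Matrix.det_transvection_of_ne p q hpq t, Psi_transvection t⟩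
    | one => exact ⟨1, Matrix.det_one, map_one _⟩
    | mul a b _ _ ha hb =>
      obtain ⟨g, h1, rfl⟩ := ha
      obtain ⟨g', h2, rfl⟩ := hb
      exact ⟨g * g', by rw [Matrix.det_mul, h1, h2, one_mul], map_mul _ _ _⟩
  obtain ⟨g, hg, rfl⟩ := this
  obtain ⟨u₁, a1, u₂, a2, u₃, a3, u₄, a4, rfl⟩ := typeA_fin hl g hg
  have p1 : ∀ u ∈ Um (· < ·), Psi l u ∈ UL (cre l) (ann l) := fun u hu =>
    Um.map _ _ (fun i j t _ hr => by rw [Psi_transvection]; exact mem_UL hr t) hu
  have p2 : ∀ u ∈ Um (flip (· < ·)), Psi l u ∈ UL (ann l) (cre l) := fun u hu =>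
    Um.map _ _ (fun i j t hij hr => by
      rw [Psi_transvection, c.symm.fe hij.symm, smul_neg, ← neg_smul]; exact mem_UL hr _) hu
  exact ⟨_, p1 _ a1, _, ⟨_, p2 _ a2, _, ⟨_, rfl, _, ⟨_, p1 _ a3, _, p2 _ a4, rfl⟩, rfl⟩, rfl⟩,
    by simp [mul_assoc]⟩

theorem not_mul_spin {s t : Set (Spin l)}
    (hs : ∀ g ∈ s, ∀ x, algebraMapInv (g x) = algebraMapInv x) (ht : ∀ g ∈ t, g 1 = 1)
    {a b : Spin l} (ha : a ∈ Submonoid.closure s) (hb : b ∈ Submonoid.closure t) :
    algebraMapInv ((a * b) 1) = 1 := by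
  have h1 : ∀ x, algebraMapInv (a x) = algebraMapInv x := by
    induction ha using Submonoid.closure_induction with
    | mem g hg => exact hs g hg
    | one => intro x; rfl
    | mul a c _ _ ha hc => intro x; rw [Module.End.mul_apply, ha, hc]
  have h2 : b 1 = 1 := by
    induction hb using Submonoid.closure_induction with
    | mem g hg => exact ht g hg
    | one => rfl
    | mul a c _ _ ha hc => rw [Module.End.mul_apply, hc, ha]
  rw [Module.End.mul_apply, h1, h2, map_one]

theorem inv_cre (i : Fin l) (x : ExteriorAlgebra ℤ (Fin l → ℤ)) :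
    algebraMapInv (cre l i x) = 0 := by
  rw [cre_apply, map_mul]
  simp [algebraMapInv]

theorem ann_one (i : Fin l) : ann l i 1 = 0 := by
  simpa using ann_algebraMap i 1

theorem rootsB_inv : ∀ g ∈ rootsB (cre l) (ann l), ∀ x, algebraMapInv (g x) = algebraMapInv x := by
  rintro _ (⟨i, j, t, -, rfl | rfl⟩ | ⟨i, t, rfl⟩) x <;>
    simp [inv_cre]

theorem rootsB_one : ∀ g ∈ rootsB (ann l) (cre l), g 1 = 1 := by
  rintro _ (⟨i, j, t, hij, rfl | rfl⟩ | ⟨i, t, rfl⟩)
  · rw [(car_spin l).fe hij.ne']; simp [ann_one]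
  · simp [ann_one]
  · simp [ann_one]

theorem witness_aux (c : CAR e f) {i j : Fin l} (hij : i < j) : f i * f j * (e i * e j)
      = -1 + e i * f i + (e j * f j - e i * f i * (e j * f j)) := by
  have h1 := c.ef i i
  have h2 := c.ef j j
  rw [if_pos rfl, Int.cast_one] at h1 h2
  have h3 := c.fe hij.ne
  calc f i * f j * (e i * e j) = f i * (f j * e i) * e j := by noncomm_ring
    _ = -((f i * e i) * (f j * e j)) := by rw [h3]; noncomm_ring
    _ = _ := by rw [eq_sub_of_add_eq' h1, eq_sub_of_add_eq' h2]; noncomm_ring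

theorem witness {i j : Fin l} (hij : i < j) : algebraMapInv
    (((1 + (1 : ℤ) • (ann l i * ann l j)) * (1 + (1 : ℤ) • (cre l i * cre l j)) : Spin l) 1)
      = 0 := by
  have e1 := witness_aux (car_spin l) hij
  rw [add_mul, mul_add, mul_add, one_smul, one_smul, e1]
  simp [ann_one, inv_cre]

theorem typeD (hl : 69 ≤ l) : GenD (cre l) (ann l) 2 := by
  have hn : ∀ i : Fin l, i ≤ ⟨l - 1, by omega⟩ := fun i => by
    rw [Fin.le_def]; have := i.2; simp only; omega
  have h01 : (⟨0, by omega⟩ : Fin l) < ⟨1, by omega⟩ := by simp [Fin.lt_def]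
  refine hasLength_two _ _ _ (fun g hg => Submonoid.subset_closure (Or.inl hg))
    (fun g hg => Submonoid.subset_closure (Or.inr hg))
    (Om_of_le (typeD_stab (car_spin l) (lev_spin hl) hn))
    ⟨_, mul_mem (Submonoid.subset_closure (Or.inr ⟨_, _, 1, h01, Or.inr rfl⟩))
      (Submonoid.subset_closure (Or.inl ⟨_, _, 1, h01, Or.inr rfl⟩)), fun a ha b hb e => ?_⟩
  have h1 := not_mul_spin (fun g hg => rootsB_inv g (Or.inl hg))
    (fun g hg => rootsB_one g (Or.inl hg)) ha hb
  rw [← e, witness h01] at h1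
  exact zero_ne_one h1

end Pool.Agent.Lib.MP_755cca_al
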