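import Mathlib

/-! Abstract parabolic reduction in a monoid, and anticommutation relations. -/

open scoped Pointwise

namespace Pool.Agent.Lib.MP_755cca_al

section Par

variable {M : Type} [Monoid M]

/-- `H` normalises `N` -/
def Norm (H N : Submonoid M) : Prop :=
  ∀ h ∈ H, ∀ n ∈ N, (∃ n' ∈ N, h * n = n' * h) ∧ ∃ n' ∈ N, n * h = h * n'

theorem Norm.comm {H N : Submonoid M} (hn : Norm H N) {S : Set M} (hS : S ⊆ H) :
    S * (N : Set M) = (N : Set M) * S := by
  ext x
  constructor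
  · rintro ⟨h, hh, n, hn', rfl⟩
    obtain ⟨n', h1, h2⟩ := (hn h (hS hh) n hn').1
    exact ⟨n', h1, h, hh, h2.symm⟩
  · rintro ⟨n, hn', h, hh, rfl⟩
    obtain ⟨n', h1, h2⟩ := (hn h (hS hh) n hn').2
    exact ⟨h, hh, n', h1, h2.symm⟩

theorem Norm.comm' {H N : Submonoid M} (hn : Norm H N) {S : Set M} (hS : S ⊆ H) (X : Set M) :
    S * ((N : Set M) * X) = (N : Set M) * (S * X) := by
  rw [← mul_assoc, hn.comm hS, mul_assoc]

theorem Norm.of_gens {s t : Set M}
    (h : ∀ x ∈ s, ∃ x', x * x' = 1 ∧ x' * x = 1 ∧ ∀ n ∈ t,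
      x * n * x' ∈ Submonoid.closure t ∧ x' * n * x ∈ Submonoid.closure t) :
    Norm (Submonoid.closure s) (Submonoid.closure t) := by
  have key : ∀ x x' : M, x * x' = 1 → x' * x = 1 → (∀ n ∈ t, x * n * x' ∈ Submonoid.closure t) →
      ∀ n ∈ Submonoid.closure t, x * n * x' ∈ Submonoid.closure t := by
    intro x x' h1 h2 h3 n hn
    induction hn using Submonoid.closure_induction with
    | mem n hn => exact h3 n hn
    | one => rw [mul_one, h1]; exact one_mem _
    | mul a b _ _ ha hb =>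
      have : x * (a * b) * x' = (x * a * x') * (x * b * x') := by
        calc x * (a * b) * x' = x * a * (x' * x) * b * x' := by rw [h2]; simp [mul_assoc]
          _ = _ := by simp [mul_assoc]
      rw [this]; exact mul_mem ha hb
  intro x hx
  induction hx using Submonoid.closure_induction with
  | mem x hx =>
    obtain ⟨x', h1, h2, h3⟩ := h x hx
    intro n hn
    exact ⟨⟨_, key x x' h1 h2 (fun n hn => (h3 n hn).1) n hn, by rw [mul_assoc, h2, mul_one]⟩,
      ⟨_, key x' x h2 h1 (fun n hn => (h3 n hn).2) n hn, by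
        rw [← mul_assoc, ← mul_assoc, h1, one_mul]⟩⟩
  | one => exact fun n hn => ⟨⟨n, hn, by simp⟩, ⟨n, hn, by simp⟩⟩
  | mul a b _ _ ha hb =>
    intro n hn
    constructor
    · obtain ⟨n1, h1, e1⟩ := (hb n hn).1
      obtain ⟨n2, h2, e2⟩ := (ha n1 h1).1
      exact ⟨n2, h2, by rw [mul_assoc, e1, ← mul_assoc, e2, mul_assoc]⟩
    · obtain ⟨n1, h1, e1⟩ := (ha n hn).2
      obtain ⟨n2, h2, e2⟩ := (hb n1 h1).2
      exact ⟨n2, h2, by rw [← mul_assoc, e1, mul_assoc, e2, mul_assoc]⟩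

theorem Norm.mono {H H' N : Submonoid M} (hn : Norm H N) (h : H' ≤ H) : Norm H' N :=
  fun x hx => hn x (h hx)

theorem Norm.closure_subset {H N : Submonoid M} (hn : Norm H N) {s : Set M}
    (hs : ∀ x ∈ s, x ∈ N ∨ x ∈ H) : (Submonoid.closure s : Set M) ⊆ (N : Set M) * H := by
  intro x hx
  induction hx using Submonoid.closure_induction with
  | mem x hx =>
    rcases hs x hx with h | h
    · exact ⟨x, h, 1, one_mem _, mul_one _⟩
    · exact ⟨1, one_mem _, x, h, one_mul _⟩
  | one => exact ⟨1, one_mem _, 1, one_mem _, mul_one _⟩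
  | mul a b _ _ ha hb =>
    obtain ⟨n1, h1, a1, h2, rfl⟩ := ha
    obtain ⟨n2, h3, a2, h4, rfl⟩ := hb
    obtain ⟨n3, h5, e⟩ := (hn a1 h2 n2 h3).1
    refine ⟨n1 * n3, mul_mem h1 h5, a1 * a2, mul_mem h2 h4, ?_⟩
    calc n1 * n3 * (a1 * a2) = n1 * (n3 * a1) * a2 := by simp [mul_assoc]
      _ = _ := by rw [← e]; simp [mul_assoc]

theorem parabolic {U V P Q Uh Vh H : Submonoid M} {K K' : Set M} (cp : Norm H P) (cq : Norm H Q)
    (hU : (U : Set M) ⊆ (P : Set M) * Uh) (hV : (V : Set M) ⊆ (Q : Set M) * Vh)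
    (h1 : Uh ≤ H) (h2 : Vh ≤ H) (h3 : P ≤ U) (h4 : Q ≤ V) (h5 : Uh ≤ U) (h6 : Vh ≤ V)
    (h7 : K ⊆ H) (h8 : K' ⊆ H)
    (hH : (H : Set M) ⊆ (Uh : Set M) * (Vh * (K * (Uh * Vh)))) :
    (H : Set M) * (U * (V * (K' * (U * V)))) ⊆ U * (V * (K * (U * V))) := by
  have h1' : (Uh : Set M) ⊆ H := h1
  have h2' : (Vh : Set M) ⊆ H := h2
  have hHH : ∀ X : Set M, (H : Set M) * (H * X) = H * X := fun X => by
    rw [← mul_assoc, Submonoid.coe_mul_self_eq]
  have a1 : (P : Set M) * Uh ⊆ U := by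
    rw [← Submonoid.coe_mul_self_eq U]; exact Set.mul_subset_mul h3 h5
  have a2 : (Q : Set M) * Vh ⊆ V := by
    rw [← Submonoid.coe_mul_self_eq V]; exact Set.mul_subset_mul h4 h6
  calc (H : Set M) * (U * (V * (K' * (U * V))))
      ⊆ H * ((P * H) * ((Q * H) * (H * ((P * H) * (Q * H))))) := by
        have b1 : (U : Set M) ⊆ P * H := hU.trans (Set.mul_subset_mul_left h1')
        have b2 : (V : Set M) ⊆ Q * H := hV.trans (Set.mul_subset_mul_left h2')
        gcongr
    _ = P * (Q * (P * (Q * H))) := by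
        simp only [mul_assoc, cp.comm' subset_rfl, cq.comm' subset_rfl, hHH,
          Submonoid.coe_mul_self_eq]
    _ ⊆ P * (Q * (P * (Q * (Uh * (Vh * (K * (Uh * Vh))))))) := by gcongr
    _ = (P * Uh) * ((Q * Vh) * (K * ((P * Uh) * (Q * Vh)))) := by
        simp only [mul_assoc, cp.comm' h1', cq.comm' h1', cp.comm' h2', cq.comm' h2', cp.comm' h7,
          cq.comm' h7]
    _ ⊆ _ := by gcongr

end Par

section CAR

variable {R : Type} [Ring R]

theorem conj_even {x y v : R} {cx cy : ℤ} (t : ℤ) (hx : x * x = 0) (hy : y * y = 0)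
    (hxy : y * x = -(x * y)) (h1 : x * v + v * x = cx) (h2 : y * v + v * y = cy) :
    (1 + t • (x * y)) * v * (1 + (-t) • (x * y)) = v + (t * cy) • x - (t * cx) • y := by
  have e1 : v * x = cx - x * v := by rw [← h1]; abel
  have e2 : y * v = cy - v * y := by rw [← h2]; abel
  have e3 : x * y * v - v * (x * y) = cy • x - cx • y := by
    rw [mul_assoc, e2, ← mul_assoc, e1]
    simp only [zsmul_eq_mul, mul_sub, sub_mul, mul_assoc, (Int.cast_commute cy x).eq]
    abel
  have e4 : x * y * v * (x * y) = 0 := by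
    calc x * y * v * (x * y) = x * y * (v * x) * y := by noncomm_ring
      _ = x * (y * cx) * y - x * (y * x) * v * y := by rw [e1]; noncomm_ring
      _ = x * cx * (y * y) + (x * x) * y * v * y := by
        rw [hxy, ← (Int.cast_commute cx y).eq]; noncomm_ring
      _ = 0 := by rw [hx, hy]; simp
  calc (1 + t • (x * y)) * v * (1 + (-t) • (x * y))
      = v + t • (x * y * v - v * (x * y)) - (t * t) • (x * y * v * (x * y)) := by
        simp only [add_mul, mul_add, one_mul, mul_one, smul_mul_assoc, mul_smul_comm, smul_sub,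
          neg_smul, mul_neg, smul_add, mul_smul]
        abel
    _ = _ := by rw [e3, e4, smul_zero, sub_zero, smul_sub, mul_smul, mul_smul]; abel

theorem conj_odd {x v : R} {cx : ℤ} (t : ℤ) (hx : x * x = 0) (h1 : x * v + v * x = cx) :
    (1 + (-t) • x) * v * (1 + (-t) • x) = v - (t * cx) • 1 + (t * t * cx) • x := by
  have e1 : x * v = cx - v * x := by rw [← h1]; abel
  have e4 : x * v * x = cx • x := by
    rw [e1, sub_mul, mul_assoc, hx, mul_zero, sub_zero, zsmul_eq_mul]
  calc (1 + (-t) • x) * v * (1 + (-t) • x)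
      = v - t • (x * v + v * x) + (t * t) • (x * v * x) := by
        simp only [add_mul, mul_add, one_mul, mul_one, smul_mul_assoc, mul_smul_comm,
          neg_smul, mul_neg, neg_mul, smul_add, mul_smul, smul_neg, neg_add, neg_neg]
        abel
    _ = _ := by rw [h1, e4, mul_smul, mul_smul, mul_smul, mul_smul]; simp

theorem sq_zero_mul {z : R} (hz : z * z = 0) (s t : ℤ) :
    (1 + s • z) * (1 + t • z) = 1 + (s + t) • z := by
  simp only [add_mul, mul_add, one_mul, mul_one, smul_mul_assoc, mul_smul_comm, hz, smul_zero,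
    add_smul]
  abel

theorem sq_zero_inv {z : R} (hz : z * z = 0) (t : ℤ) :
    (1 + t • z) * (1 + (-t) • z) = 1 ∧ (1 + (-t) • z) * (1 + t • z) = 1 := by
  rw [sq_zero_mul hz, sq_zero_mul hz]; simp

theorem anti_sq {x y : R} (hx : x * x = 0) (hxy : y * x = -(x * y)) : x * y * (x * y) = 0 := by
  calc x * y * (x * y) = x * (y * x) * y := by noncomm_ring
    _ = -((x * x) * y * y) := by rw [hxy]; noncomm_ring
    _ = 0 := by rw [hx]; simp

/-- the canonical anticommutation relations -/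
structure CAR {l : ℕ} (e f : Fin l → R) : Prop where
  ee : ∀ i j, e i * e j = -(e j * e i)
  e0 : ∀ i, e i * e i = 0
  ff : ∀ i j, f i * f j = -(f j * f i)
  f0 : ∀ i, f i * f i = 0
  ef : ∀ i j, e i * f j + f j * e i = ((if i = j then 1 else 0 : ℤ) : R)

variable {l : ℕ} {e f : Fin l → R}

theorem CAR.symm (h : CAR e f) : CAR f e :=
  ⟨h.ff, h.f0, h.ee, h.e0, fun i j => by rw [add_comm, h.ef]; simp [eq_comm]⟩

theorem CAR.fe (h : CAR e f) {i j : Fin l} (hij : i ≠ j) : f j * e i = -(e i * f j) := by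
  have := h.ef i j
  rw [if_neg hij, Int.cast_zero] at this
  exact eq_neg_of_add_eq_zero_right this

theorem CAR.ee' (h : CAR e f) (i j : Fin l) : e i * e j + e j * e i = ((0 : ℤ) : R) := by
  rw [h.ee i j]; simp

theorem CAR.sq_ef (h : CAR e f) {i j : Fin l} (hij : i ≠ j) : e i * f j * (e i * f j) = 0 :=
  anti_sq (h.e0 i) (h.fe hij)

theorem CAR.sq_ee (h : CAR e f) (i j : Fin l) : e i * e j * (e i * e j) = 0 :=
  anti_sq (h.e0 i) (h.ee j i)

theorem CAR.conj_e (h : CAR e f) {p q : Fin l} (hpq : p ≠ q) (t : ℤ) (r : Fin l) :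
    (1 + t • (e p * f q)) * e r * (1 + (-t) • (e p * f q))
      = e r + (if r = q then t else 0) • e p := by
  rw [conj_even t (h.e0 p) (h.f0 q) (h.fe hpq) (h.ee' p r) (h.symm.ef q r)]
  by_cases hr : r = q
  · simp [hr]
  · simp [hr, Ne.symm hr]

theorem CAR.conj_f (h : CAR e f) {p q : Fin l} (hpq : p ≠ q) (t : ℤ) (r : Fin l) :
    (1 + t • (e p * f q)) * f r * (1 + (-t) • (e p * f q))
      = f r - (if r = p then t else 0) • f q := by
  rw [conj_even t (h.e0 p) (h.f0 q) (h.fe hpq) (h.ef p r) (h.symm.ee' q r)]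
  by_cases hr : r = p
  · simp [hr]
  · simp [hr, Ne.symm hr]

end CAR

end Pool.Agent.Lib.MP_755cca_al
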