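import Pool.Agent.Lib.MP_755cca_al.CArith
import Pool.Agent.Lib.MP_755cca_al.Defs

/-! Types A and C. -/

open Matrix
open scoped Pointwise

namespace Pool.Agent.Lib.MP_755cca_al

theorem transpose_mem_closure {ι : Type} [Fintype ι] [DecidableEq ι] {s : Set (Matrix ι ι ℤ)}
    {g : Matrix ι ι ℤ} (hg : g ∈ Submonoid.closure s) :
    gᵀ ∈ Submonoid.closure (transpose '' s) := by
  induction hg using Submonoid.closure_induction with
  | mem A hA => exact Submonoid.subset_closure ⟨A, hA, rfl⟩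
  | one => rw [transpose_one]; exact one_mem _
  | mul A B _ _ hA hB => rw [transpose_mul]; exact mul_mem hB hA

theorem mem_sq {M : Type} [Monoid M] {U V : Set M} {g : M} :
    g ∈ (U * V) ^ 2 ↔ ∃ a ∈ U, ∃ b ∈ V, ∃ c ∈ U, ∃ d ∈ V, g = a * b * c * d := by
  rw [pow_two]
  constructor
  · rintro ⟨_, ⟨a, ha, b, hb, rfl⟩, _, ⟨c, hc, d, hd, rfl⟩, rfl⟩
    exact ⟨a, ha, b, hb, c, hc, d, hd, by simp [mul_assoc]⟩
  · rintro ⟨a, ha, b, hb, c, hc, d, hd, rfl⟩
    exact ⟨a * b, ⟨a, ha, b, hb, rfl⟩, c * d, ⟨c, hc, d, hd, rfl⟩, by simp [mul_assoc]⟩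

theorem hasLength_two {M : Type} [Monoid M] (G : Submonoid M) (pos neg : Set M)
    (hp : pos ⊆ G) (hn : neg ⊆ G)
    (h2 : ∀ g ∈ G, ∃ a ∈ Submonoid.closure pos, ∃ b ∈ Submonoid.closure neg,
      ∃ c ∈ Submonoid.closure pos, ∃ d ∈ Submonoid.closure neg, g = a * b * c * d)
    (h1 : ∃ g ∈ G, ∀ a ∈ Submonoid.closure pos, ∀ b ∈ Submonoid.closure neg, g ≠ a * b) :
    HasLength (G : Set M) pos neg 2 := by
  have hp' : Submonoid.closure pos ≤ G := Submonoid.closure_le.2 hp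
  have hn' : Submonoid.closure neg ≤ G := Submonoid.closure_le.2 hn
  refine ⟨⟨by norm_num, ?_⟩, ?_⟩
  · ext g
    rw [mem_sq]
    constructor
    · rintro ⟨a, ha, b, hb, c, hc, d, hd, rfl⟩
      exact mul_mem (mul_mem (mul_mem (hp' ha) (hn' hb)) (hp' hc)) (hn' hd)
    · exact h2 g
  · rintro m ⟨hm, h⟩
    by_contra hlt
    obtain rfl : m = 1 := by omega
    obtain ⟨g, hg, hne⟩ := h1
    rw [pow_one] at h
    have : g ∈ (Submonoid.closure pos : Set M) * (Submonoid.closure neg : Set M) := by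
      rw [h]; exact hg
    obtain ⟨a, ha, b, hb, e⟩ := this
    exact hne a ha b hb e.symm

/-- a coordinate fixed by all generators on one side forces a diagonal entry to be one -/
theorem not_mul_of_row {ι : Type} [Fintype ι] [DecidableEq ι] (s : Set (Matrix ι ι ℤ)) (k : ι)
    (hs : ∀ g ∈ s, ∀ j, g k j = if k = j then 1 else 0) {a b : Matrix ι ι ℤ}
    (ha : a ∈ Submonoid.closure s) (hb : b ∈ Submonoid.closure (transpose '' s)) :
    (a * b) k k = 1 := by
  have key : ∀ g ∈ Submonoid.closure s, ∀ j, g k j = if k = j then 1 else 0 := by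
    intro g hg
    induction hg using Submonoid.closure_induction with
    | mem A hA => exact hs A hA
    | one => intro j; rw [one_apply]
    | mul A B _ _ hA hB => intro j; simp [mul_apply, hA, hB]
  have hb' := transpose_mem_closure hb
  rw [Set.image_image] at hb'
  simp only [transpose_transpose, Set.image_id'] at hb'
  have := key _ hb' k
  simp only [transpose_apply, if_true] at this
  simp [mul_apply, key a ha, this]

theorem closure_posA (n : ℕ) : Submonoid.closure (posA n) = Um (· < ·) := by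
  unfold Um posA
  congr 1
  ext g
  constructor
  · rintro ⟨i, j, t, h, rfl⟩
    exact ⟨i, j, t, h.ne, h, rfl⟩
  · rintro ⟨i, j, t, -, h, rfl⟩
    exact ⟨i, j, t, h, rfl⟩

theorem closure_negA (n : ℕ) : Submonoid.closure (transpose '' posA n) = Um (flip (· < ·)) := by
  unfold Um posA
  congr 1
  ext g
  constructor
  · rintro ⟨_, ⟨i, j, t, h, rfl⟩, rfl⟩
    exact ⟨j, i, t, h.ne', h, by simp [transvection, transpose_single]⟩
  · rintro ⟨i, j, t, -, h, rfl⟩
    exact ⟨_, ⟨j, i, t, h, rfl⟩, by simp [transvection, transpose_single]⟩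

theorem typeA {l : ℕ} (hl : 68 ≤ l) :
    HasLength {g | g.det = 1} (posA (l + 1)) (transpose '' posA (l + 1)) 2 := by
  let G : Submonoid (Matrix (Fin (l + 1)) (Fin (l + 1)) ℤ) :=
    { carrier := {g | g.det = 1}
      mul_mem' := fun {a b} ha hb => by
        simp only [Set.mem_ofPred_eq] at *; rw [det_mul, ha, hb, one_mul]
      one_mem' := det_one }
  have hp : posA (l + 1) ⊆ G := by
    rintro _ ⟨i, j, t, h, rfl⟩
    exact det_transvection_of_ne i j h.ne t
  have hn : transpose '' posA (l + 1) ⊆ G := by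
    rintro _ ⟨g, hg, rfl⟩
    exact (det_transpose g).trans (hp hg)
  refine hasLength_two G _ _ hp hn (fun g hg => ?_) ?_
  · obtain ⟨a, ha, b, hb, c, hc, d, hd, e⟩ := typeA_fin (by omega) g hg
    rw [closure_posA, closure_negA]
    exact ⟨a, ha, b, hb, c, hc, d, hd, by simpa using e⟩
  · have h0 : (0 : Fin (l + 1)) < Fin.last l := by rw [Fin.lt_def]; simp; omega
    refine ⟨(1 + single 0 (Fin.last l) 1)ᵀ * (1 + single 0 (Fin.last l) 1),
      mul_mem (hn ⟨_, ⟨_, _, 1, h0, rfl⟩, rfl⟩) (hp ⟨_, _, 1, h0, rfl⟩), fun a ha b hb e => ?_⟩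
    have := not_mul_of_row _ (Fin.last l) ?_ ha hb
    · rw [← e] at this
      simp [transpose_single, add_mul, mul_add, h0.ne, h0.ne'] at this
    · rintro _ ⟨i, j, t, h, rfl⟩ k
      have : i ≠ Fin.last l := (lt_of_lt_of_le h (Fin.le_last _)).ne
      simp [one_apply, this]

section C

variable {l : ℕ}

theorem levi_pos {u : Matrix (Fin l) (Fin l) ℤ} (hu : u ∈ Um (· < ·)) :
    ∃ w, u * w = 1 ∧ w * u = 1 ∧ fromBlocks u 0 0 wᵀ ∈ Submonoid.closure (posC l) := by
  induction hu using Submonoid.closure_induction with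
  | mem A hA =>
    obtain ⟨i, j, c, hij, hr, rfl⟩ := hA
    refine ⟨transvection i j (-c), by simp [transvection_mul_transvection_same _ _ hij],
      by simp [transvection_mul_transvection_same _ _ hij],
      Submonoid.subset_closure ⟨i, j, c, Or.inl ⟨hr, ?_⟩⟩⟩
    simp [transvection, transpose_single, sub_eq_add_neg, single_neg]
  | one => exact ⟨1, by simp, by simp, by rw [transpose_one, fromBlocks_one]; exact one_mem _⟩
  | mul A B _ _ hA hB =>
    obtain ⟨A', h2, h3, h1⟩ := hA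
    obtain ⟨B', h5, h6, h4⟩ := hB
    refine ⟨B' * A', ?_, ?_, ?_⟩
    · calc A * B * (B' * A') = A * (B * B') * A' := by noncomm_ring
        _ = 1 := by rw [h5, mul_one, h2]
    · calc B' * A' * (A * B) = B' * (A' * A) * B := by noncomm_ring
        _ = 1 := by rw [h3, mul_one, h6]
    · have := mul_mem h1 h4
      simpa [fromBlocks_multiply] using this

theorem Um_transpose {ι : Type} [Fintype ι] [DecidableEq ι] {r : ι → ι → Prop}
    {u : Matrix ι ι ℤ} (hu : u ∈ Um (flip r)) : uᵀ ∈ Um r := by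
  induction hu using Submonoid.closure_induction with
  | mem A hA =>
    obtain ⟨i, j, c, hij, hr, rfl⟩ := hA
    exact Submonoid.subset_closure ⟨j, i, c, hij.symm, hr, by simp [transvection, transpose_single]⟩
  | one => rw [transpose_one]; exact one_mem _
  | mul A B _ _ hA hB => rw [transpose_mul]; exact mul_mem hB hA

theorem levi_neg {u : Matrix (Fin l) (Fin l) ℤ} (hu : u ∈ Um (flip (· < ·))) :
    ∃ w, u * w = 1 ∧ w * u = 1 ∧
      fromBlocks u 0 0 wᵀ ∈ Submonoid.closure (transpose '' posC l) := by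
  obtain ⟨w, h1, h2, h3⟩ := levi_pos (Um_transpose hu)
  refine ⟨wᵀ, ?_, ?_, ?_⟩
  · simpa using congrArg transpose h2
  · simpa using congrArg transpose h1
  · simpa [fromBlocks_transpose] using transpose_mem_closure h3

theorem sym_pos {X : Matrix (Fin l) (Fin l) ℤ} (hX : Xᵀ = X) :
    fromBlocks 1 X 0 1 ∈ Submonoid.closure (posC l) := by
  let S : AddSubmonoid (Matrix (Fin l) (Fin l) ℤ) :=
    { carrier := {X | fromBlocks 1 X 0 1 ∈ Submonoid.closure (posC l)}
      zero_mem' := by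
        simp only [Set.mem_ofPred_eq]; rw [fromBlocks_one]; exact one_mem _
      add_mem' := fun {a b} ha hb => by
        simp only [Set.mem_ofPred_eq] at *
        have := mul_mem ha hb
        simpa [fromBlocks_multiply, add_comm] using this }
  have h1 : ∀ i t, single i i t ∈ S := fun i t =>
    Submonoid.subset_closure ⟨i, i, t, Or.inr (Or.inr rfl)⟩
  have h2 : ∀ Z : Matrix (Fin l) (Fin l) ℤ, Z + Zᵀ ∈ S := by
    intro Z
    induction Z using Matrix.induction_on' with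
    | h_zero => simpa using S.zero_mem
    | h_add X Y hX hY =>
      have : X + Y + (X + Y)ᵀ = (X + Xᵀ) + (Y + Yᵀ) := by rw [transpose_add]; abel
      rw [this]; exact add_mem hX hY
    | h_std_basis i j c =>
      rw [transpose_single]
      rcases lt_trichotomy i j with h | rfl | h
      · exact Submonoid.subset_closure ⟨i, j, c, Or.inr (Or.inl ⟨h, rfl⟩)⟩
      · exact add_mem (h1 _ _) (h1 _ _)
      · rw [add_comm]; exact Submonoid.subset_closure ⟨j, i, c, Or.inr (Or.inl ⟨h, rfl⟩)⟩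
  have h3 : (∑ i, single i i (X i i)) ∈ S := sum_mem fun i _ => h1 _ _
  have := add_mem (h2 (of fun i j => if i < j then X i j else 0)) h3
  have e : X = (of fun i j => if i < j then X i j else 0) +
      (of fun i j => if i < j then X i j else 0)ᵀ + ∑ i, single i i (X i i) := by
    ext i j
    have hs : X j i = X i j := by simpa using congrFun (congrFun hX i) j
    rcases lt_trichotomy i j with h | rfl | h
    · simp [Matrix.sum_apply, single_apply, h, h.not_gt, ite_and, h.ne]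
    · simp [Matrix.sum_apply, single_apply]
    · simp [Matrix.sum_apply, single_apply, h, h.not_gt, ite_and, h.ne', hs]
  rw [← e] at this
  exact this

theorem sym_neg {X : Matrix (Fin l) (Fin l) ℤ} (hX : Xᵀ = X) :
    fromBlocks 1 0 X 1 ∈ Submonoid.closure (transpose '' posC l) := by
  simpa [fromBlocks_transpose, hX] using transpose_mem_closure (sym_pos hX)

theorem posC_subset : posC l ⊆ symplecticGroup (Fin l) ℤ := by
  rintro _ ⟨i, j, t, ⟨h, rfl⟩ | ⟨h, rfl⟩ | rfl⟩ <;>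
    rw [SetLike.mem_coe, SymplecticGroup.fromBlocks_mem_iff]
  · refine ⟨by simp, by simp, ?_⟩
    simp [transpose_single, mul_sub, add_mul, h.ne, h.ne']
  · simp [transpose_single, add_comm]
  · simp [transpose_single]

theorem typeC_prod (hl : 69 ≤ l) (g : Matrix (Fin l ⊕ Fin l) (Fin l ⊕ Fin l) ℤ)
    (hg : g ∈ symplecticGroup (Fin l) ℤ) :
    ∃ a ∈ Submonoid.closure (posC l), ∃ b ∈ Submonoid.closure (transpose '' posC l),
      ∃ c ∈ Submonoid.closure (posC l), ∃ d ∈ Submonoid.closure (transpose '' posC l),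
        g = a * b * c * d := by
  obtain ⟨k, rfl⟩ : ∃ k, l = k + 3 := ⟨l - 3, by omega⟩
  rw [← fromBlocks_toBlocks g] at hg ⊢
  generalize g.toBlocks₁₁ = a at *
  generalize g.toBlocks₁₂ = b at *
  generalize g.toBlocks₂₁ = c at *
  generalize g.toBlocks₂₂ = d at *
  obtain ⟨X, Y, hX, hY, hT⟩ := symplectic_chain a b c d hg
  obtain ⟨T, eT⟩ : ∃ T, T = a + X * c + (b + X * d) * Y := ⟨_, rfl⟩
  rw [← eT] at hT
  obtain ⟨u₁, a1, u₂, a2, u₃, a3, u₄, a4, e⟩ := typeA_fin hl T hT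
  rw [mul_one] at e
  obtain ⟨w₁, b1, c1, d1⟩ := levi_pos a1
  obtain ⟨w₂, b2, c2, d2⟩ := levi_neg a2
  obtain ⟨w₃, b3, c3, d3⟩ := levi_pos a3
  obtain ⟨w₄, b4, c4, d4⟩ := levi_neg a4
  obtain ⟨Ti, eTi⟩ : ∃ Ti, Ti = w₄ * w₃ * w₂ * w₁ := ⟨_, rfl⟩
  have h1 : T * Ti = 1 := by
    calc T * Ti = u₁ * (u₂ * (u₃ * (u₄ * w₄) * w₃) * w₂) * w₁ := by rw [e, eTi]; noncomm_ring
      _ = 1 := by rw [b4, mul_one, b3, mul_one, b2, mul_one, b1]
  have h2 : Ti * T = 1 := mul_eq_one_comm.1 h1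
  have h1' : Tiᵀ * Tᵀ = 1 := by simpa using congrArg transpose h1
  have h2' : Tᵀ * Tiᵀ = 1 := by simpa using congrArg transpose h2
  have hsub : Submonoid.closure (posC (k + 3)) ≤ symplecticGroup _ ℤ :=
    Submonoid.closure_le.2 posC_subset
  have hg' : fromBlocks T (b + X * d) (c + d * Y) d ∈ symplecticGroup (Fin (k + 3)) ℤ := by
    have h3 := SymplecticGroup.transpose_mem (hsub (sym_pos hY))
    have := mul_mem (mul_mem (hsub (sym_pos hX)) hg) h3
    simpa [fromBlocks_transpose, hY, fromBlocks_multiply, eT] using this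
  have hg'' := SymplecticGroup.transpose_mem hg'
  rw [fromBlocks_transpose] at hg''
  rw [schur_identity a b c d X Y T Ti eT h1 h2]
  generalize b + X * d = b' at *
  generalize c + d * Y = c' at *
  obtain ⟨s1, -, s3⟩ := SymplecticGroup.fromBlocks_mem_iff.1 hg'
  obtain ⟨s4, -, -⟩ := SymplecticGroup.fromBlocks_mem_iff.1 hg''
  simp only [transpose_transpose] at s4
  have hC : (c' * Ti)ᵀ = c' * Ti := by
    calc (c' * Ti)ᵀ = Tiᵀ * c'ᵀ * (T * Ti) := by rw [h1, mul_one, transpose_mul]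
      _ = Tiᵀ * (c'ᵀ * T) * Ti := by noncomm_ring
      _ = (Tiᵀ * Tᵀ) * c' * Ti := by rw [← s1]; noncomm_ring
      _ = _ := by rw [h1', one_mul]
  have hB : (Ti * b')ᵀ = Ti * b' := by
    calc (Ti * b')ᵀ = (Ti * T) * b'ᵀ * Tiᵀ := by rw [h2, one_mul, transpose_mul]
      _ = Ti * (T * b'ᵀ) * Tiᵀ := by noncomm_ring
      _ = Ti * b' * (Tᵀ * Tiᵀ) := by rw [s4]; noncomm_ring
      _ = _ := by rw [h2', mul_one]
  have hS : d - c' * Ti * b' = Tiᵀ := by
    calc d - c' * Ti * b' = (Tiᵀ * Tᵀ) * (d - c' * Ti * b') := by rw [h1', one_mul]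
      _ = Tiᵀ * (Tᵀ * d - (Tᵀ * c') * Ti * b') := by noncomm_ring
      _ = Tiᵀ * (Tᵀ * d - c'ᵀ * (T * Ti) * b') := by rw [s1]; noncomm_ring
      _ = _ := by rw [h1, mul_one, s3, mul_one]
  rw [hS]
  generalize c' * Ti = C at *
  generalize Ti * b' = B at *
  refine ⟨fromBlocks 1 (-X) 0 1 * fromBlocks u₁ 0 0 w₁ᵀ,
    mul_mem (sym_pos (by rw [transpose_neg, hX])) d1,
    fromBlocks 1 0 (u₁ᵀ * C * u₁) 1 * fromBlocks u₂ 0 0 w₂ᵀ,
    mul_mem (sym_neg (by simp [hC, Matrix.mul_assoc])) d2,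
    fromBlocks u₃ 0 0 w₃ᵀ * fromBlocks 1 (u₄ * B * u₄ᵀ) 0 1,
    mul_mem d3 (sym_pos (by simp [hB, Matrix.mul_assoc])),
    fromBlocks u₄ 0 0 w₄ᵀ * fromBlocks 1 0 (-Y) 1,
    mul_mem d4 (sym_neg (by rw [transpose_neg, hY])), ?_⟩
  have b1' : w₁ᵀ * u₁ᵀ = 1 := by simpa using congrArg transpose b1
  have c4' : u₄ᵀ * w₄ᵀ = 1 := by simpa using congrArg transpose c4
  have e1 : fromBlocks 1 0 C 1 * fromBlocks u₁ 0 0 w₁ᵀ
      = fromBlocks u₁ 0 0 w₁ᵀ * fromBlocks 1 0 (u₁ᵀ * C * u₁) 1 := by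
    simp only [fromBlocks_multiply, Matrix.one_mul, Matrix.mul_one, Matrix.zero_mul,
      Matrix.mul_zero, add_zero, zero_add]
    rw [← Matrix.mul_assoc, ← Matrix.mul_assoc, b1', Matrix.one_mul]
  have e2 : fromBlocks u₄ 0 0 w₄ᵀ * fromBlocks 1 B 0 1
      = fromBlocks 1 (u₄ * B * u₄ᵀ) 0 1 * fromBlocks u₄ 0 0 w₄ᵀ := by
    simp only [fromBlocks_multiply, Matrix.one_mul, Matrix.mul_one, Matrix.zero_mul,
      Matrix.mul_zero, add_zero, zero_add]
    rw [Matrix.mul_assoc _ u₄ᵀ, c4', Matrix.mul_one]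
  have e3 : fromBlocks T 0 0 Tiᵀ
      = fromBlocks u₁ 0 0 w₁ᵀ * fromBlocks u₂ 0 0 w₂ᵀ * fromBlocks u₃ 0 0 w₃ᵀ *
        fromBlocks u₄ 0 0 w₄ᵀ := by
    simp only [fromBlocks_multiply, Matrix.zero_mul, Matrix.mul_zero, add_zero, zero_add]
    rw [e, eTi]
    simp [Matrix.mul_assoc]
  rw [e3]
  calc _ = fromBlocks 1 (-X) 0 1 * (fromBlocks 1 0 C 1 * fromBlocks u₁ 0 0 w₁ᵀ) *
        fromBlocks u₂ 0 0 w₂ᵀ * fromBlocks u₃ 0 0 w₃ᵀ *
        (fromBlocks u₄ 0 0 w₄ᵀ * fromBlocks 1 B 0 1) * fromBlocks 1 0 (-Y) 1 := by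
        simp only [Matrix.mul_assoc]
    _ = _ := by rw [e1, e2]; simp only [Matrix.mul_assoc]

theorem typeC (hl : 69 ≤ l) :
    HasLength (symplecticGroup (Fin l) ℤ : Set (Matrix (Fin l ⊕ Fin l) (Fin l ⊕ Fin l) ℤ))
      (posC l) (transpose '' posC l) 2 := by
  have hn : transpose '' posC l ⊆ symplecticGroup (Fin l) ℤ := by
    rintro _ ⟨g, hg, rfl⟩
    exact SymplecticGroup.transpose_mem (posC_subset hg)
  refine hasLength_two _ _ _ posC_subset hn (typeC_prod hl) ?_
  let z : Fin l := ⟨0, by omega⟩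
  refine ⟨(fromBlocks 1 (single z z 1) 0 1)ᵀ * fromBlocks 1 (single z z 1) 0 1,
    mul_mem (hn ⟨_, ⟨z, z, 1, Or.inr (Or.inr rfl)⟩, rfl⟩)
      (posC_subset ⟨z, z, 1, Or.inr (Or.inr rfl)⟩), fun a ha b hb e => ?_⟩
  have := not_mul_of_row _ (Sum.inr z) ?_ ha hb
  · rw [← e] at this
    simp [fromBlocks_transpose, fromBlocks_multiply, transpose_single] at this
  · rintro _ ⟨i, j, t, ⟨h, rfl⟩ | ⟨h, rfl⟩ | rfl⟩ (k | k)
    · simp
    · have : j ≠ z := by
        rintro rfl
        exact absurd h (by simp [Fin.lt_def, z])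
      simp [one_apply, this]
    · simp
    · simp [one_apply]
    · simp
    · simp [one_apply]

end C

end Pool.Agent.Lib.MP_755cca_al
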