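import Pool.Agent.Lib.MP_755cca_al.Par
import Pool.Agent.Lib.MP_755cca_al.TypeC

/-! The parabolic subgroup with Levi factor of type A in the spin groups. -/

open scoped Pointwise

namespace Pool.Agent.Lib.MP_755cca_al

variable {R : Type} [Ring R] {l : ℕ} {e f : Fin l → R}

/-- the Levi factor -/
def Lv (e f : Fin l → R) : Submonoid R :=
  Submonoid.closure {g | ∃ (p q : Fin l) (t : ℤ), p ≠ q ∧ g = 1 + t • (e p * f q)}

/-- its positive part -/
def UL (e f : Fin l → R) : Submonoid R :=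
  Submonoid.closure {g | ∃ (p q : Fin l) (t : ℤ), p < q ∧ g = 1 + t • (e p * f q)}

theorem mem_Lv {p q : Fin l} (hpq : p ≠ q) (t : ℤ) : 1 + t • (e p * f q) ∈ Lv e f :=
  Submonoid.subset_closure ⟨p, q, t, hpq, rfl⟩

theorem Lv_le (h : CAR e f) : Lv f e ≤ Lv e f := by
  refine Submonoid.closure_le.2 ?_
  rintro _ ⟨p, q, t, hpq, rfl⟩
  rw [h.fe hpq.symm, smul_neg, ← neg_smul]
  exact mem_Lv hpq.symm _

theorem Lv_symm (h : CAR e f) : Lv f e = Lv e f := le_antisymm (Lv_le h) (Lv_le h.symm)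

theorem UL_le : UL e f ≤ Lv e f :=
  Submonoid.closure_mono fun _ ⟨p, q, t, h, hg⟩ => ⟨p, q, t, h.ne, hg⟩

/-- the span of the creation operators -/
def Wsp (e : Fin l → R) : Submodule ℤ R := Submodule.span ℤ (Set.range e)

theorem mem_Wsp (i : Fin l) : e i ∈ Wsp e := Submodule.subset_span ⟨i, rfl⟩

theorem Wsp_anti (h : CAR e f) {a b : R} (ha : a ∈ Wsp e) (hb : b ∈ Wsp e) :
    a * b = -(b * a) := by
  induction ha using Submodule.span_induction with
  | mem a ha =>
    obtain ⟨i, rfl⟩ := ha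
    induction hb using Submodule.span_induction with
    | mem b hb => obtain ⟨j, rfl⟩ := hb; exact h.ee i j
    | zero => simp
    | add b c _ _ h1 h2 => rw [mul_add, add_mul, h1, h2, neg_add]
    | smul t b _ h1 => rw [mul_smul_comm, smul_mul_assoc, h1, smul_neg]
  | zero => simp
  | add b c _ _ h1 h2 => rw [mul_add, add_mul, h1, h2, neg_add]
  | smul t b _ h1 => rw [mul_smul_comm, smul_mul_assoc, h1, smul_neg]

theorem Wsp_sq (h : CAR e f) {a : R} (ha : a ∈ Wsp e) : a * a = 0 := by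
  induction ha using Submodule.span_induction with
  | mem a ha => obtain ⟨i, rfl⟩ := ha; exact h.e0 i
  | zero => simp
  | add b c hb hc h1 h2 => rw [mul_add, add_mul, add_mul, h1, h2, Wsp_anti h hb hc]; abel
  | smul t b _ h1 => rw [mul_smul_comm, smul_mul_assoc, h1, smul_zero, smul_zero]

theorem Wsp_conj (h : CAR e f) {p q : Fin l} (hpq : p ≠ q) (t : ℤ) {a : R}
    (ha : a ∈ Wsp e) : (1 + t • (e p * f q)) * a * (1 + (-t) • (e p * f q)) ∈ Wsp e := by
  induction ha using Submodule.span_induction with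
  | mem a ha =>
    obtain ⟨i, rfl⟩ := ha
    rw [h.conj_e hpq]
    exact add_mem (mem_Wsp _) (Submodule.smul_mem _ _ (mem_Wsp _))
  | zero => simp
  | add b c _ _ h1 h2 => rw [mul_add (_ + _) b, add_mul (_ * b)]; exact add_mem h1 h2
  | smul s b _ h1 => rw [mul_smul_comm s, smul_mul_assoc s]; exact Submodule.smul_mem _ _ h1

/-- generators of the unipotent radical, type D -/
def genD (e : Fin l → R) : Set R := {g | ∃ a ∈ Wsp e, ∃ b ∈ Wsp e, g = 1 + a * b}

/-- generators of the unipotent radical, type B -/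
def genB (e : Fin l → R) : Set R := genD e ∪ {g | ∃ a ∈ Wsp e, g = 1 + a}

theorem conj_one_add {x x' : R} (h1 : x * x' = 1) (a : R) :
    x * (1 + a) * x' = 1 + x * a * x' := by
  rw [mul_add, add_mul, mul_one, h1]

theorem conj_mul' {x x' : R} (h2 : x' * x = 1) (a b : R) :
    x * (a * b) * x' = (x * a * x') * (x * b * x') := by
  calc x * (a * b) * x' = x * a * (x' * x) * b * x' := by rw [h2]; noncomm_ring
    _ = _ := by noncomm_ring

theorem norm_aux (h : CAR e f) (s : Set R)
    (hs : ∀ x x' : R, x * x' = 1 → x' * x = 1 → (∀ a ∈ Wsp e, x * a * x' ∈ Wsp e) →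
      ∀ n ∈ s, x * n * x' ∈ s) : Norm (Lv e f) (Submonoid.closure s) := by
  refine Norm.of_gens ?_
  rintro _ ⟨p, q, t, hpq, rfl⟩
  obtain ⟨h1, h2⟩ := sq_zero_inv (h.sq_ef hpq) t
  refine ⟨_, h1, h2, fun n hn => ⟨Submonoid.subset_closure (hs _ _ h1 h2 ?_ n hn),
    Submonoid.subset_closure (hs _ _ h2 h1 ?_ n hn)⟩⟩
  · exact fun a ha => Wsp_conj h hpq t ha
  · intro a ha
    have := Wsp_conj h hpq (-t) ha
    rwa [neg_neg] at this

theorem genD_conj {x x' : R} (h1 : x * x' = 1) (h2 : x' * x = 1)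
    (h3 : ∀ a ∈ Wsp e, x * a * x' ∈ Wsp e) : ∀ n ∈ genD e, x * n * x' ∈ genD e := by
  rintro _ ⟨a, ha, b, hb, rfl⟩
  exact ⟨_, h3 a ha, _, h3 b hb, by rw [conj_one_add h1, conj_mul' h2]⟩

theorem norm_D (h : CAR e f) : Norm (Lv e f) (Submonoid.closure (genD e)) :=
  norm_aux h _ fun _ _ => genD_conj

theorem norm_B (h : CAR e f) : Norm (Lv e f) (Submonoid.closure (genB e)) := by
  refine norm_aux h _ fun x x' h1 h2 h3 n hn => ?_
  rcases hn with hn | ⟨a, ha, rfl⟩
  · exact Or.inl (genD_conj h1 h2 h3 n hn)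
  · exact Or.inr ⟨_, h3 a ha, conj_one_add h1 a⟩

theorem genD_le (h : CAR e f) : genD e ⊆ Submonoid.closure (rootsD e f) := by
  rintro _ ⟨a, ha, b, hb, rfl⟩
  have key : ∀ t : ℤ, 1 + t • (a * b) ∈ Submonoid.closure (rootsD e f) := by
    induction ha using Submodule.span_induction with
    | mem a ha =>
      obtain ⟨i, rfl⟩ := ha
      induction hb using Submodule.span_induction with
      | mem b hb =>
        obtain ⟨j, rfl⟩ := hb
        intro t
        rcases lt_trichotomy i j with hij | rfl | hij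
        · exact Submonoid.subset_closure ⟨i, j, t, hij, Or.inr rfl⟩
        · rw [h.e0, smul_zero, add_zero]; exact one_mem _
        · rw [h.ee, smul_neg, ← neg_smul]
          exact Submonoid.subset_closure ⟨j, i, -t, hij, Or.inr rfl⟩
      | zero => intro t; simpa using one_mem _
      | add b c hb hc h1 h2 =>
        intro t
        have h3 : e i * b * (e i * c) = 0 := by
          calc e i * b * (e i * c) = e i * (b * e i) * c := by noncomm_ring
            _ = -((e i * e i) * b * c) := by rw [Wsp_anti h hb (mem_Wsp i)]; noncomm_ring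
            _ = 0 := by rw [h.e0]; simp
        have := mul_mem (h1 t) (h2 t)
        simp only [mul_add, add_mul, one_mul, mul_one, smul_mul_assoc, mul_smul_comm, h3,
          smul_zero, add_zero] at this
        rwa [mul_add, smul_add, ← add_assoc]
      | smul s b _ h1 => intro t; rw [mul_smul_comm, ← mul_smul]; exact h1 _
    | zero => intro t; simpa using one_mem _
    | add a c ha hc h1 h2 =>
      intro t
      have h3 : a * b * (c * b) = 0 := by
        calc a * b * (c * b) = a * (b * c) * b := by noncomm_ring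
          _ = -(a * c * (b * b)) := by rw [Wsp_anti h hb hc]; noncomm_ring
          _ = 0 := by rw [Wsp_sq h hb]; simp
      have := mul_mem (h1 t) (h2 t)
      simp only [mul_add, add_mul, one_mul, mul_one, smul_mul_assoc, mul_smul_comm, h3,
        smul_zero, add_zero] at this
      rwa [add_mul, smul_add, ← add_assoc]
    | smul s a _ h1 => intro t; rw [smul_mul_assoc, ← mul_smul]; exact h1 _
  simpa using key 1

theorem rootsD_le_B : Submonoid.closure (rootsD e f) ≤ Submonoid.closure (rootsB e f) :=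
  Submonoid.closure_mono Set.subset_union_left

theorem genB_le (h : CAR e f) : genB e ⊆ Submonoid.closure (rootsB e f) := by
  rintro _ (hg | ⟨a, ha, rfl⟩)
  · exact rootsD_le_B (genD_le h hg)
  have key : ∀ t : ℤ, 1 + t • a ∈ Submonoid.closure (rootsB e f) := by
    induction ha using Submodule.span_induction with
    | mem a ha =>
      obtain ⟨i, rfl⟩ := ha
      exact fun t => Submonoid.subset_closure (Or.inr ⟨i, t, rfl⟩)
    | zero => intro t; simpa using one_mem _
    | add a c ha hc h1 h2 =>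
      intro t
      have ha' : t • a ∈ Wsp e := Submodule.smul_mem _ _ ha
      have hc' : t • c ∈ Wsp e := Submodule.smul_mem _ _ hc
      have := mul_mem (mul_mem (h1 t) (h2 t))
        (rootsD_le_B (genD_le h ⟨_, hc', _, ha', rfl⟩))
      rw [smul_add]
      generalize t • a = a' at *
      generalize t • c = c' at *
      have e1 : (1 + a') * (1 + c') * (1 + c' * a') = 1 + (a' + c') := by
        have e2 := Wsp_anti h hc' ha'
        have e3 := Wsp_sq h ha'
        have e4 := Wsp_sq h hc'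
        calc (1 + a') * (1 + c') * (1 + c' * a')
            = 1 + (a' + c') + a' * c' + c' * a' + a' * (c' * a') + (c' * c') * a'
              + a' * (c' * c') * a' := by noncomm_ring
          _ = 1 + (a' + c') - (a' * a') * c' := by rw [e2, e4]; noncomm_ring
          _ = _ := by rw [e3]; simp
      rwa [e1] at this
    | smul s a _ h1 => intro t; rw [← mul_smul]; exact h1 _
  simpa using key 1

theorem UL_le_D : UL e f ≤ Submonoid.closure (rootsD e f) :=
  Submonoid.closure_mono fun _ ⟨p, q, t, h, hg⟩ => ⟨p, q, t, h, Or.inl hg⟩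

theorem D_subset (h : CAR e f) : (Submonoid.closure (rootsD e f) : Set R) ⊆
    (Submonoid.closure (genD e) : Set R) * UL e f := by
  refine ((norm_D h).mono UL_le).closure_subset ?_
  rintro _ ⟨i, j, t, hij, rfl | rfl⟩
  · exact Or.inr (Submonoid.subset_closure ⟨i, j, t, hij, rfl⟩)
  · exact Or.inl (Submonoid.subset_closure ⟨t • e i, Submodule.smul_mem _ _ (mem_Wsp i), e j,
      mem_Wsp j, by rw [smul_mul_assoc]⟩)

theorem B_subset (h : CAR e f) : (Submonoid.closure (rootsB e f) : Set R) ⊆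
    (Submonoid.closure (genB e) : Set R) * UL e f := by
  refine ((norm_B h).mono UL_le).closure_subset ?_
  rintro _ (⟨i, j, t, hij, rfl | rfl⟩ | ⟨i, t, rfl⟩)
  · exact Or.inr (Submonoid.subset_closure ⟨i, j, t, hij, rfl⟩)
  · exact Or.inl (Submonoid.subset_closure (Or.inl ⟨t • e i, Submodule.smul_mem _ _ (mem_Wsp i),
      e j, mem_Wsp j, by rw [smul_mul_assoc]⟩))
  · exact Or.inl (Submonoid.subset_closure (Or.inr ⟨t • e i, Submodule.smul_mem _ _ (mem_Wsp i),
      rfl⟩))

/-- the Levi factor has length two -/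
def Lev (e f : Fin l → R) : Prop :=
  (Lv e f : Set R) ⊆ (UL e f : Set R) * (UL f e * ({1} * (UL e f * UL f e)))

theorem siegel_D (h : CAR e f) (hL : Lev e f) :
    (Lv e f : Set R) * (Submonoid.closure (rootsD e f) * (Submonoid.closure (rootsD f e) *
      (Lv e f * (Submonoid.closure (rootsD e f) * Submonoid.closure (rootsD f e))))) ⊆
    Submonoid.closure (rootsD e f) * (Submonoid.closure (rootsD f e) *
      ({1} * (Submonoid.closure (rootsD e f) * Submonoid.closure (rootsD f e)))) :=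
  parabolic (norm_D h) (Lv_symm h ▸ norm_D h.symm) (D_subset h) (D_subset h.symm) UL_le
    (Lv_symm h ▸ UL_le) (Submonoid.closure_le.2 (genD_le h))
    (Submonoid.closure_le.2 (genD_le h.symm)) UL_le_D UL_le_D (by simp) subset_rfl hL

theorem siegel_B (h : CAR e f) (hL : Lev e f) :
    (Lv e f : Set R) * (Submonoid.closure (rootsB e f) * (Submonoid.closure (rootsB f e) *
      (Lv e f * (Submonoid.closure (rootsB e f) * Submonoid.closure (rootsB f e))))) ⊆
    Submonoid.closure (rootsB e f) * (Submonoid.closure (rootsB f e) *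
      ({1} * (Submonoid.closure (rootsB e f) * Submonoid.closure (rootsB f e)))) :=
  parabolic (norm_B h) (Lv_symm h ▸ norm_B h.symm) (B_subset h) (B_subset h.symm) UL_le
    (Lv_symm h ▸ UL_le) (Submonoid.closure_le.2 (genB_le h))
    (Submonoid.closure_le.2 (genB_le h.symm)) (UL_le_D.trans rootsD_le_B)
    (UL_le_D.trans rootsD_le_B) (by simp) subset_rfl hL

/-- left multipliers preserving a set -/
def Stab {M : Type} [Monoid M] (Ω : Set M) : Submonoid M where
  carrier := {x | ∀ y ∈ Ω, x * y ∈ Ω}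
  one_mem' := fun y hy => by rwa [one_mul]
  mul_mem' := fun {a b} ha hb y hy => by rw [mul_assoc]; exact ha _ (hb y hy)

/-- the product `U V U V` -/
def Om {M : Type} [Monoid M] (U V : Submonoid M) : Set M := (U : Set M) * (V * ({1} * (U * V)))

theorem le_Stab_Om {M : Type} [Monoid M] (U V : Submonoid M) : U ≤ Stab (Om U V) := by
  rintro x hx _ ⟨a, ha, b, hb, rfl⟩
  exact ⟨x * a, mul_mem hx ha, b, hb, by simp [mul_assoc]⟩

theorem Om_of_le {M : Type} [Monoid M] {U V G : Submonoid M} (h : G ≤ Stab (Om U V)) :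
    ∀ g ∈ G, ∃ a ∈ U, ∃ b ∈ V, ∃ c ∈ U, ∃ d ∈ V, g = a * b * c * d := by
  intro g hg
  have : g * 1 ∈ Om U V := h hg 1 ⟨1, one_mem _, 1, ⟨1, one_mem _, 1, ⟨1, rfl, 1,
    ⟨1, one_mem _, 1, one_mem _, by simp⟩, by simp⟩, by simp⟩, by simp⟩
  obtain ⟨a, ha, _, ⟨b, hb, _, ⟨_, rfl, _, ⟨c, hc, d, hd, rfl⟩, rfl⟩, rfl⟩, e⟩ := this
  exact ⟨a, ha, b, hb, c, hc, d, hd, by simpa [mul_assoc] using e.symm⟩

theorem le_Stab_of {M : Type} [Monoid M] {U V L : Submonoid M}
    (h : (L : Set M) * (U * (V * (L * (U * V)))) ⊆ U * (V * ({1} * (U * V)))) :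
    L ≤ Stab (Om U V) := by
  intro x hx y hy
  refine h ⟨x, hx, y, ?_, rfl⟩
  have : ({1} : Set M) ⊆ L := by simp
  have h2 : Om U V ⊆ U * (V * (L * (U * V))) := by unfold Om; gcongr
  exact h2 hy

theorem move (h : CAR e f) {p q : Fin l} (hpq : p ≠ q) :
    ∃ w ∈ Lv e f, ∃ w' ∈ Lv e f, w * w' = 1 ∧ w' * w = 1 ∧ w * f p * w' = -f q ∧
      ∀ r, r ≠ p → r ≠ q → w * f r * w' = f r := by
  obtain ⟨a1, a2⟩ := sq_zero_inv (h.sq_ef hpq) 1
  obtain ⟨b1, b2⟩ := sq_zero_inv (h.sq_ef hpq.symm) (-1)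
  have c1 := h.conj_f hpq 1
  have c2 := h.conj_f hpq.symm (-1)
  have m1 : 1 + (1 : ℤ) • (e p * f q) ∈ Lv e f := mem_Lv hpq _
  have m2 : 1 + (-1 : ℤ) • (e p * f q) ∈ Lv e f := mem_Lv hpq _
  have m3 : 1 + (-1 : ℤ) • (e q * f p) ∈ Lv e f := mem_Lv hpq.symm _
  have m4 : 1 + (- -1 : ℤ) • (e q * f p) ∈ Lv e f := mem_Lv hpq.symm _
  generalize 1 + (1 : ℤ) • (e p * f q) = x at *
  generalize 1 + (-1 : ℤ) • (e p * f q) = x' at *
  generalize 1 + (-1 : ℤ) • (e q * f p) = y at *
  generalize 1 + (- -1 : ℤ) • (e q * f p) = y' at *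
  refine ⟨y * x, mul_mem m3 m1, x' * y', mul_mem m2 m4, ?_, ?_, ?_, fun r h1 h2 => ?_⟩
  · calc y * x * (x' * y') = y * (x * x') * y' := by noncomm_ring
      _ = 1 := by rw [a1, mul_one, b1]
  · calc x' * y' * (y * x) = x' * (y' * y) * x := by noncomm_ring
      _ = 1 := by rw [b2, mul_one, a2]
  · calc y * x * f p * (x' * y') = y * (x * f p * x') * y' := by noncomm_ring
      _ = y * f p * y' - y * f q * y' := by rw [c1]; simp [mul_sub, sub_mul]
      _ = _ := by rw [c2, c2]; simp [hpq]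
  · calc y * x * f r * (x' * y') = y * (x * f r * x') * y' := by noncomm_ring
      _ = y * f r * y' := by rw [c1]; simp [h1]
      _ = _ := by rw [c2]; simp [h2]

theorem move_pair (h : CAR e f) {S : Submonoid R} (hS : Lv e f ≤ S) {p q r : Fin l}
    (hpq : p ≠ q) (h1 : r ≠ p) (h2 : r ≠ q) (h3 : ∀ t : ℤ, 1 + t • (f r * f p) ∈ S) (t : ℤ) :
    1 + t • (f r * f q) ∈ S := by
  obtain ⟨w, hw, w', hw', a1, a2, a3, a4⟩ := move h hpq
  have := mul_mem (mul_mem (hS hw) (h3 (-t))) (hS hw')
  rwa [conj_one_add a1, mul_smul_comm, smul_mul_assoc, conj_mul' a2, a3, a4 r h1 h2, mul_neg,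
    smul_neg, neg_smul, neg_neg] at this

theorem move_one (h : CAR e f) {S : Submonoid R} (hS : Lv e f ≤ S) {p q : Fin l}
    (hpq : p ≠ q) (h3 : ∀ t : ℤ, 1 + t • f p ∈ S) (t : ℤ) : 1 + t • f q ∈ S := by
  obtain ⟨w, hw, w', hw', a1, -, a3, -⟩ := move h hpq
  have := mul_mem (mul_mem (hS hw) (h3 (-t))) (hS hw')
  rwa [conj_one_add a1, mul_smul_comm, smul_mul_assoc, a3, smul_neg, neg_smul, neg_neg] at this

end Pool.Agent.Lib.MP_755cca_al
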