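import Pool.Agent.Lib.MP_755cca_al.TypeC

/-! The rank two symplectic group, and matrix units from two pairs of fermions. -/

open Matrix

namespace Pool.Agent.Lib.MP_755cca_al

/-- the form -/
def J4 : Matrix (Fin 4) (Fin 4) ℤ := !![0, 0, 0, 1; 0, 0, 1, 0; 0, -1, 0, 0; -1, 0, 0, 0]

/-- unipotent radical of the stabiliser of a line -/
def up4 (x y z : ℤ) : Matrix (Fin 4) (Fin 4) ℤ :=
  !![1, x, y, z; 0, 1, 0, y; 0, 0, 1, -x; 0, 0, 0, 1]

/-- the opposite radical -/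
def lo4 (x y z : ℤ) : Matrix (Fin 4) (Fin 4) ℤ :=
  !![1, 0, 0, 0; x, 1, 0, 0; y, 0, 1, 0; z, y, -x, 1]

/-- the Levi factor -/
def mid4 (a b c d : ℤ) : Matrix (Fin 4) (Fin 4) ℤ :=
  !![1, 0, 0, 0; 0, a, b, 0; 0, c, d, 0; 0, 0, 0, 1]

/-- the symplectic monoid -/
def Sp4 : Submonoid (Matrix (Fin 4) (Fin 4) ℤ) where
  carrier := {g | g * J4 * gᵀ = J4}
  one_mem' := by simp
  mul_mem' := fun {a b} ha hb => by
    simp only [Set.mem_ofPred_eq, transpose_mul] at *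
    calc a * b * J4 * (bᵀ * aᵀ) = a * (b * J4 * bᵀ) * aᵀ := by noncomm_ring
      _ = J4 := by rw [hb, ha]

theorem up4_mem (x y z : ℤ) : up4 x y z ∈ Sp4 := by
  change up4 x y z * J4 * (up4 x y z)ᵀ = J4
  ext i j
  fin_cases i <;> fin_cases j <;> simp [up4, J4, mul_apply, Fin.sum_univ_four] <;> ring

theorem lo4_mem (x y z : ℤ) : lo4 x y z ∈ Sp4 := by
  change lo4 x y z * J4 * (lo4 x y z)ᵀ = J4
  ext i j
  fin_cases i <;> fin_cases j <;> simp [lo4, J4, mul_apply, Fin.sum_univ_four] <;> ring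

theorem mid4_mem {a b c d : ℤ} (h : a * d - b * c = 1) : mid4 a b c d ∈ Sp4 := by
  change mid4 a b c d * J4 * (mid4 a b c d)ᵀ = J4
  ext i j
  fin_cases i <;> fin_cases j <;> simp [mid4, J4, mul_apply, Fin.sum_univ_four] <;>
    linarith

theorem up4_inv (x y z : ℤ) : up4 (-x) (-y) (-z) * up4 x y z = 1 := by
  ext i j
  fin_cases i <;> fin_cases j <;> simp [up4, mul_apply, Fin.sum_univ_four] <;> ring

theorem lo4_inv (x y z : ℤ) : lo4 (-x) (-y) (-z) * lo4 x y z = 1 := by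
  ext i j
  fin_cases i <;> fin_cases j <;> simp [lo4, mul_apply, Fin.sum_univ_four] <;> ring

theorem mid4_mul (a b c d a' b' c' d' : ℤ) : mid4 a b c d * mid4 a' b' c' d'
    = mid4 (a * a' + b * c') (a * b' + b * d') (c * a' + d * c') (c * b' + d * d') := by
  ext i j
  fin_cases i <;> fin_cases j <;> simp [mid4, mul_apply, Fin.sum_univ_four]

theorem sp4_one (h : Matrix (Fin 4) (Fin 4) ℤ) (hh : h ∈ Sp4) (h0 : h 0 0 = 1) :
    ∃ a b c d, a * d - b * c = 1 ∧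
      lo4 (-h 1 0) (-h 2 0) (-h 3 0) * h * up4 (-h 0 1) (-h 0 2) (-h 0 3) = mid4 a b c d := by
  have hk := mul_mem (mul_mem (lo4_mem (-h 1 0) (-h 2 0) (-h 3 0)) hh)
    (up4_mem (-h 0 1) (-h 0 2) (-h 0 3))
  obtain ⟨k, ek⟩ : ∃ k, k = lo4 (-h 1 0) (-h 2 0) (-h 3 0) * h * up4 (-h 0 1) (-h 0 2) (-h 0 3) :=
    ⟨_, rfl⟩
  have r0 : k 0 0 = 1 ∧ k 0 1 = 0 ∧ k 0 2 = 0 ∧ k 0 3 = 0 ∧ k 1 0 = 0 ∧ k 2 0 = 0 ∧ k 3 0 = 0 := by
    simp only [ek, mul_apply, Fin.sum_univ_four]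
    simp [lo4, up4, h0]
    constructor <;> ring
  rw [← ek] at hk ⊢
  clear ek
  obtain ⟨a0, a1, a2, a3, a4, a5, a6⟩ := r0
  have hk' : k * J4 * kᵀ = J4 := hk
  have e01 := congrFun (congrFun hk' 0) 1
  have e02 := congrFun (congrFun hk' 0) 2
  have e03 := congrFun (congrFun hk' 0) 3
  have e12 := congrFun (congrFun hk' 1) 2
  have e13 := congrFun (congrFun hk' 1) 3
  have e23 := congrFun (congrFun hk' 2) 3
  simp [J4, mul_apply, Fin.sum_univ_four, a0, a1, a2, a3, a4, a5, a6] at e01 e02 e03 e12 e13 e23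
  have b1 : k 3 1 = 0 := by
    linear_combination (-k 3 1) * e12 + (k 2 1) * e13 - (k 1 1) * e23
  have b2 : k 3 2 = 0 := by
    linear_combination (-k 3 2) * e12 + (k 2 2) * e13 - (k 1 2) * e23
  refine ⟨k 1 1, k 1 2, k 2 1, k 2 2, by linarith, ?_⟩
  ext i j
  fin_cases i <;> fin_cases j <;> simp [mid4, *]

theorem sp4_decomp (g : Matrix (Fin 4) (Fin 4) ℤ) (hg : g ∈ Sp4) :
    ∃ x₁ y₁ z₁ x₂ y₂ z₂ a b c d x₃ y₃ z₃ x₄ y₄ z₄, a * d - b * c = 1 ∧
      g = up4 x₁ y₁ z₁ * (lo4 x₂ y₂ z₂ * (mid4 a b c d * (up4 x₃ y₃ z₃ * lo4 x₄ y₄ z₄))) := by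
  have hg' : g * J4 * gᵀ = J4 := hg
  have hJ : J4 * -J4 = 1 := by
    ext i j
    fin_cases i <;> fin_cases j <;> simp [J4, mul_apply, Fin.sum_univ_four]
  have h1 : g * (J4 * gᵀ * -J4) = 1 := by
    rw [← Matrix.mul_assoc, ← Matrix.mul_assoc, hg', hJ]
  have h2 := mul_eq_one_comm.1 h1
  generalize J4 * gᵀ * -J4 = g' at h2
  obtain ⟨x, w, hx⟩ := sr_mat (i := (0 : Fin 3)) (j := 1) (by decide) (fun j => g 0 j.succ)
    (of fun i j : Fin 3 => g i.succ j.succ) (fun z => by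
      let z' : Fin 4 → ℤ := Fin.cons 0 z
      refine ⟨(z' ᵥ* g') 0, fun i => (z' ᵥ* g') i.succ, ?_⟩
      ext j
      have : ((z' ᵥ* g') ᵥ* g) j.succ = z j := by rw [vecMul_vecMul, h2, vecMul_one]; rfl
      rw [← this]
      generalize z' ᵥ* g' = u
      simp [vecMul, dotProduct, Fin.sum_univ_succ])
  obtain ⟨s, hs⟩ : ∃ s, s = 1 - (g 0 0 + x 0 * g 1 0 + x 1 * g 2 0 + x 2 * g 3 0) := ⟨_, rfl⟩
  have hh := mul_mem (mul_mem (up4_mem (x 0) (x 1) (x 2)) hg)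
    (lo4_mem (s * w 0) (s * w 1) (s * w 2))
  have h0 : (up4 (x 0) (x 1) (x 2) * g * lo4 (s * w 0) (s * w 1) (s * w 2)) 0 0 = 1 := by
    simp [vecMul, dotProduct, Fin.sum_univ_succ] at hx
    simp only [mul_apply, Fin.sum_univ_four]
    simp [lo4, up4]
    linear_combination s * hx + hs
  obtain ⟨a, b, c, d, h3, h4⟩ := sp4_one _ hh h0
  obtain ⟨h, eh⟩ : ∃ h, h = up4 (x 0) (x 1) (x 2) * g * lo4 (s * w 0) (s * w 1) (s * w 2) :=
    ⟨_, rfl⟩
  rw [← eh] at h4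
  refine ⟨-x 0, -x 1, -x 2, - -h 1 0, - -h 2 0, - -h 3 0, a, b, c, d, - -h 0 1, - -h 0 2,
    - -h 0 3, -(s * w 0), -(s * w 1), -(s * w 2), h3, ?_⟩
  rw [← h4]
  have i1 := lo4_inv (-h 1 0) (-h 2 0) (-h 3 0)
  have i2 := mul_eq_one_comm.1 (up4_inv (-h 0 1) (-h 0 2) (-h 0 3))
  have i3 := up4_inv (x 0) (x 1) (x 2)
  have i4 := mul_eq_one_comm.1 (lo4_inv (s * w 0) (s * w 1) (s * w 2))
  generalize lo4 (- -h 1 0) (- -h 2 0) (- -h 3 0) = A at *
  generalize lo4 (-h 1 0) (-h 2 0) (-h 3 0) = A' at *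
  generalize up4 (- -h 0 1) (- -h 0 2) (- -h 0 3) = B at *
  generalize up4 (-h 0 1) (-h 0 2) (-h 0 3) = B' at *
  rw [eh]
  calc g = (up4 (-x 0) (-x 1) (-x 2) * up4 (x 0) (x 1) (x 2)) * g *
        (lo4 (s * w 0) (s * w 1) (s * w 2) * lo4 (-(s * w 0)) (-(s * w 1)) (-(s * w 2))) := by
        rw [i3, i4]; simp
    _ = up4 (-x 0) (-x 1) (-x 2) * (A * A') * up4 (x 0) (x 1) (x 2) * g *
        lo4 (s * w 0) (s * w 1) (s * w 2) * (B' * B) *
        lo4 (-(s * w 0)) (-(s * w 1)) (-(s * w 2)) := by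
        rw [i1, i2]; simp only [mul_one, mul_assoc]
    _ = _ := by simp only [mul_assoc]

theorem mid4_gen {S : Submonoid (Matrix (Fin 4) (Fin 4) ℤ)} (h1 : ∀ t, mid4 1 t 0 1 ∈ S)
    (h2 : ∀ t, mid4 1 0 t 1 ∈ S) {a b c d : ℤ} (h : a * d - b * c = 1) : mid4 a b c d ∈ S := by
  have key : ∀ γ : SpecialLinearGroup (Fin 2) ℤ,
      mid4 (γ.1 0 0) (γ.1 0 1) (γ.1 1 0) (γ.1 1 1) ∈ S := by
    intro γ
    have hγ : γ ∈ Subgroup.closure {ModularGroup.S, ModularGroup.T} := by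
      rw [SpecialLinearGroup.SL2Z_generators]; trivial
    induction hγ using Subgroup.closure_induction'' with
    | mem x hx =>
      rcases hx with rfl | rfl
      · simpa [mid4_mul, ModularGroup.S] using mul_mem (mul_mem (h1 (-1)) (h2 1)) (h1 (-1))
      · simpa [ModularGroup.T] using h1 1
    | inv_mem x hx =>
      rcases hx with rfl | rfl
      · simpa [mid4_mul, ModularGroup.S, SpecialLinearGroup.SL2_inv_expl]
          using mul_mem (mul_mem (h1 1) (h2 (-1))) (h1 1)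
      · simpa [ModularGroup.T, SpecialLinearGroup.SL2_inv_expl] using h1 (-1)
    | one => simpa using h1 0
    | mul x y _ _ hx hy =>
      have := mul_mem hx hy
      rw [mid4_mul] at this
      have e : (x * y).1 = x.1 * y.1 := rfl
      simpa [e, mul_apply, Fin.sum_univ_two] using this
  exact key ⟨!![a, b; c, d], by simpa [det_fin_two] using h⟩

section Units

variable {R : Type} [Ring R]

/-- the homomorphism given by a system of matrix units -/
def unitsHom {ι : Type} [Fintype ι] [DecidableEq ι] (E : ι → ι → R)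
    (h1 : ∀ a k j b, E a k * E j b = if k = j then E a b else 0) (h2 : ∑ a, E a a = 1) :
    Matrix ι ι ℤ →* R where
  toFun M := ∑ a, ∑ b, M a b • E a b
  map_one' := by simp [one_apply, h2]
  map_mul' M N := by
    rw [Finset.sum_mul]
    refine Finset.sum_congr rfl fun a _ => ?_
    simp only [mul_apply, Finset.sum_smul]
    rw [Finset.sum_comm, Finset.sum_mul]
    refine Finset.sum_congr rfl fun k _ => ?_
    simp only [Finset.mul_sum, smul_mul_assoc, mul_smul_comm, h1, smul_ite, smul_zero]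
    rw [Finset.sum_comm]
    simp only [Finset.sum_ite_eq, Finset.mem_univ, if_true, ← mul_smul, mul_comm]

theorem unitsHom_add {ι : Type} [Fintype ι] [DecidableEq ι] (E : ι → ι → R) (h1) (h2)
    (M : Matrix ι ι ℤ) : unitsHom E h1 h2 (1 + M) = 1 + ∑ a, ∑ b, M a b • E a b := by
  rw [← map_one (unitsHom E h1 h2)]
  simp [unitsHom, add_mul, Finset.sum_add_distrib]

/-- two pairs of fermions -/
structure Ferm (a b c d : R) : Prop where
  aa : a * a = 0
  bb : b * b = 0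
  cc : c * c = 0
  dd : d * d = 0
  ba : b * a = -(a * b)
  dc : d * c = -(c * d)
  ca : c * a = 1 - a * c
  db : d * b = 1 - b * d
  cb : c * b = -(b * c)
  da : d * a = -(a * d)

theorem exists_Phi {a b c d : R} (h : Ferm a b c d) :
    ∃ Φ : Matrix (Fin 4) (Fin 4) ℤ →* R,
      (∀ t : ℤ, Φ (up4 t 0 0) = 1 + (-t) • b) ∧ (∀ t : ℤ, Φ (up4 0 t 0) = 1 + t • a) ∧
      (∀ t : ℤ, Φ (up4 0 0 t) = 1 + t • (a * b)) ∧ (∀ t : ℤ, Φ (mid4 1 t 0 1) = 1 + t • (a * d)) ∧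
      (∀ t : ℤ, Φ (lo4 t 0 0) = 1 + (-t) • d) ∧ (∀ t : ℤ, Φ (lo4 0 t 0) = 1 + t • c) ∧
      (∀ t : ℤ, Φ (lo4 0 0 t) = 1 + (-t) • (c * d)) ∧
      (∀ t : ℤ, Φ (mid4 1 0 t 1) = 1 + (-t) • (c * b)) := by
  have aa : ∀ x, a * (a * x) = 0 := fun x => by rw [← mul_assoc, h.aa, zero_mul]
  have bb : ∀ x, b * (b * x) = 0 := fun x => by rw [← mul_assoc, h.bb, zero_mul]
  have cc : ∀ x, c * (c * x) = 0 := fun x => by rw [← mul_assoc, h.cc, zero_mul]
  have dd : ∀ x, d * (d * x) = 0 := fun x => by rw [← mul_assoc, h.dd, zero_mul]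
  have ba : ∀ x, b * (a * x) = -(a * (b * x)) := fun x => by
    rw [← mul_assoc, h.ba, neg_mul, mul_assoc]
  have dc : ∀ x, d * (c * x) = -(c * (d * x)) := fun x => by
    rw [← mul_assoc, h.dc, neg_mul, mul_assoc]
  have cb : ∀ x, c * (b * x) = -(b * (c * x)) := fun x => by
    rw [← mul_assoc, h.cb, neg_mul, mul_assoc]
  have da : ∀ x, d * (a * x) = -(a * (d * x)) := fun x => by
    rw [← mul_assoc, h.da, neg_mul, mul_assoc]
  have ca : ∀ x, c * (a * x) = x - a * (c * x) := fun x => by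
    rw [← mul_assoc, h.ca, sub_mul, one_mul, mul_assoc]
  have db : ∀ x, d * (b * x) = x - b * (d * x) := fun x => by
    rw [← mul_assoc, h.db, sub_mul, one_mul, mul_assoc]
  obtain ⟨h1, h2, h3, h4, h5, h6, h7, h8, h9, h10⟩ := h
  let A : Fin 4 → R := ![a * b, a, b, 1]
  let B : Fin 4 → R := ![d * c, c, d, 1]
  let p : R := c * a * (d * b)
  have key : ∀ k j, p * B k * (A j * p) = if k = j then p else 0 := by
    intro k j
    fin_cases k <;> fin_cases j <;>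
      simp [A, B, p, mul_assoc, mul_sub, sub_mul, mul_add, add_mul, *] <;> abel
  have E1 : ∀ i k j m, A i * p * B k * (A j * p * B m)
      = if k = j then A i * p * B m else 0 := by
    intro i k j m
    calc A i * p * B k * (A j * p * B m) = A i * (p * B k * (A j * p)) * B m := by noncomm_ring
      _ = _ := by rw [key]; split_ifs <;> simp
  have E2 : ∑ i, A i * p * B i = 1 := by
    simp [Fin.sum_univ_four, A, B, p, mul_assoc, mul_sub, sub_mul, mul_add, add_mul, *]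
    abel
  have val : ∀ M N : Matrix (Fin 4) (Fin 4) ℤ, M = 1 + N →
      unitsHom (fun i j => A i * p * B j) E1 E2 M = 1 + ∑ i, ∑ j, N i j • (A i * p * B j) := by
    rintro _ N rfl
    exact unitsHom_add _ _ _ _
  refine ⟨unitsHom (fun i j => A i * p * B j) E1 E2, fun t => ?_, fun t => ?_, fun t => ?_,
    fun t => ?_, fun t => ?_, fun t => ?_, fun t => ?_, fun t => ?_⟩
  all_goals
    rw [val _ _ (eq_add_of_sub_eq' rfl)]
    simp [Fin.sum_univ_four, up4, lo4, mid4, one_apply, A, B, p, mul_assoc, mul_sub, sub_mul,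
      mul_add, add_mul, *]
    try abel

end Units

end Pool.Agent.Lib.MP_755cca_al
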