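import Pool.Agent.Lib.MP_755cca_al.Basic
import Pool.Agent.Lib.MP_755cca_al.Arith
import Pool.Agent.Lib.MP_755cca_al.BG

/-! Every integer matrix of determinant one and size at least 69 is a product of four
unitriangular matrices. -/

open Matrix
open scoped Pointwise

namespace Pool.Agent.Lib.MP_755cca_al

section step

variable {μ : Type} [Fintype μ] [DecidableEq μ]

/-- a row -/
def rowM (x : μ → ℤ) : Matrix Unit μ ℤ := of fun _ j => x j

/-- a column -/
def colM (x : μ → ℤ) : Matrix μ Unit ℤ := of fun i _ => x i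

/-- a matrix with a distinguished first row and column -/
def blk (a : ℤ) (b c : μ → ℤ) (d : Matrix μ μ ℤ) : Matrix (Unit ⊕ μ) (Unit ⊕ μ) ℤ :=
  fromBlocks (of fun _ _ => a) (rowM b) (colM c) d

omit [Fintype μ] [DecidableEq μ] in
theorem exists_blk (g : Matrix (Unit ⊕ μ) (Unit ⊕ μ) ℤ) : ∃ a b c d, g = blk a b c d :=
  ⟨g (.inl ()) (.inl ()), fun j => g (.inl ()) (.inr j), fun i => g (.inr i) (.inl ()),
    g.toBlocks₂₂, by ext (i | i) (j | j) <;> rfl⟩

theorem step_vec (s : μ → μ → Prop) (a : ℤ) (b c : μ → ℤ) (d : Matrix μ μ ℤ) (x y : μ → ℤ)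
    (h : a + x ⬝ᵥ c + (b + x ᵥ* d) ⬝ᵥ y = 1) :
    (d - vecMulVec (c + d *ᵥ y) (b + x ᵥ* d)).det = (blk a b c d).det ∧
    ∀ S', Leads s (d - vecMulVec (c + d *ᵥ y) (b + x ᵥ* d)) S' →
      Leads (Sum.Lex (fun _ _ : Unit => False) s) (blk a b c d) (fromBlocks 1 0 0 S') := by
  have hT : (1 : Matrix Unit Unit ℤ) = (of fun _ _ => a) + rowM x * colM c
      + (rowM b + rowM x * d) * colM y := by
    ext i j
    rw [one_apply_eq' (Subsingleton.elim i j), ← h]
    rfl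
  have hS : d - (colM c + d * colM y) * (1 : Matrix Unit Unit ℤ) * (rowM b + rowM x * d)
      = d - vecMulVec (c + d *ᵥ y) (b + x ᵥ* d) := by
    rw [Matrix.mul_one]
    congr 1
    ext i j
    rw [Matrix.mul_apply, Finset.univ_unique, Finset.sum_singleton]
    rfl
  constructor
  · rw [blk, schur_det _ _ _ _ _ _ 1 1 hT (by simp) (by simp), hS]; simp
  · intro S' hS'
    refine schur_leads _ _ _ _ _ _ 1 1 hT (by simp) (by simp) (Leads.refl _ _) ?_
    rwa [hS]
where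
  one_apply_eq' {i j : Unit} (h : i = j) : (1 : Matrix Unit Unit ℤ) i j = 1 := by
    subst h; exact one_apply_eq _

theorem blk_rows {a : ℤ} {b c : μ → ℤ} {d : Matrix μ μ ℤ} (hg : IsUnit (blk a b c d).det)
    (z₀ : ℤ) (z : μ → ℤ) :
    ∃ (t₀ : ℤ) (t : μ → ℤ), t₀ * a + t ⬝ᵥ c = z₀ ∧ t₀ • b + t ᵥ* d = z := by
  let v := Sum.elim (fun _ : Unit => z₀) z ᵥ* (blk a b c d)⁻¹
  have hv : v ᵥ* blk a b c d = Sum.elim (fun _ : Unit => z₀) z := by
    rw [vecMul_vecMul, nonsing_inv_mul _ hg, vecMul_one]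
  refine ⟨v (.inl ()), fun i => v (.inr i), ?_, funext fun j => ?_⟩
  · have := congrFun hv (.inl ())
    simpa [vecMul, dotProduct, blk, rowM, colM] using this
  · have := congrFun hv (.inr j)
    simpa [vecMul, dotProduct, blk, rowM, colM] using this

theorem blk_cols {a : ℤ} {b c : μ → ℤ} {d : Matrix μ μ ℤ} (hg : IsUnit (blk a b c d).det)
    (z₀ : ℤ) (z : μ → ℤ) :
    ∃ (t₀ : ℤ) (t : μ → ℤ), a * t₀ + b ⬝ᵥ t = z₀ ∧ t₀ • c + d *ᵥ t = z := by
  let v := (blk a b c d)⁻¹ *ᵥ Sum.elim (fun _ : Unit => z₀) z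
  have hv : blk a b c d *ᵥ v = Sum.elim (fun _ : Unit => z₀) z := by
    rw [mulVec_mulVec, mul_nonsing_inv _ hg, one_mulVec]
  refine ⟨v (.inl ()), fun i => v (.inr i), ?_, funext fun j => ?_⟩
  · have := congrFun hv (.inl ())
    simpa [mulVec, dotProduct, blk, rowM, colM] using this
  · have := congrFun hv (.inr j)
    simpa [mulVec, dotProduct, blk, rowM, colM, mul_comm] using this

theorem step_generic (s : μ → μ → Prop) {i j : μ} (hij : i ≠ j)
    (g : Matrix (Unit ⊕ μ) (Unit ⊕ μ) ℤ) (hg : IsUnit g.det) :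
    ∃ S : Matrix μ μ ℤ, S.det = g.det ∧ ∀ S', Leads s S S' →
      Leads (Sum.Lex (fun _ _ : Unit => False) s) g (fromBlocks 1 0 0 S') := by
  obtain ⟨a, b, c, d, rfl⟩ := exists_blk g
  obtain ⟨x, w, hw⟩ := sr_mat hij b d fun z => by
    obtain ⟨t₀, t, -, h⟩ := blk_rows hg 0 z
    exact ⟨t₀, t, h⟩
  exact ⟨_, step_vec s a b c d x ((1 - a - x ⬝ᵥ c) • w) (by
    rw [dotProduct_smul, hw]; simp)⟩

theorem step_transvection (s : μ → μ → Prop) (h : Matrix μ μ ℤ) (hh : IsUnit h.det)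
    {τ : Matrix μ μ ℤ} (hτ : τ ∈ Tv μ) (S' : Matrix μ μ ℤ) (hS : Leads s (h * τ) S') :
    Leads (Sum.Lex (fun _ _ : Unit => False) s) (fromBlocks 1 0 0 h) (fromBlocks 1 0 0 S') := by
  obtain ⟨y, z, hz, rfl⟩ := hτ
  have e : z ᵥ* h⁻¹ ᵥ* h = z := by rw [vecMul_vecMul, nonsing_inv_mul _ hh, vecMul_one]
  have h1 := (step_vec s 1 0 0 h (z ᵥ* h⁻¹) (-y) (by simp [e, hz])).2 S' (by
    have : h - vecMulVec (0 + h *ᵥ (-y)) (0 + z ᵥ* h⁻¹ ᵥ* h) = h * (1 + vecMulVec y z) := by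
      rw [e, zero_add, zero_add, Matrix.mul_add, Matrix.mul_one, mul_vecMulVec, mulVec_neg,
        neg_vecMulVec, sub_neg_eq_add]
    rwa [this])
  have e2 : blk 1 0 0 h = fromBlocks 1 0 0 h := by
    ext (i | i) (j | j) <;> simp [blk, rowM, colM]
  rwa [e2] at h1

end step

/-- adding a first index -/
def stepE (n : ℕ) : Unit ⊕ Fin n ≃ Fin (n + 1) where
  toFun := Sum.elim (fun _ => 0) Fin.succ
  invFun := Fin.cases (.inl ()) .inr
  left_inv := by rintro (i | i) <;> simp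
  right_inv i := by refine Fin.cases ?_ (fun i => ?_) i <;> simp

theorem stepE_lt {n : ℕ} (i j : Unit ⊕ Fin n)
    (h : Sum.Lex (fun _ _ : Unit => False) (· < ·) i j) : stepE n i < stepE n j := by
  cases h with
  | inl h => exact h.elim
  | inr h => simpa [stepE] using h
  | sep a b => simp [stepE]

/-- the lower right corner of size one less -/
def step (n : ℕ) : Matrix (Fin n) (Fin n) ℤ →* Matrix (Fin (n + 1)) (Fin (n + 1)) ℤ where
  toFun A := reindex (stepE n) (stepE n) (fromBlocks 1 0 0 A)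
  map_one' := by rw [fromBlocks_one]; simp
  map_mul' A B := by rw [← reindex_mul]; simp [fromBlocks_multiply]

theorem step_apply (n : ℕ) (A : Matrix (Fin n) (Fin n) ℤ) :
    step n A = reindex (stepE n) (stepE n) (fromBlocks 1 0 0 A) := rfl

theorem det_step (n : ℕ) (A : Matrix (Fin n) (Fin n) ℤ) : (step n A).det = A.det := by
  rw [step_apply, det_reindex_self, det_fromBlocks_zero₂₁]; simp

theorem step_Tv {n : ℕ} {τ : Matrix (Fin n) (Fin n) ℤ} (hτ : τ ∈ Tv (Fin n)) :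
    step n τ ∈ Tv (Fin (n + 1)) := by
  obtain ⟨y, z, hz, rfl⟩ := hτ
  refine ⟨Fin.cons 0 y, Fin.cons 0 z, by simpa [dotProduct, Fin.sum_univ_succ] using hz, ?_⟩
  ext i j
  refine Fin.cases ?_ (fun i => ?_) i <;> refine Fin.cases ?_ (fun j => ?_) j <;>
    simp [step_apply, stepE, vecMulVec_apply, one_apply, (Fin.succ_ne_zero _).symm]

theorem step_fin {n : ℕ} (hn : 2 ≤ n) (g : Matrix (Fin (n + 1)) (Fin (n + 1)) ℤ)
    (hg : IsUnit g.det) : ∃ S : Matrix (Fin n) (Fin n) ℤ, S.det = g.det ∧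
      ∀ S', Leads (· < ·) S S' → Leads (· < ·) g (step n S') := by
  obtain ⟨S, h1, h2⟩ := step_generic (μ := Fin n) (· < ·) (i := ⟨0, by omega⟩) (j := ⟨1, by omega⟩)
    (by simp) (reindex (stepE n).symm (stepE n).symm g) (by rwa [det_reindex_self])
  refine ⟨S, by rw [h1, det_reindex_self], fun S' hS' => ?_⟩
  have := Leads.reindex (s := (· < ·)) (stepE n) stepE_lt (h2 S' hS')
  simpa [step_apply] using this

/-- the lower right corner of size three -/
def corner : ∀ N : ℕ, Matrix (Fin 3) (Fin 3) ℤ →* Matrix (Fin (3 + N)) (Fin (3 + N)) ℤ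
  | 0 => MonoidHom.id _
  | N + 1 => (step (3 + N)).comp (corner N)

theorem corner_succ (N : ℕ) (A : Matrix (Fin 3) (Fin 3) ℤ) :
    corner (N + 1) A = step (3 + N) (corner N A) := rfl

theorem det_corner (N : ℕ) (A : Matrix (Fin 3) (Fin 3) ℤ) : (corner N A).det = A.det := by
  induction N with
  | zero => rfl
  | succ N ih => exact (det_step (3 + N) _).trans ih

theorem corner_Tv (N : ℕ) {τ : Matrix (Fin 3) (Fin 3) ℤ} (hτ : τ ∈ Tv (Fin 3)) :
    corner N τ ∈ Tv (Fin (3 + N)) := by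
  induction N with
  | zero => exact hτ
  | succ N ih => exact step_Tv ih

theorem leads_corner (N : ℕ) : ∀ (g : Matrix (Fin (3 + N)) (Fin (3 + N)) ℤ), IsUnit g.det →
    ∃ a b c d, a * d - b * c = g.det ∧ Leads (· < ·) g (corner N (emb 1 a b c d)) := by
  induction N with
  | zero =>
    intro g hg
    obtain ⟨S, h1, h2⟩ := step_fin (n := 2) le_rfl g hg
    refine ⟨S 0 0, S 0 1, S 1 0, S 1 1, by rw [← det_fin_two]; exact h1, ?_⟩
    have e : step 2 S = emb 1 (S 0 0) (S 0 1) (S 1 0) (S 1 1) := by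
      ext i j
      fin_cases i <;> fin_cases j <;> rfl
    have := h2 S (Leads.refl _ _)
    rwa [e] at this
  | succ N ih =>
    intro g hg
    obtain ⟨S, h1, h2⟩ := step_fin (n := 3 + N) (by omega) g hg
    obtain ⟨a, b, c, d, h3, h4⟩ := ih S (by rw [h1]; exact hg)
    exact ⟨a, b, c, d, h3.trans h1, h2 _ h4⟩

theorem corner_leads_mul (N : ℕ) : ∀ (h w : Matrix (Fin 3) (Fin 3) ℤ), IsUnit h.det →
    w ∈ Tv (Fin 3) ^ N → Leads (· < ·) (corner N h) (corner N (h * w)) := by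
  induction N with
  | zero =>
    intro h w _ hw
    rw [pow_zero, Set.mem_one] at hw
    rw [hw, Matrix.mul_one]
    exact Leads.refl _ _
  | succ N ih =>
    intro h w hh hw
    rw [pow_succ'] at hw
    obtain ⟨τ, hτ, w', hw', rfl⟩ := hw
    obtain ⟨τ', -, hτ'⟩ := Tv_inv hτ
    have hτd : IsUnit τ.det := isUnit_det_of_left_inverse hτ'
    have h1 := ih (h * τ) w' (by rw [det_mul]; exact hh.mul hτd) hw'
    rw [map_mul (corner N) h τ] at h1
    have h2 := step_transvection (· < ·) (corner N h) (by rwa [det_corner]) (corner_Tv N hτ) _ h1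
    have h3 := Leads.reindex (s := (· < ·)) (stepE (3 + N)) stepE_lt h2
    rw [Matrix.mul_assoc] at h3
    exact h3

theorem W_mono {ι : Type} [Fintype ι] [DecidableEq ι] {m n : ℕ} (h : m ≤ n)
    {g : Matrix ι ι ℤ} (hg : g ∈ Tv ι ^ m) : g ∈ Tv ι ^ n := by
  obtain ⟨k, rfl⟩ := Nat.exists_eq_add_of_le h
  simpa using W_mul hg (W_one k)

theorem double_coset {N : ℕ} (hN : 31 ≤ N) (ε ε' η : Matrix (Fin (3 + N)) (Fin (3 + N)) ℤ)
    (h1 : ε * ε' = 1) (hd : ε.det * η.det = 1) :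
    ∃ S T, Leads (· < ·) S 1 ∧ Leads (· < ·) T 1 ∧ S * ε' * T = η := by
  obtain ⟨a, b, c, d, e1, u₁, a1, v₁, a2, u₂, a3, v₂, a4, hε⟩ :=
    leads_corner N ε (IsUnit.of_mul_eq_one _ hd)
  obtain ⟨a', b', c', d', e2, u₁', b1, v₁', b2, u₂', b3, v₂', b4, hη⟩ :=
    leads_corner N η (IsUnit.of_mul_eq_one_right _ hd)
  rw [← e1, ← e2] at hd
  set δ := a' * d' - b' * c' with hδ
  have hinv : emb 1 (δ * d) (-(δ * b)) (-(δ * c)) (δ * a) * emb 1 a b c d = 1 := by
    rw [emb_mul, show (1 : Matrix (Fin 3) (Fin 3) ℤ) = emb 1 1 0 0 1 by simp [emb, one_fin_three]]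
    congr 1 <;> first | ring1 | linear_combination hd
  set hi := emb 1 (δ * d) (-(δ * b)) (-(δ * c)) (δ * a)
  have hw : emb 1 a b c d * emb 1 a' b' c' d' ∈ Tv (Fin 3) ^ N := by
    rw [emb_mul, mul_one]
    exact W_mono hN (bounded_generation (by linear_combination hd))
  obtain ⟨u₃, c1, v₃, c2, u₄, c3, v₄, c4, hC⟩ :=
    corner_leads_mul N hi _ (isUnit_det_of_right_inverse hinv) hw
  rw [← Matrix.mul_assoc hi, hinv, Matrix.one_mul] at hC
  obtain ⟨u₃i, d1, -, f1⟩ := Um.inv c1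
  obtain ⟨v₃i, d2, -, f2⟩ := Um.inv c2
  obtain ⟨u₄i, d3, f3, -⟩ := Um.inv c3
  obtain ⟨v₄i, d4, f4, -⟩ := Um.inv c4
  obtain ⟨u₁i, -, -, g1⟩ := Um.inv a1
  obtain ⟨v₁i, -, -, g2⟩ := Um.inv a2
  have hci : corner N hi * corner N (emb 1 a b c d) = 1 := by rw [← map_mul, hinv, map_one]
  set H := corner N (emb 1 a b c d)
  set Hi := corner N hi
  set H' := corner N (emb 1 a' b' c' d')
  have k1 : Hi = u₂ * v₂ * ε' * u₁ * v₁ := by
    have k0 : Hi * v₁i * u₁i * ε = u₂ * v₂ := by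
      rw [hε]
      calc Hi * v₁i * u₁i * (u₁ * v₁ * H * u₂ * v₂)
          = Hi * (v₁i * (u₁i * u₁) * v₁) * H * u₂ * v₂ := by simp only [Matrix.mul_assoc]
        _ = u₂ * v₂ := by rw [g1, Matrix.mul_one, g2, Matrix.mul_one, hci, Matrix.one_mul]
    rw [← k0]
    calc Hi = Hi * (v₁i * (u₁i * (ε * ε') * u₁) * v₁) := by
          rw [h1, Matrix.mul_one, g1, Matrix.mul_one, g2, Matrix.mul_one]
      _ = _ := by simp only [Matrix.mul_assoc]
  have k2 : H' = v₃i * u₃i * Hi * v₄i * u₄i := by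
    rw [hC]
    calc H' = (v₃i * (u₃i * u₃) * v₃) * H' * (u₄ * (v₄ * v₄i) * u₄i) := by
          rw [f1, Matrix.mul_one, f2, f4, Matrix.mul_one, f3, Matrix.one_mul, Matrix.mul_one]
      _ = _ := by simp only [Matrix.mul_assoc]
  refine ⟨u₁' * (v₁' * v₃i) * 1 * (u₃i * u₂) * v₂, u₁ * (v₁ * v₄i) * 1 * (u₄i * u₂') * v₂',
    ⟨_, b1, _, mul_mem b2 d2, _, mul_mem d1 a3, _, a4, rfl⟩,
    ⟨_, a1, _, mul_mem a2 d4, _, mul_mem d3 b3, _, b4, rfl⟩, ?_⟩
  rw [hη, k2, k1]
  simp only [Matrix.mul_assoc, Matrix.one_mul]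

theorem even_case {N : ℕ} (hN : 31 ≤ N) (a b c d : Matrix (Fin (3 + N)) (Fin (3 + N)) ℤ)
    (hdet : (fromBlocks a b c d).det = 1) (hprim : ∃ x w, (x ᵥ* d) ⬝ᵥ w = 1) :
    Leads (Sum.Lex (· < ·) (· < ·)) (fromBlocks a b c d) 1 := by
  obtain ⟨X, E, hE⟩ := common_complement b d (fun z => by
    let v := Sum.elim (fun _ => (0 : ℤ)) z ᵥ* (fromBlocks a b c d)⁻¹
    have hv : v ᵥ* fromBlocks a b c d = Sum.elim (fun _ => (0 : ℤ)) z := by
      rw [vecMul_vecMul, nonsing_inv_mul _ (by simp [hdet]), vecMul_one]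
    rw [vecMul_fromBlocks] at hv
    exact ⟨v ∘ Sum.inl, v ∘ Sum.inr, funext fun j => congrFun hv (.inr j)⟩) hprim
  have hE' : (b + X * d) * E = 1 := mul_eq_one_comm.1 hE
  set ε := b + X * d with hε
  have key : ∀ T Ti : Matrix (Fin (3 + N)) (Fin (3 + N)) ℤ, T * Ti = 1 →
      T = a + X * c + ε * (E * (T - (a + X * c))) ∧
      d - (c + d * (E * (T - (a + X * c)))) * Ti * ε
        = -(c - d * E * (a + X * c)) * Ti * ε := by
    intro T Ti hT
    constructor
    · rw [← Matrix.mul_assoc, hE', Matrix.one_mul]; abel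
    · have : d = d * E * (T * Ti) * ε := by
        rw [hT, Matrix.mul_one, Matrix.mul_assoc, hE, Matrix.mul_one]
      nth_rewrite 1 [this]
      noncomm_ring
  set η := -(c - d * E * (a + X * c)) with hη
  have hd : ε.det * η.det = 1 := by
    obtain ⟨k1, k2⟩ := key 1 1 (by simp)
    have := schur_det a b c d X _ 1 1 k1 (by simp) (by simp)
    rw [← hε, k2, hdet] at this
    simpa [det_mul, mul_comm] using this.symm
  obtain ⟨S, T, hS, hT, hST⟩ := double_coset hN ε E η hE' hd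
  have hTd : IsUnit T.det := by rw [hT.det]; simp
  obtain ⟨k1, k2⟩ := key T T⁻¹ (mul_nonsing_inv _ hTd)
  have := schur_leads (r := (· < ·)) (s := (· < ·)) a b c d X _ T T⁻¹ k1 (mul_nonsing_inv _ hTd)
    (nonsing_inv_mul _ hTd) hT (S' := 1) (by
      rw [← hε, k2, ← hST, Matrix.mul_assoc _ T, mul_nonsing_inv _ hTd, Matrix.mul_one,
        Matrix.mul_assoc, hE, Matrix.mul_one]
      exact hS)
  rwa [fromBlocks_one] at this

theorem odd_case {N : ℕ} (hN : 31 ≤ N)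
    (g : Matrix (Unit ⊕ (Fin (3 + N) ⊕ Fin (3 + N))) (Unit ⊕ (Fin (3 + N) ⊕ Fin (3 + N))) ℤ)
    (hdet : g.det = 1) :
    Leads (Sum.Lex (fun _ _ : Unit => False) (Sum.Lex (· < ·) (· < ·))) g 1 := by
  obtain ⟨a, b, c, h, rfl⟩ := exists_blk g
  have hu : IsUnit (blk a b c h).det := by simp [hdet]
  have hij : (⟨0, by omega⟩ : Fin (3 + N)) ≠ ⟨1, by omega⟩ := by simp
  obtain ⟨y, w, hw⟩ := sr_mat hij (c ∘ Sum.inr) (h.submatrix Sum.inr id)ᵀ fun z => by
    obtain ⟨t₀, t, -, ht⟩ := blk_cols hu 0 (Sum.elim 0 z)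
    exact ⟨t₀, t, funext fun j => by
      have := congrFun ht (.inr j)
      rw [vecMul_transpose]
      exact this⟩
  set c' := c + h *ᵥ y with hc'
  let w' : Fin (3 + N) ⊕ Fin (3 + N) → ℤ := Sum.elim 0 w
  have hw' : w' ⬝ᵥ c' = 1 := by
    rw [← hw, vecMul_transpose, dotProduct_comm]
    simp only [dotProduct, Fintype.sum_sum_type, w', Sum.elim_inl, Sum.elim_inr, Pi.zero_apply,
      mul_zero, Finset.sum_const_zero, zero_add]
    rfl
  let h₂ := h.submatrix id Sum.inr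
  let g' := a + b ⬝ᵥ y
  obtain ⟨ξ, w₂, hw₂⟩ := sr_mat hij (b ∘ Sum.inr - g' • (w' ᵥ* h₂))
    (h₂ - vecMulVec c' (w' ᵥ* h₂)) fun z => by
      obtain ⟨t₀, t, e1, e2⟩ := blk_rows hu (-(Sum.elim 0 z ⬝ᵥ y)) (Sum.elim 0 z)
      refine ⟨t₀, t, ?_⟩
      have e3 : t₀ * g' + t ⬝ᵥ c' = 0 := by
        have := congrArg (· ⬝ᵥ y) e2
        simp only [add_dotProduct, smul_dotProduct, smul_eq_mul] at this
        rw [hc', dotProduct_add, dotProduct_mulVec]
        simp only [g']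
        linear_combination e1 + this
      have e4 : t₀ • (b ∘ Sum.inr) + t ᵥ* h₂ = z := funext fun j => congrFun e2 (.inr j)
      rw [vecMul_sub, vecMul_vecMulVec, smul_sub, smul_smul, ← e4]
      have : t ⬝ᵥ c' = -(t₀ * g') := by linear_combination e3
      rw [this, neg_smul]
      abel
  let x := ξ + (1 - g' - ξ ⬝ᵥ c') • w'
  have hx : x ⬝ᵥ c' = 1 - g' := by
    simp only [x, add_dotProduct, smul_dotProduct, hw', smul_eq_mul]; ring
  obtain ⟨k1, k2⟩ := step_vec (Sum.Lex (· < ·) (· < ·)) a b c h x y (by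
    rw [add_dotProduct b, ← dotProduct_mulVec]
    rw [hc', dotProduct_add] at hx
    simp only [g'] at hx
    linear_combination hx)
  rw [← hc'] at k1 k2
  set S := h - vecMulVec c' (b + x ᵥ* h) with hS
  have := k2 1 (by
    rw [← fromBlocks_toBlocks S]
    refine even_case hN _ _ _ _ (by rw [fromBlocks_toBlocks, k1, hdet]) ⟨w, -w₂, ?_⟩
    have e1 : w ᵥ* S.toBlocks₂₂ = (w' ᵥ* S) ∘ Sum.inr := by
      ext j
      simp [vecMul, dotProduct, w', toBlocks₂₂]
    have e2 : ∀ v, (v ᵥ* h) ∘ Sum.inr = v ᵥ* h₂ := fun v => rfl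
    have e3 : w ᵥ* S.toBlocks₂₂ = -(b ∘ Sum.inr - g' • (w' ᵥ* h₂)
        + ξ ᵥ* (h₂ - vecMulVec c' (w' ᵥ* h₂))) := by
      rw [e1, hS, vecMul_sub, vecMul_vecMulVec, hw', one_smul, vecMul_sub, vecMul_vecMulVec,
        Pi.sub_comp, Pi.add_comp, e2, e2]
      simp only [x, add_vecMul, smul_vecMul]
      simp only [sub_smul, one_smul]
      abel
    rw [e3, neg_dotProduct_neg, hw₂])
  rwa [fromBlocks_one] at this

theorem typeA_fin {n : ℕ} (hn : 69 ≤ n) :
    ∀ g : Matrix (Fin n) (Fin n) ℤ, g.det = 1 → Leads (· < ·) g 1 := by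
  induction n, hn using Nat.le_induction with
  | base =>
    intro g hg
    let e : Unit ⊕ (Fin (3 + 31) ⊕ Fin (3 + 31)) ≃ Fin 69 :=
      (Equiv.sumCongr (Equiv.refl _) finSumFinEquiv).trans (stepE 68)
    have he : ∀ i j, Sum.Lex (fun _ _ : Unit => False) (Sum.Lex (· < ·) (· < ·)) i j →
        e i < e j := by
      intro i j h
      refine stepE_lt _ _ ?_
      cases h with
      | inl h => exact h.elim
      | sep a b => exact Sum.Lex.sep _ _
      | inr h =>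
        refine Sum.Lex.inr ?_
        cases h with
        | inl h =>
          simp only [finSumFinEquiv_apply_left, Fin.lt_def, Fin.val_castAdd] at h ⊢
          exact h
        | inr h =>
          simp only [finSumFinEquiv_apply_right, Fin.lt_def, Fin.val_natAdd] at h ⊢
          omega
        | sep a b =>
          simp only [finSumFinEquiv_apply_left, finSumFinEquiv_apply_right, Fin.lt_def,
            Fin.val_castAdd, Fin.val_natAdd]
          omega
    have := Leads.reindex (s := (· < ·)) e he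
      (odd_case (N := 31) le_rfl (reindex e.symm e.symm g) (by rwa [det_reindex_self]))
    simpa using this
  | succ n hn ih =>
    intro g hg
    obtain ⟨S, h1, h2⟩ := step_fin (by omega) g (by simp [hg])
    have := h2 1 (ih S (h1.trans hg))
    rwa [map_one] at this

end Pool.Agent.Lib.MP_755cca_al
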