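import Pool.Agent.Lib.MP_755cca_al.TypeD
import Pool.Agent.Lib.MP_755cca_al.Sp4

/-! Type B. -/

open scoped Pointwise

namespace Pool.Agent.Lib.MP_755cca_al

variable {R : Type} [Ring R] {l : ℕ} {e f : Fin l → R} {m n : Fin l}

/-- positive root elements of the rank two subsystem -/
def genH (e f : Fin l → R) (m n : Fin l) : Set R :=
  {g | ∃ t : ℤ, g = 1 + t • (e m * f n) ∨ g = 1 + t • (e m * e n) ∨ g = 1 + t • e m ∨
    g = 1 + t • e n}

/-- the rank two subgroup -/
def Hs (e f : Fin l → R) (m n : Fin l) : Submonoid R :=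
  Submonoid.closure (genH e f m n ∪ genH f e m n)

theorem Hs_symm : Hs f e m n = Hs e f m n := by unfold Hs; rw [Set.union_comm]

theorem Uh_le : Submonoid.closure (genH e f m n) ≤ Hs e f m n :=
  Submonoid.closure_mono Set.subset_union_left

theorem Vh_le : Submonoid.closure (genH f e m n) ≤ Hs e f m n :=
  Submonoid.closure_mono Set.subset_union_right

theorem ferm (h : CAR e f) (hmn : m ≠ n) : Ferm (e m) (e n) (f m) (f n) where
  aa := h.e0 m
  bb := h.e0 n
  cc := h.f0 m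
  dd := h.f0 n
  ba := h.ee n m
  dc := h.ff n m
  ca := by have := h.ef m m; rw [if_pos rfl, Int.cast_one] at this; exact eq_sub_of_add_eq' this
  db := by have := h.ef n n; rw [if_pos rfl, Int.cast_one] at this; exact eq_sub_of_add_eq' this
  cb := h.fe hmn.symm
  da := h.fe hmn

theorem Hs_subset (h : CAR e f) (hmn : m ≠ n) : (Hs e f m n : Set R) ⊆
    (Submonoid.closure (genH e f m n) : Set R) * (Submonoid.closure (genH f e m n) *
      ((Hs e f m n ⊓ Lv e f : Submonoid R) *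
        (Submonoid.closure (genH e f m n) * Submonoid.closure (genH f e m n)))) := by
  obtain ⟨Φ, p1, p2, p3, p4, q1, q2, q3, q4⟩ := exists_Phi (ferm h hmn)
  have hup : ∀ x y z, Φ (up4 x y z) ∈ Submonoid.closure (genH e f m n) := by
    intro x y z
    have : up4 x y z = up4 x 0 0 * up4 0 y 0 * up4 0 0 (z - x * y) := by
      ext i j
      fin_cases i <;> fin_cases j <;> simp [up4, Matrix.mul_apply, Fin.sum_univ_four]
    rw [this, map_mul, map_mul, p1, p2, p3]
    exact mul_mem (mul_mem (Submonoid.subset_closure ⟨_, Or.inr (Or.inr (Or.inr rfl))⟩)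
      (Submonoid.subset_closure ⟨_, Or.inr (Or.inr (Or.inl rfl))⟩))
      (Submonoid.subset_closure ⟨_, Or.inr (Or.inl rfl)⟩)
  have hlo : ∀ x y z, Φ (lo4 x y z) ∈ Submonoid.closure (genH f e m n) := by
    intro x y z
    have : lo4 x y z = lo4 0 0 (z - x * y) * lo4 0 y 0 * lo4 x 0 0 := by
      ext i j
      fin_cases i <;> fin_cases j <;> simp [lo4, Matrix.mul_apply, Fin.sum_univ_four]
      ring
    rw [this, map_mul, map_mul, q1, q2, q3]
    exact mul_mem (mul_mem (Submonoid.subset_closure ⟨_, Or.inr (Or.inl rfl)⟩)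
      (Submonoid.subset_closure ⟨_, Or.inr (Or.inr (Or.inl rfl))⟩))
      (Submonoid.subset_closure ⟨_, Or.inr (Or.inr (Or.inr rfl))⟩)
  have hmid : ∀ a b c d, a * d - b * c = 1 → Φ (mid4 a b c d) ∈ Hs e f m n ⊓ Lv e f := by
    intro a b c d hd
    refine mid4_gen (S := (Hs e f m n ⊓ Lv e f).comap Φ) (fun t => ?_) (fun t => ?_) hd
    · rw [Submonoid.mem_comap, p4]
      exact ⟨Uh_le (Submonoid.subset_closure ⟨_, Or.inl rfl⟩), mem_Lv hmn _⟩
    · rw [Submonoid.mem_comap, q4]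
      exact ⟨Vh_le (Submonoid.subset_closure ⟨_, Or.inl rfl⟩), Lv_le h (mem_Lv hmn _)⟩
  have hle : Hs e f m n ≤ Sp4.map Φ := by
    refine Submonoid.closure_le.2 ?_
    rintro _ (⟨t, rfl | rfl | rfl | rfl⟩ | ⟨t, rfl | rfl | rfl | rfl⟩)
    · exact ⟨_, mid4_mem (by simp), p4 t⟩
    · exact ⟨_, up4_mem _ _ _, p3 t⟩
    · exact ⟨_, up4_mem _ _ _, p2 t⟩
    · exact ⟨_, up4_mem _ _ _, by rw [p1 (-t), neg_neg]⟩
    · exact ⟨mid4 1 0 (-t) 1, mid4_mem (by simp), by rw [q4 (-t), neg_neg]⟩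
    · exact ⟨_, lo4_mem _ _ _, by rw [q3 (-t), neg_neg]⟩
    · exact ⟨_, lo4_mem _ _ _, q2 t⟩
    · exact ⟨_, lo4_mem _ _ _, by rw [q1 (-t), neg_neg]⟩
  intro x hx
  obtain ⟨g, hg, rfl⟩ := hle hx
  obtain ⟨x₁, y₁, z₁, x₂, y₂, z₂, a, b, c, d, x₃, y₃, z₃, x₄, y₄, z₄, hd, rfl⟩ := sp4_decomp g hg
  simp only [map_mul]
  exact ⟨_, hup _ _ _, _, ⟨_, hlo _ _ _, _, ⟨_, hmid _ _ _ _ hd, _,
    ⟨_, hup _ _ _, _, hlo _ _ _, rfl⟩, rfl⟩, rfl⟩, rfl⟩

/-- right factors in the unipotent radical -/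
def Wb (e f : Fin l → R) (i : Fin l) : Submodule ℤ R :=
  Submodule.span ℤ {b | b = 1 ∨ ∃ k, i < k ∧ (b = e k ∨ b = f k)}

/-- generators of the unipotent radical -/
def genN (e f : Fin l → R) (m : Fin l) : Set R :=
  {g | ∃ i, i < m ∧ ∃ b ∈ Wb e f i, g = 1 + e i * b}

theorem Wb_one (i : Fin l) : (1 : R) ∈ Wb e f i := Submodule.subset_span (Or.inl rfl)

theorem Wb_vec {i k : Fin l} (hk : i < k) {z : R} (hz : z = e k ∨ z = f k) :
    z ∈ Wb e f i := Submodule.subset_span (Or.inr ⟨k, hk, hz⟩)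

theorem vec_sq (h : CAR e f) {k : Fin l} {z : R} (hz : z = e k ∨ z = f k) : z * z = 0 := by
  rcases hz with rfl | rfl
  exacts [h.e0 k, h.f0 k]

theorem vec_anti (h : CAR e f) {k j : Fin l} {z v : R} (hz : z = e k ∨ z = f k)
    (hv : v = e j ∨ v = f j) : ∃ c : ℤ, z * v + v * z = c := by
  rcases hz with rfl | rfl <;> rcases hv with rfl | rfl
  exacts [⟨_, h.ee' k j⟩, ⟨_, h.ef k j⟩, ⟨_, h.symm.ef k j⟩, ⟨_, h.symm.ee' k j⟩]

theorem vec_e (h : CAR e f) {i k : Fin l} (hk : i < k) {z : R} (hz : z = e k ∨ z = f k) :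
    z * e i = -(e i * z) := by
  rcases hz with rfl | rfl
  exacts [h.ee k i, h.fe hk.ne]

theorem genN_even (h : CAR e f) {j k : Fin l} (hj : m ≤ j) (hk : m ≤ k) {x y : R}
    (hx : x = e j ∨ x = f j) (hy : y = e k ∨ y = f k) (hxy : y * x = -(x * y)) (t : ℤ) :
    ∀ g ∈ genN e f m, (1 + t • (x * y)) * g * (1 + (-t) • (x * y)) ∈ genN e f m := by
  rintro _ ⟨i, hi, b, hb, rfl⟩
  have hij := lt_of_lt_of_le hi hj
  have hik := lt_of_lt_of_le hi hk
  obtain ⟨h1, -⟩ := sq_zero_inv (anti_sq (vec_sq h hx) hxy) t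
  refine ⟨i, hi, (1 + t • (x * y)) * b * (1 + (-t) • (x * y)), ?_, ?_⟩
  · induction hb using Submodule.span_induction with
    | mem b hb =>
      rcases hb with rfl | ⟨r, hr, hb⟩
      · rw [mul_one, h1]; exact Wb_one i
      · obtain ⟨cx, hcx⟩ := vec_anti h hx hb
        obtain ⟨cy, hcy⟩ := vec_anti h hy hb
        rw [conj_even t (vec_sq h hx) (vec_sq h hy) hxy hcx hcy]
        exact sub_mem (add_mem (Wb_vec hr hb) (Submodule.smul_mem _ _ (Wb_vec hij hx)))
          (Submodule.smul_mem _ _ (Wb_vec hik hy))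
    | zero => simp
    | add b c _ _ h1 h2 => rw [mul_add (_ + _) b, add_mul (_ * b)]; exact add_mem h1 h2
    | smul s b _ h1 => rw [mul_smul_comm s, smul_mul_assoc s]; exact Submodule.smul_mem _ _ h1
  · have : (1 + t • (x * y)) * e i = e i * (1 + t • (x * y)) := by
      have : x * y * e i = e i * (x * y) := by
        rw [mul_assoc, vec_e h hik hy, mul_neg, ← mul_assoc, vec_e h hij hx]; noncomm_ring
      rw [add_mul, mul_add, smul_mul_assoc, mul_smul_comm, this, one_mul, mul_one]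
    rw [conj_one_add h1, ← mul_assoc, this]
    simp only [mul_assoc]

theorem genN_odd (h : CAR e f) {j : Fin l} (hj : m ≤ j) {x : R}
    (hx : x = e j ∨ x = f j) (t : ℤ) :
    ∀ g ∈ genN e f m, (1 + t • x) * g * (1 + (-t) • x) ∈ genN e f m := by
  rintro _ ⟨i, hi, b, hb, rfl⟩
  have hij := lt_of_lt_of_le hi hj
  obtain ⟨h1, -⟩ := sq_zero_inv (vec_sq h hx) t
  refine ⟨i, hi, (1 + (-t) • x) * b * (1 + (-t) • x), ?_, ?_⟩
  · induction hb using Submodule.span_induction with
    | mem b hb =>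
      rcases hb with rfl | ⟨r, hr, hb⟩
      · rw [mul_one, sq_zero_mul (vec_sq h hx)]
        exact add_mem (Wb_one i) (Submodule.smul_mem _ _ (Wb_vec hij hx))
      · obtain ⟨cx, hcx⟩ := vec_anti h hx hb
        rw [conj_odd t (vec_sq h hx) hcx]
        exact add_mem (sub_mem (Wb_vec hr hb) (Submodule.smul_mem _ _ (Wb_one i)))
          (Submodule.smul_mem _ _ (Wb_vec hij hx))
    | zero => simp
    | add b c _ _ h1 h2 => rw [mul_add (_ + _) b, add_mul (_ * b)]; exact add_mem h1 h2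
    | smul s b _ h1 => rw [mul_smul_comm s, smul_mul_assoc s]; exact Submodule.smul_mem _ _ h1
  · have : (1 + t • x) * e i = e i * (1 + (-t) • x) := by
      rw [add_mul, mul_add, smul_mul_assoc, mul_smul_comm, vec_e h hij hx, one_mul, mul_one]
      simp
    rw [conj_one_add h1, ← mul_assoc, this]
    simp only [mul_assoc]

theorem norm_N (h : CAR e f) (hmn : m < n) :
    Norm (Hs e f m n) (Submonoid.closure (genN e f m)) := by
  have ev : ∀ {x y : R}, (x = e m ∨ x = f m) → (y = e n ∨ y = f n) → y * x = -(x * y) →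
      ∀ t : ℤ, ∃ x', (1 + t • (x * y)) * x' = 1 ∧ x' * (1 + t • (x * y)) = 1 ∧
      ∀ g ∈ genN e f m, (1 + t • (x * y)) * g * x' ∈ Submonoid.closure (genN e f m) ∧
        x' * g * (1 + t • (x * y)) ∈ Submonoid.closure (genN e f m) := by
    intro x y hx hy hxy t
    obtain ⟨h1, h2⟩ := sq_zero_inv (anti_sq (vec_sq h hx) hxy) t
    refine ⟨_, h1, h2, fun g hg => ⟨Submonoid.subset_closure
      (genN_even h le_rfl hmn.le hx hy hxy t g hg), Submonoid.subset_closure ?_⟩⟩
    have := genN_even h le_rfl hmn.le hx hy hxy (-t) g hg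
    rwa [neg_neg] at this
  have od : ∀ {j : Fin l} {x : R}, m ≤ j → (x = e j ∨ x = f j) →
      ∀ t : ℤ, ∃ x', (1 + t • x) * x' = 1 ∧ x' * (1 + t • x) = 1 ∧
      ∀ g ∈ genN e f m, (1 + t • x) * g * x' ∈ Submonoid.closure (genN e f m) ∧
        x' * g * (1 + t • x) ∈ Submonoid.closure (genN e f m) := by
    intro j x hj hx t
    obtain ⟨h1, h2⟩ := sq_zero_inv (vec_sq h hx) t
    refine ⟨_, h1, h2, fun g hg => ⟨Submonoid.subset_closure
      (genN_odd h hj hx t g hg), Submonoid.subset_closure ?_⟩⟩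
    have := genN_odd h hj hx (-t) g hg
    rwa [neg_neg] at this
  refine Norm.of_gens ?_
  rintro _ (⟨t, rfl | rfl | rfl | rfl⟩ | ⟨t, rfl | rfl | rfl | rfl⟩)
  · exact ev (Or.inl rfl) (Or.inr rfl) (h.fe hmn.ne) t
  · exact ev (Or.inl rfl) (Or.inl rfl) (h.ee n m) t
  · exact od le_rfl (Or.inl rfl) t
  · exact od hmn.le (Or.inl rfl) t
  · exact ev (Or.inr rfl) (Or.inl rfl) (h.symm.fe hmn.ne) t
  · exact ev (Or.inr rfl) (Or.inr rfl) (h.ff n m) t
  · exact od le_rfl (Or.inr rfl) t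
  · exact od hmn.le (Or.inr rfl) t

theorem genN_le (h : CAR e f) : genN e f m ⊆ Submonoid.closure (rootsB e f) := by
  rintro _ ⟨i, -, b, hb, rfl⟩
  have z : ∀ b ∈ Wb e f i, e i * b * e i = 0 := by
    intro b hb
    induction hb using Submodule.span_induction with
    | mem b hb =>
      rcases hb with rfl | ⟨r, hr, hb⟩
      · rw [mul_one, h.e0]
      · rw [mul_assoc, vec_e h hr hb, mul_neg, ← mul_assoc, h.e0, zero_mul, neg_zero]
    | zero => simp
    | add b c _ _ h1 h2 => rw [mul_add, add_mul, h1, h2, add_zero]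
    | smul s b _ h1 => rw [mul_smul_comm, smul_mul_assoc, h1, smul_zero]
  have key : ∀ t : ℤ, 1 + t • (e i * b) ∈ Submonoid.closure (rootsB e f) := by
    induction hb using Submodule.span_induction with
    | mem b hb =>
      intro t
      rcases hb with rfl | ⟨r, hr, rfl | rfl⟩
      · rw [mul_one]; exact Submonoid.subset_closure (Or.inr ⟨i, t, rfl⟩)
      · exact Submonoid.subset_closure (Or.inl ⟨i, r, t, hr, Or.inr rfl⟩)
      · exact Submonoid.subset_closure (Or.inl ⟨i, r, t, hr, Or.inl rfl⟩)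
    | zero => intro t; simpa using one_mem _
    | add b c hb hc h1 h2 =>
      intro t
      have h3 : e i * b * (e i * c) = 0 := by rw [← mul_assoc, z b hb, zero_mul]
      have := mul_mem (h1 t) (h2 t)
      simp only [mul_add, add_mul, one_mul, mul_one, smul_mul_assoc, mul_smul_comm, h3,
        smul_zero, add_zero] at this
      rwa [mul_add, smul_add, ← add_assoc]
    | smul s b _ h1 => intro t; rw [mul_smul_comm, ← mul_smul]; exact h1 _
  simpa using key 1

theorem genH_le (hmn : m < n) : genH e f m n ⊆ rootsB e f := by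
  rintro _ ⟨t, rfl | rfl | rfl | rfl⟩
  exacts [Or.inl ⟨m, n, t, hmn, Or.inl rfl⟩, Or.inl ⟨m, n, t, hmn, Or.inr rfl⟩,
    Or.inr ⟨m, t, rfl⟩, Or.inr ⟨n, t, rfl⟩]

theorem B_subset' (h : CAR e f) (hmn : m < n) (hm : ∀ i, i < m ∨ i = m ∨ i = n) :
    (Submonoid.closure (rootsB e f) : Set R) ⊆
    (Submonoid.closure (genN e f m) : Set R) * Submonoid.closure (genH e f m n) := by
  refine ((norm_N h hmn).mono Uh_le).closure_subset ?_
  have hN : ∀ i, i < m → ∀ b ∈ Wb e f i, ∀ t : ℤ,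
      1 + t • (e i * b) ∈ Submonoid.closure (genN e f m) := fun i hi b hb t =>
    Submonoid.subset_closure ⟨i, hi, t • b, Submodule.smul_mem _ _ hb, by rw [mul_smul_comm]⟩
  rintro _ (⟨i, j, t, hij, hg⟩ | ⟨i, t, rfl⟩)
  · by_cases hi : i < m
    · rcases hg with rfl | rfl
      · exact Or.inl (hN i hi _ (Wb_vec hij (Or.inr rfl)) t)
      · exact Or.inl (hN i hi _ (Wb_vec hij (Or.inl rfl)) t)
    · have h1 := hm i
      have h2 := hm j
      obtain ⟨rfl, rfl⟩ : i = m ∧ j = n := by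
        simp only [Fin.lt_def, Fin.ext_iff] at *
        omega
      rcases hg with rfl | rfl
      · exact Or.inr (Submonoid.subset_closure ⟨t, Or.inl rfl⟩)
      · exact Or.inr (Submonoid.subset_closure ⟨t, Or.inr (Or.inl rfl)⟩)
  · rcases hm i with hi | rfl | rfl
    · have := hN i hi 1 (Wb_one i) t
      rw [mul_one] at this
      exact Or.inl this
    · exact Or.inr (Submonoid.subset_closure ⟨t, Or.inr (Or.inr (Or.inl rfl))⟩)
    · exact Or.inr (Submonoid.subset_closure ⟨t, Or.inr (Or.inr (Or.inr rfl))⟩)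

theorem typeB_stab (h : CAR e f) (hL : Lev e f) (hmn : m < n)
    (hm : ∀ i, i < m ∨ i = m ∨ i = n) :
    Submonoid.closure (rootsB e f ∪ rootsB f e) ≤
      Stab (Om (Submonoid.closure (rootsB e f)) (Submonoid.closure (rootsB f e))) := by
  have hS := le_Stab_of (siegel_B h hL)
  have hH : Hs e f m n ≤
      Stab (Om (Submonoid.closure (rootsB e f)) (Submonoid.closure (rootsB f e))) := by
    have h0 := norm_N h.symm hmn
    rw [Hs_symm] at h0
    have h1 := parabolic (K' := {1}) (norm_N h hmn) h0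
      (B_subset' h hmn hm) (B_subset' h.symm hmn hm) Uh_le Vh_le
      (Submonoid.closure_le.2 (genN_le h)) (Submonoid.closure_le.2 (genN_le h.symm))
      (Submonoid.closure_mono (genH_le hmn)) (Submonoid.closure_mono (genH_le hmn))
      (fun _ hx => hx.1) (by simp) (Hs_subset h hmn.ne)
    intro x hx y hy
    have h2 := h1 ⟨x, hx, y, hy, rfl⟩
    have h3 : ((Hs e f m n ⊓ Lv e f : Submonoid R) : Set R) ⊆ Lv e f :=
      fun _ hx => hx.2
    refine siegel_B h hL ⟨1, one_mem _, x * y, ?_, one_mul _⟩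
    exact Set.mul_subset_mul_left (Set.mul_subset_mul_left (Set.mul_subset_mul_right h3)) h2
  have hn : ∀ i, i ≤ n := fun i => by
    rcases hm i with hi | rfl | rfl
    exacts [(hi.trans hmn).le, hmn.le, le_rfl]
  refine Submonoid.closure_le.2 ?_
  rintro g (hg | ⟨i, j, t, hij, rfl | rfl⟩ | ⟨i, t, rfl⟩)
  · exact le_Stab_Om _ _ (Submonoid.subset_closure hg)
  · exact hS (Lv_le h (mem_Lv hij.ne t))
  · have hi : i ≠ n := (lt_of_lt_of_le hij (hn j)).ne
    have k0 : ∀ t : ℤ, 1 + t • (f n * f m) ∈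
        Stab (Om (Submonoid.closure (rootsB e f)) (Submonoid.closure (rootsB f e))) := by
      intro t
      rw [h.ff, smul_neg, ← neg_smul]
      exact hH (Vh_le (Submonoid.subset_closure ⟨_, Or.inr (Or.inl rfl)⟩))
    have k1 : ∀ t : ℤ, 1 + t • (f n * f i) ∈
        Stab (Om (Submonoid.closure (rootsB e f)) (Submonoid.closure (rootsB f e))) := by
      by_cases him : i = m
      · rw [him]; exact k0
      · exact move_pair h hS (Ne.symm him) hmn.ne' hi.symm k0
    have key : ∀ t : ℤ, 1 + t • (f i * f n) ∈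
        Stab (Om (Submonoid.closure (rootsB e f)) (Submonoid.closure (rootsB f e))) := by
      intro t
      rw [h.ff, smul_neg, ← neg_smul]
      exact k1 _
    by_cases hj : j = n
    · subst hj; exact key t
    · exact move_pair h hS (Ne.symm hj) hi hij.ne key t
  · have key : ∀ t : ℤ, 1 + t • f n ∈
        Stab (Om (Submonoid.closure (rootsB e f)) (Submonoid.closure (rootsB f e))) := fun t =>
      hH (Vh_le (Submonoid.subset_closure ⟨_, Or.inr (Or.inr (Or.inr rfl))⟩))
    by_cases hi : i = n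
    · subst hi; exact key t
    · exact move_one h hS (Ne.symm hi) key t

theorem typeB (hl : 69 ≤ l) : GenB (cre l) (ann l) 2 := by
  have hmn : (⟨l - 2, by omega⟩ : Fin l) < ⟨l - 1, by omega⟩ := by
    rw [Fin.lt_def]; simp only; omega
  have hm : ∀ i : Fin l, i < ⟨l - 2, by omega⟩ ∨ i = ⟨l - 2, by omega⟩ ∨ i = ⟨l - 1, by omega⟩ :=
    fun i => by
      have := i.2
      simp only [Fin.lt_def, Fin.ext_iff]
      omega
  have h01 : (⟨0, by omega⟩ : Fin l) < ⟨1, by omega⟩ := by simp [Fin.lt_def]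
  refine hasLength_two _ _ _ (fun g hg => Submonoid.subset_closure (Or.inl hg))
    (fun g hg => Submonoid.subset_closure (Or.inr hg))
    (Om_of_le (typeB_stab (car_spin l) (lev_spin hl) hmn hm))
    ⟨_, mul_mem (Submonoid.subset_closure (Or.inr (Or.inl ⟨_, _, 1, h01, Or.inr rfl⟩)))
      (Submonoid.subset_closure (Or.inl (Or.inl ⟨_, _, 1, h01, Or.inr rfl⟩))),
      fun a ha b hb e => ?_⟩
  have h1 := not_mul_spin rootsB_inv rootsB_one ha hb
  rw [← e, witness h01] at h1
  exact zero_ne_one h1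

end Pool.Agent.Lib.MP_755cca_al
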